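import Pool.Agent.Lib.MP_74c692_an.Inj

set_option autoImplicit false

open Filter Topology Complex Set

namespace Pool.Agent.Lib.MP_74c692_an

/-- its derivative -/
noncomputable def PPd (ε : ℝ) (v : ℂ) : ℂ := 1 + I * ε * (5 * v ^ 4 + 15 * v ^ 2 + 5)

lemma PP_neg (ε : ℝ) (v : ℂ) : PP ε (-v) = -PP ε v := by unfold PP; ring

lemma PP_zero (ε : ℝ) : PP ε 0 = 0 := by unfold PP; simp

lemma PP_hasDerivAt (ε : ℝ) (v : ℂ) : HasDerivAt (PP ε) (PPd ε v) v := by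
  have h1 : HasDerivAt (fun v : ℂ => v ^ 5 + 5 * v ^ 3 + 5 * v)
      (((5 : ℕ) : ℂ) * v ^ (5 - 1) * 1 + 5 * (((3 : ℕ) : ℂ) * v ^ (3 - 1) * 1) + 5 * 1) v :=
    (((hasDerivAt_id v).fun_pow 5).fun_add (((hasDerivAt_id v).fun_pow 3).const_mul 5)).fun_add
      ((hasDerivAt_id v).const_mul 5)
  have h2 := (hasDerivAt_id v).fun_add (h1.const_mul (I * ε))
  unfold PP PPd
  refine h2.congr_deriv ?_
  push_cast
  ring

variable {ε : ℝ}

lemma norm_Ie (hε : 0 < ε) : ‖I * (ε : ℂ)‖ = ε := by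
  rw [norm_mul, norm_I, one_mul, norm_real, Real.norm_of_nonneg hε.le]

lemma RR_lip {a b : ℂ} {M : ℝ} (ha : ‖a‖ ≤ M) (hb : ‖b‖ ≤ M) :
    ‖(a ^ 5 + 5 * a ^ 3 + 5 * a) - (b ^ 5 + 5 * b ^ 3 + 5 * b)‖ ≤
      (5 * M ^ 4 + 15 * M ^ 2 + 5) * ‖a - b‖ := by
  have hM : 0 ≤ M := (norm_nonneg a).trans ha
  have e : (a ^ 5 + 5 * a ^ 3 + 5 * a) - (b ^ 5 + 5 * b ^ 3 + 5 * b) =
      ((a ^ 4 + a ^ 3 * b + a ^ 2 * b ^ 2 + a * b ^ 3 + b ^ 4) +
        5 * (a ^ 2 + a * b + b ^ 2) + 5) * (a - b) := by ring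
  rw [e, norm_mul]
  refine mul_le_mul_of_nonneg_right ?_ (norm_nonneg _)
  have n1 : ∀ i j : ℕ, ‖a ^ i * b ^ j‖ ≤ M ^ (i + j) := by
    intro i j
    rw [norm_mul, norm_pow, norm_pow, pow_add]
    gcongr
  have h1 : ‖a ^ 4 + a ^ 3 * b + a ^ 2 * b ^ 2 + a * b ^ 3 + b ^ 4‖ ≤ 5 * M ^ 4 := by
    calc _ ≤ ‖a ^ 4‖ + ‖a ^ 3 * b‖ + ‖a ^ 2 * b ^ 2‖ + ‖a * b ^ 3‖ + ‖b ^ 4‖ := by
          refine (norm_add_le _ _).trans ?_
          gcongr
          refine (norm_add_le _ _).trans ?_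
          gcongr
          refine (norm_add_le _ _).trans ?_
          gcongr
          exact norm_add_le _ _
      _ ≤ M ^ 4 + M ^ 4 + M ^ 4 + M ^ 4 + M ^ 4 := by
          gcongr
          · simpa using n1 4 0
          · simpa using n1 3 1
          · simpa using n1 2 2
          · simpa using n1 1 3
          · simpa using n1 0 4
      _ = 5 * M ^ 4 := by ring
  have h2 : ‖a ^ 2 + a * b + b ^ 2‖ ≤ 3 * M ^ 2 := by
    calc _ ≤ ‖a ^ 2‖ + ‖a * b‖ + ‖b ^ 2‖ := by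
          refine (norm_add_le _ _).trans ?_
          gcongr
          exact norm_add_le _ _
      _ ≤ M ^ 2 + M ^ 2 + M ^ 2 := by
          gcongr
          · simpa using n1 2 0
          · simpa using n1 1 1
          · simpa using n1 0 2
      _ = 3 * M ^ 2 := by ring
  calc _ ≤ ‖a ^ 4 + a ^ 3 * b + a ^ 2 * b ^ 2 + a * b ^ 3 + b ^ 4‖ +
        ‖5 * (a ^ 2 + a * b + b ^ 2)‖ + ‖(5 : ℂ)‖ := by
        refine (norm_add_le _ _).trans ?_
        gcongr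
        exact norm_add_le _ _
    _ ≤ 5 * M ^ 4 + 5 * (3 * M ^ 2) + 5 := by
        rw [norm_mul]
        have : ‖(5 : ℂ)‖ = 5 := by norm_num
        rw [this]
        gcongr
    _ = 5 * M ^ 4 + 15 * M ^ 2 + 5 := by ring

lemma RR_norm {a : ℂ} {M : ℝ} (ha : ‖a‖ ≤ M) :
    ‖a ^ 5 + 5 * a ^ 3 + 5 * a‖ ≤ M ^ 5 + 5 * M ^ 3 + 5 * M := by
  have hM : 0 ≤ M := (norm_nonneg a).trans ha
  calc _ ≤ ‖a ^ 5‖ + ‖5 * a ^ 3‖ + ‖5 * a‖ := by
        refine (norm_add_le _ _).trans ?_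
        gcongr
        exact norm_add_le _ _
    _ ≤ M ^ 5 + 5 * M ^ 3 + 5 * M := by
        rw [norm_mul, norm_mul, norm_pow, norm_pow]
        have : ‖(5 : ℂ)‖ = 5 := by norm_num
        rw [this]
        gcongr

/-- `PP` is close to the identity. -/
lemma PP_lower (hε : 0 < ε) (hε1 : 1000000 * ε ≤ 1) {a b : ℂ} (ha : ‖a‖ ≤ 4) (hb : ‖b‖ ≤ 4) :
    ‖a - b‖ ≤ 2 * ‖PP ε a - PP ε b‖ := by
  have e : PP ε a - PP ε b = (a - b) +
      I * ε * ((a ^ 5 + 5 * a ^ 3 + 5 * a) - (b ^ 5 + 5 * b ^ 3 + 5 * b)) := by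
    unfold PP; ring
  have h1 := RR_lip ha hb
  have h2 : ‖I * (ε : ℂ) * ((a ^ 5 + 5 * a ^ 3 + 5 * a) - (b ^ 5 + 5 * b ^ 3 + 5 * b))‖ ≤
      1 / 2 * ‖a - b‖ := by
    rw [norm_mul, norm_Ie hε]
    have : (5 * (4 : ℝ) ^ 4 + 15 * 4 ^ 2 + 5) = 1525 := by norm_num
    rw [this] at h1
    calc ε * _ ≤ ε * (1525 * ‖a - b‖) := by gcongr
      _ = (ε * 1525) * ‖a - b‖ := by ring
      _ ≤ 1 / 2 * ‖a - b‖ := by
        gcongr
        linarith
  have h3 : ‖a - b‖ ≤ ‖PP ε a - PP ε b‖ +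
      ‖I * (ε : ℂ) * ((a ^ 5 + 5 * a ^ 3 + 5 * a) - (b ^ 5 + 5 * b ^ 3 + 5 * b))‖ := by
    have : a - b = (PP ε a - PP ε b) -
      I * ε * ((a ^ 5 + 5 * a ^ 3 + 5 * a) - (b ^ 5 + 5 * b ^ 3 + 5 * b)) := by rw [e]; ring
    conv_lhs => rw [this]
    exact norm_sub_le _ _
  linarith

lemma PP_close (hε : 0 < ε) {a : ℂ} {M : ℝ} (ha : ‖a‖ ≤ M) :
    ‖PP ε a - a‖ ≤ ε * (M ^ 5 + 5 * M ^ 3 + 5 * M) := by
  have e : PP ε a - a = I * ε * (a ^ 5 + 5 * a ^ 3 + 5 * a) := by unfold PP; ring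
  rw [e, norm_mul, norm_Ie hε]
  exact mul_le_mul_of_nonneg_left (RR_norm ha) hε.le

lemma PP_inj (hε : 0 < ε) (hε1 : 1000000 * ε ≤ 1) {a b : ℂ} (ha : ‖a‖ ≤ 4) (hb : ‖b‖ ≤ 4)
    (h : PP ε a = PP ε b) : a = b := by
  have := PP_lower hε hε1 ha hb
  rw [h, sub_self, norm_zero, mul_zero] at this
  exact sub_eq_zero.mp (norm_le_zero_iff.mp this)

lemma PP_surj (hε : 0 < ε) (hε1 : 1000000 * ε ≤ 1) {c : ℂ} (hc : ‖c‖ < 5 / 2) :
    ∃ v : ℂ, ‖v‖ ≤ 3 ∧ PP ε v = c := by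
  have hd : Differentiable ℂ (PP ε) := fun v => (PP_hasDerivAt ε v).differentiableAt
  have hfr : ∃ᶠ z in 𝓝 (0 : ℂ), PP ε z ≠ PP ε 0 := by
    have h1 : ∀ᶠ z in 𝓝[≠] (0 : ℂ), PP ε z ≠ PP ε 0 := by
      have h2 : ∀ᶠ z in 𝓝[≠] (0 : ℂ), z ∈ Metric.ball (0 : ℂ) 4 :=
        nhdsWithin_le_nhds (Metric.ball_mem_nhds 0 (by norm_num))
      filter_upwards [h2, self_mem_nhdsWithin] with z hz hz0 heq
      have hz' : ‖z‖ < 4 := by simpa using hz
      exact hz0 (PP_inj hε hε1 hz'.le (by simp) heq)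
    exact (h1.frequently).filter_mono nhdsWithin_le_nhds
  have hb := (hd.diffContOnCl (s := Metric.ball (0 : ℂ) 6)).ball_subset_image_closedBall
    (ε := 5) (by norm_num) (fun z hz => by
      rw [mem_sphere_zero_iff_norm] at hz
      rw [PP_zero, sub_zero]
      have h1 := PP_close hε (a := z) hz.le
      have h2 : ‖z‖ ≤ ‖PP ε z‖ + ‖PP ε z - z‖ := by
        have : z = PP ε z - (PP ε z - z) := by ring
        conv_lhs => rw [this]
        exact norm_sub_le _ _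
      norm_num at h1
      rw [hz] at h2
      linarith) hfr
  obtain ⟨v, hv, hvc⟩ := hb (show c ∈ Metric.ball (PP ε 0) (5 / 2) by
    rw [PP_zero]; simpa using hc)
  refine ⟨v, ?_, hvc⟩
  have hv6 : ‖v‖ ≤ 6 := by simpa using hv
  have h1 := PP_close hε hv6
  have h2 : ‖v‖ ≤ ‖PP ε v‖ + ‖PP ε v - v‖ := by
    have : v = PP ε v - (PP ε v - v) := by ring
    conv_lhs => rw [this]
    exact norm_sub_le _ _
  rw [hvc] at h1 h2
  norm_num at h1
  linarith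

lemma PPd_ne (hε : 0 < ε) (hε1 : 1000000 * ε ≤ 1) {v : ℂ} (hv : ‖v‖ ≤ 3) : PPd ε v ≠ 0 := by
  intro h
  have e : (1 : ℂ) = -(I * ε * (5 * v ^ 4 + 15 * v ^ 2 + 5)) := by
    unfold PPd at h; linear_combination h
  have h1 : ‖(1 : ℂ)‖ ≤ 1 / 2 := by
    rw [e, norm_neg, norm_mul, norm_Ie hε]
    have h2 : ‖5 * v ^ 4 + 15 * v ^ 2 + 5‖ ≤ 5 * 3 ^ 4 + 15 * 3 ^ 2 + 5 := by
      calc _ ≤ ‖5 * v ^ 4‖ + ‖15 * v ^ 2‖ + ‖(5 : ℂ)‖ := by
            refine (norm_add_le _ _).trans ?_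
            gcongr
            exact norm_add_le _ _
        _ ≤ 5 * 3 ^ 4 + 15 * 3 ^ 2 + 5 := by
            rw [norm_mul, norm_mul, norm_pow, norm_pow]
            have h5 : ‖(5 : ℂ)‖ = 5 := by norm_num
            have h15 : ‖(15 : ℂ)‖ = 15 := by norm_num
            rw [h5, h15]
            gcongr
    calc ε * _ ≤ ε * (5 * 3 ^ 4 + 15 * 3 ^ 2 + 5) := by gcongr
      _ ≤ 1 / 2 := by linarith
  norm_num at h1

/-- The local inverse of `PP`, with its derivative. -/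
lemma exists_inverse (hε : 0 < ε) (hε1 : 1000000 * ε ≤ 1) :
    ∃ V : ℂ → ℂ, (∀ c, ‖c‖ < 5 / 2 → ‖V c‖ ≤ 3 ∧ PP ε (V c) = c) ∧
      (∀ c, ‖c‖ < 5 / 2 → HasDerivAt V (PPd ε (V c))⁻¹ c) ∧
      (∀ c, ‖c‖ < 5 / 2 → ‖V c‖ ≤ 2 * ‖c‖) ∧
      (∀ c v, ‖v‖ ≤ 3 → ‖c‖ < 5 / 2 → PP ε v = c → V c = v) := by
  have hex : ∀ c : ℂ, ∃ v : ℂ, ‖c‖ < 5 / 2 → ‖v‖ ≤ 3 ∧ PP ε v = c := by
    intro c
    by_cases hc : ‖c‖ < 5 / 2
    · obtain ⟨v, hv⟩ := PP_surj hε hε1 hc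
      exact ⟨v, fun _ => hv⟩
    · exact ⟨0, fun h => absurd h hc⟩
  choose V hV using hex
  have hlip : ∀ c d : ℂ, ‖c‖ < 5 / 2 → ‖d‖ < 5 / 2 → ‖V c - V d‖ ≤ 2 * ‖c - d‖ := by
    intro c d hc hd
    have h1 := PP_lower hε hε1 (a := V c) (b := V d) ((hV c hc).1.trans (by norm_num))
      ((hV d hd).1.trans (by norm_num))
    rwa [(hV c hc).2, (hV d hd).2] at h1
  have huniq : ∀ c v, ‖v‖ ≤ 3 → ‖c‖ < 5 / 2 → PP ε v = c → V c = v := by
    intro c v hv hc hvc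
    exact PP_inj hε hε1 ((hV c hc).1.trans (by norm_num)) (hv.trans (by norm_num))
      (by rw [(hV c hc).2, hvc])
  have hV0 : V 0 = 0 := huniq 0 0 (by simp) (by norm_num) (PP_zero ε)
  refine ⟨V, hV, ?_, ?_, huniq⟩
  · intro c hc
    have hnb : ∀ᶠ d in 𝓝 c, ‖d‖ < 5 / 2 := (continuous_norm.tendsto c).eventually_lt_const hc
    have hcont : ContinuousAt V c := by
      rw [ContinuousAt, tendsto_iff_norm_sub_tendsto_zero]
      refine squeeze_zero' (Eventually.of_forall fun _ => norm_nonneg _)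
        (hnb.mono fun d hd => hlip d c hd hc) ?_
      have h1 : Tendsto (fun d : ℂ => 2 * ‖d - c‖) (𝓝 c) (𝓝 (2 * ‖c - c‖)) :=
        (continuous_const.mul (continuous_id.sub continuous_const).norm).tendsto c
      simpa using h1
    exact (PP_hasDerivAt ε (V c)).of_local_left_inverse hcont
      (PPd_ne hε hε1 (hV c hc).1) (hnb.mono fun d hd => (hV d hd).2)
  · intro c hc
    have := hlip c 0 hc (by norm_num)
    rwa [hV0, sub_zero, sub_zero] at this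

/-- The sign of `Re (v P'(v))` on the curve `P v = i y`. -/
lemma re_estimate (hε : 0 < ε) (hε1 : 1000000 * ε ≤ 1) {v : ℂ} (hv : ‖v‖ ≤ 3) {y : ℝ}
    (hy0 : 0 ≤ y) (hy : y ≤ 3) (hvy : PP ε v = y * I) :
    |(v * PPd ε v).re - ε * (10 * y ^ 3 - 4 * y ^ 5)| ≤ ε := by
  have hd : ‖v - y * I‖ ≤ ε * 393 := by
    have h1 := PP_close hε hv
    rw [hvy] at h1
    rw [norm_sub_rev]
    norm_num at h1
    linarith
  have hyI : ‖(y : ℂ) * I‖ ≤ 3 := by
    rw [norm_mul, norm_I, mul_one, norm_real, Real.norm_of_nonneg hy0]; exact hy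
  have hvP : v * PPd ε v = y * I + I * ε * (4 * v ^ 5 + 10 * v ^ 3) := by
    rw [← hvy]; unfold PP PPd; ring
  have hmain : (y : ℂ) * I + I * ε * (4 * ((y : ℂ) * I) ^ 5 + 10 * ((y : ℂ) * I) ^ 3) =
      ((ε * (10 * y ^ 3 - 4 * y ^ 5) : ℝ) : ℂ) + (y : ℂ) * I := by
    have hI3 : I ^ 3 = -I := by rw [pow_succ, I_sq]; ring
    have hI5 : I ^ 5 = I := by rw [show 5 = 3 + 2 by norm_num, pow_add, hI3, I_sq]; ring
    rw [mul_pow, mul_pow, hI3, hI5]
    push_cast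
    linear_combination (ε : ℂ) * (4 * (y : ℂ) ^ 5 - 10 * (y : ℂ) ^ 3) * I_mul_I
  have hre : ε * (10 * y ^ 3 - 4 * y ^ 5) =
      ((y : ℂ) * I + I * ε * (4 * ((y : ℂ) * I) ^ 5 + 10 * ((y : ℂ) * I) ^ 3)).re := by
    rw [hmain, Complex.add_re, Complex.ofReal_re]
    simp
  rw [hre, hvP, ← Complex.sub_re]
  refine (Complex.abs_re_le_norm _).trans ?_
  have e : (y : ℂ) * I + I * ε * (4 * v ^ 5 + 10 * v ^ 3) -
      ((y : ℂ) * I + I * ε * (4 * ((y : ℂ) * I) ^ 5 + 10 * ((y : ℂ) * I) ^ 3)) =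
      I * ε * ((4 * (v ^ 4 + v ^ 3 * ((y : ℂ) * I) + v ^ 2 * ((y : ℂ) * I) ^ 2 +
        v * ((y : ℂ) * I) ^ 3 + ((y : ℂ) * I) ^ 4) +
        10 * (v ^ 2 + v * ((y : ℂ) * I) + ((y : ℂ) * I) ^ 2)) * (v - (y : ℂ) * I)) := by ring
  rw [e, norm_mul, norm_Ie hε, norm_mul]
  set b : ℂ := (y : ℂ) * I with hb
  have n1 : ∀ i j : ℕ, ‖v ^ i * b ^ j‖ ≤ 3 ^ (i + j) := by
    intro i j
    rw [norm_mul, norm_pow, norm_pow, pow_add]
    gcongr
  have h1 : ‖v ^ 4 + v ^ 3 * b + v ^ 2 * b ^ 2 + v * b ^ 3 + b ^ 4‖ ≤ 5 * 3 ^ 4 := by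
    calc _ ≤ ‖v ^ 4‖ + ‖v ^ 3 * b‖ + ‖v ^ 2 * b ^ 2‖ + ‖v * b ^ 3‖ + ‖b ^ 4‖ := by
          refine (norm_add_le _ _).trans ?_
          gcongr
          refine (norm_add_le _ _).trans ?_
          gcongr
          refine (norm_add_le _ _).trans ?_
          gcongr
          exact norm_add_le _ _
      _ ≤ 3 ^ 4 + 3 ^ 4 + 3 ^ 4 + 3 ^ 4 + 3 ^ 4 := by
          gcongr
          · simpa using n1 4 0
          · simpa using n1 3 1
          · simpa using n1 2 2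
          · simpa using n1 1 3
          · simpa using n1 0 4
      _ = 5 * 3 ^ 4 := by ring
  have h2 : ‖v ^ 2 + v * b + b ^ 2‖ ≤ 3 * 3 ^ 2 := by
    calc _ ≤ ‖v ^ 2‖ + ‖v * b‖ + ‖b ^ 2‖ := by
          refine (norm_add_le _ _).trans ?_
          gcongr
          exact norm_add_le _ _
      _ ≤ 3 ^ 2 + 3 ^ 2 + 3 ^ 2 := by
          gcongr
          · simpa using n1 2 0
          · simpa using n1 1 1
          · simpa using n1 0 2
      _ = 3 * 3 ^ 2 := by ring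
  have h3 : ‖4 * (v ^ 4 + v ^ 3 * b + v ^ 2 * b ^ 2 + v * b ^ 3 + b ^ 4) +
      10 * (v ^ 2 + v * b + b ^ 2)‖ ≤ 1890 := by
    calc _ ≤ ‖4 * (v ^ 4 + v ^ 3 * b + v ^ 2 * b ^ 2 + v * b ^ 3 + b ^ 4)‖ +
          ‖10 * (v ^ 2 + v * b + b ^ 2)‖ := norm_add_le _ _
      _ ≤ 4 * (5 * 3 ^ 4) + 10 * (3 * 3 ^ 2) := by
          rw [norm_mul, norm_mul]
          have h4 : ‖(4 : ℂ)‖ = 4 := by norm_num
          have h10 : ‖(10 : ℂ)‖ = 10 := by norm_num
          rw [h4, h10]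
          gcongr
      _ = 1890 := by norm_num
  calc ε * (_ * ‖v - b‖) ≤ ε * (1890 * (ε * 393)) := by gcongr
    _ = ε * (742770 * ε) := by ring
    _ ≤ ε * 1 := by gcongr; linarith
    _ = ε := mul_one _

lemma re_pos_one (hε : 0 < ε) (hε1 : 1000000 * ε ≤ 1) {v : ℂ} (hv : ‖v‖ ≤ 3)
    (hvy : PP ε v = (1 : ℝ) * I) : 0 < (v * PPd ε v).re := by
  have h := re_estimate hε hε1 hv (y := 1) (by norm_num) (by norm_num) hvy
  have e : (10 * (1 : ℝ) ^ 3 - 4 * 1 ^ 5) = 6 := by norm_num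
  rw [e, abs_le] at h
  linarith [h.1]

lemma re_neg_two (hε : 0 < ε) (hε1 : 1000000 * ε ≤ 1) {v : ℂ} (hv : ‖v‖ ≤ 3)
    (hvy : PP ε v = (7 / 4 : ℝ) * I) : (v * PPd ε v).re < 0 := by
  have h := re_estimate hε hε1 hv (y := 7 / 4) (by norm_num) (by norm_num) hvy
  have e : (10 * (7 / 4 : ℝ) ^ 3 - 4 * (7 / 4) ^ 5) = -(3087 / 256) := by norm_num
  rw [e, abs_le] at h
  linarith [h.2]

theorem arc_contra {ε : ℝ} (hε : 0 < ε) (hε1 : 1000000 * ε ≤ 1)
    {y₀ : ℝ} (hy0 : 19 / 10 ≤ y₀) (hy1 : y₀ ≤ 21 / 10) {f : ℂ → ℂ}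
    (hf : (f '' Metric.ball 0 1)ᶜ =
      {w | ∃ v : ℂ, ‖v‖ ≤ 3 ∧ v ≠ 0 ∧ (∃ y : ℝ, |y| ≤ y₀ ∧ PP ε v = y * I) ∧ w = 1 / v ^ 2}) :
    ∃ γ : ℝ → ℂ, ContinuousOn γ (Set.Ici 0) ∧ Set.InjOn γ (Set.Ici 0) ∧
      γ '' Set.Ici 0 = (f '' Metric.ball (0 : ℂ) 1)ᶜ ∧
      (∀ t : ℝ, 0 < t → DifferentiableAt ℝ γ t ∧ deriv γ t ≠ 0) ∧
      Filter.Tendsto (fun t : ℝ => ‖γ t‖) Filter.atTop Filter.atTop ∧
      ¬ ((MonotoneOn (fun t : ℝ => Complex.arg (deriv γ t / γ t)) (Set.Ioi 0) ∨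
        AntitoneOn (fun t : ℝ => Complex.arg (deriv γ t / γ t)) (Set.Ioi 0)) ∧
      Filter.Tendsto (fun t : ℝ => Complex.arg (deriv γ t / γ t)) Filter.atTop (nhds 0)) := by
  obtain ⟨V, hV, hVd, hVn, hVu⟩ := exists_inverse hε hε1
  have hy0' : 0 < y₀ := by linarith
  -- the parameter
  set s : ℝ → ℝ := fun t => y₀ / (1 + t) with hs
  have hspos : ∀ t : ℝ, 0 ≤ t → 0 < s t := fun t ht => by
    rw [hs]; positivity
  have hsle : ∀ t : ℝ, 0 ≤ t → s t ≤ y₀ := fun t ht => by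
    rw [hs]; exact div_le_self hy0'.le (by linarith)
  have hsn : ∀ t : ℝ, 0 ≤ t → ‖((s t : ℝ) : ℂ) * I‖ < 5 / 2 := fun t ht => by
    rw [norm_mul, norm_I, mul_one, norm_real, Real.norm_of_nonneg (hspos t ht).le]
    linarith [hsle t ht]
  set v : ℝ → ℂ := fun t => V ((s t : ℝ) * I) with hv
  have hvP : ∀ t : ℝ, 0 ≤ t → ‖v t‖ ≤ 3 ∧ PP ε (v t) = (s t : ℝ) * I := fun t ht =>
    hV _ (hsn t ht)
  have hvne : ∀ t : ℝ, 0 ≤ t → v t ≠ 0 := by
    intro t ht h0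
    have := (hvP t ht).2
    rw [h0, PP_zero] at this
    have h2 : ((s t : ℝ) : ℂ) = 0 := by
      rcases mul_eq_zero.mp this.symm with h | h
      · exact h
      · exact absurd h I_ne_zero
    have h3 : s t = 0 := by exact_mod_cast h2
    exact (hspos t ht).ne' h3
  have hsd : ∀ t : ℝ, 0 ≤ t → HasDerivAt s (-(y₀ / (1 + t) ^ 2)) t := by
    intro t ht
    have h1 : HasDerivAt (fun t : ℝ => 1 + t) 1 t := (hasDerivAt_id t).const_add 1
    have h2 := (hasDerivAt_const t y₀).fun_div h1 (by positivity : (1 : ℝ) + t ≠ 0)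
    refine h2.congr_deriv ?_
    ring
  have hvd : ∀ t : ℝ, 0 ≤ t → HasDerivAt v ((PPd ε (v t))⁻¹ * ((-(y₀ / (1 + t) ^ 2) : ℝ) * I)) t := by
    intro t ht
    have h1 : HasDerivAt (fun t : ℝ => ((s t : ℝ) : ℂ) * I) ((-(y₀ / (1 + t) ^ 2) : ℝ) * I) t :=
      ((hsd t ht).ofReal_comp).mul_const I
    exact HasDerivAt.comp (h := fun t : ℝ => ((s t : ℝ) : ℂ) * I) t (hVd _ (hsn t ht)) h1
  set γ : ℝ → ℂ := fun t => 1 / v t ^ 2 with hγ
  have hγd : ∀ t : ℝ, 0 ≤ t → HasDerivAt γ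
      (((2 * (y₀ / (1 + t) ^ 2) : ℝ) : ℂ) * (I * (PPd ε (v t))⁻¹ / v t ^ 3)) t := by
    intro t ht
    have hne := hvne t ht
    have h1 := ((hvd t ht).fun_pow 2)
    have h2 := (hasDerivAt_const t (1 : ℂ)).fun_div h1 (pow_ne_zero 2 hne)
    refine h2.congr_deriv ?_
    have hP := PPd_ne hε hε1 (hvP t ht).1
    push_cast
    field_simp
    ring
  have hderiv : ∀ t : ℝ, 0 ≤ t → deriv γ t / γ t =
      ((2 * (y₀ / (1 + t) ^ 2) : ℝ) : ℂ) * (I * (v t * PPd ε (v t))⁻¹) := by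
    intro t ht
    have hne := hvne t ht
    have hP := PPd_ne hε hε1 (hvP t ht).1
    rw [(hγd t ht).deriv, hγ]
    push_cast
    field_simp
  have hcpos : ∀ t : ℝ, 0 ≤ t → 0 < 2 * (y₀ / (1 + t) ^ 2) := fun t ht => by positivity
  have harg : ∀ t : ℝ, 0 ≤ t → Complex.arg (deriv γ t / γ t) =
      Complex.arg (I * (v t * PPd ε (v t))⁻¹) := by
    intro t ht
    rw [hderiv t ht, Complex.arg_real_mul _ (hcpos t ht)]
  have him : ∀ z : ℂ, (I * z⁻¹).im = z.re / normSq z := by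
    intro z
    rw [Complex.mul_im, Complex.I_re, Complex.I_im, Complex.inv_re]
    ring
  refine ⟨γ, ?_, ?_, ?_, ?_, ?_, ?_⟩
  · intro t ht
    exact (hγd t ht).continuousAt.continuousWithinAt
  · intro t ht t' ht' h
    rw [mem_Ici] at ht ht'
    simp only [hγ] at h
    have hne := hvne t ht
    have hne' := hvne t' ht'
    have h1 : v t ^ 2 = v t' ^ 2 := by
      field_simp at h
      exact h.symm
    have hst : s t = s t' := by
      rcases sq_eq_sq_iff_eq_or_eq_neg.mp h1 with h2 | h2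
      · have h3 := (hvP t ht).2
        rw [h2, (hvP t' ht').2] at h3
        have h4 := mul_right_cancel₀ I_ne_zero h3
        exact_mod_cast h4.symm
      · exfalso
        have h3 := (hvP t ht).2
        rw [h2, PP_neg, (hvP t' ht').2, ← neg_mul] at h3
        have h4 := mul_right_cancel₀ I_ne_zero h3
        have h5 : -s t' = s t := by exact_mod_cast h4
        have := hspos t ht
        have := hspos t' ht'
        linarith
    simp only [hs] at hst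
    have e1 : (1 + t) ≠ 0 := by positivity
    have e2 : (1 + t') ≠ 0 := by positivity
    rw [div_eq_div_iff e1 e2] at hst
    have := mul_left_cancel₀ hy0'.ne' hst
    linarith
  · rw [hf]
    ext w
    constructor
    · rintro ⟨t, ht, rfl⟩
      rw [mem_Ici] at ht
      refine ⟨v t, (hvP t ht).1, hvne t ht, ⟨s t, ?_, (hvP t ht).2⟩, rfl⟩
      rw [abs_of_pos (hspos t ht)]
      exact hsle t ht
    · rintro ⟨u, hu, hu0, ⟨y, hy, huy⟩, rfl⟩
      have hyne : y ≠ 0 := by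
        rintro rfl
        apply hu0
        apply PP_inj hε hε1 (hu.trans (by norm_num)) (by simp)
        rw [huy, PP_zero]; simp
      -- treat the two signs
      have key : ∀ (u : ℂ) (y : ℝ), ‖u‖ ≤ 3 → 0 < y → y ≤ y₀ → PP ε u = y * I →
          1 / u ^ 2 ∈ γ '' Ici 0 := by
        intro u y hu hy hyy huy
        refine ⟨y₀ / y - 1, ?_, ?_⟩
        · rw [mem_Ici, sub_nonneg, le_div_iff₀ hy]; linarith
        · have hs' : s (y₀ / y - 1) = y := by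
            simp only [hs]
            rw [add_sub_cancel, div_div_cancel₀ hy0'.ne']
          have : v (y₀ / y - 1) = u := by
            simp only [hv]
            rw [hs']
            refine hVu _ _ hu ?_ huy
            rw [norm_mul, norm_I, mul_one, norm_real, Real.norm_of_nonneg hy.le]
            linarith
          simp only [hγ]
          rw [this]
      rcases lt_or_gt_of_ne hyne with hneg | hpos
      · have := key (-u) (-y) (by rwa [norm_neg]) (by linarith)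
          (by rw [abs_of_neg hneg] at hy; exact hy)
          (by rw [PP_neg, huy]; push_cast; ring)
        rwa [neg_sq] at this
      · exact key u y hu hpos (by rw [abs_of_pos hpos] at hy; exact hy) huy
  · intro t ht
    have h1 := hγd t ht.le
    refine ⟨h1.differentiableAt, ?_⟩
    rw [h1.deriv]
    have hne := hvne t ht.le
    have hP := PPd_ne hε hε1 (hvP t ht.le).1
    refine mul_ne_zero ?_ (div_ne_zero (mul_ne_zero I_ne_zero (inv_ne_zero hP)) (pow_ne_zero 3 hne))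
    exact_mod_cast (hcpos t ht.le).ne'
  · have hbound : ∀ t : ℝ, 0 ≤ t → (1 + t) / (4 * y₀ ^ 2) ≤ ‖γ t‖ := by
      intro t ht
      simp only [hγ]
      rw [norm_div, norm_one, norm_pow]
      have h1 : ‖v t‖ ≤ 2 * s t := by
        have := hVn _ (hsn t ht)
        rwa [norm_mul, norm_I, mul_one, norm_real, Real.norm_of_nonneg (hspos t ht).le] at this
      have hvp : 0 < ‖v t‖ := norm_pos_iff.mpr (hvne t ht)
      rw [div_le_div_iff₀ (by positivity) (by positivity)]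
      have h2 : ‖v t‖ ^ 2 ≤ (2 * s t) ^ 2 := pow_le_pow_left₀ hvp.le h1 2
      have h3 : (1 + t) * (2 * s t) ^ 2 ≤ 1 * (4 * y₀ ^ 2) := by
        simp only [hs]
        have e : (1 + t) * (2 * (y₀ / (1 + t))) ^ 2 = (4 * y₀ ^ 2) / (1 + t) := by
          field_simp; ring
        rw [e, one_mul]
        exact div_le_self (by positivity) (by linarith)
      calc (1 + t) * ‖v t‖ ^ 2 ≤ (1 + t) * (2 * s t) ^ 2 := by gcongr
        _ ≤ 1 * (4 * y₀ ^ 2) := h3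
    have hlin : Tendsto (fun t : ℝ => (1 + t) / (4 * y₀ ^ 2)) atTop atTop := by
      refine Tendsto.atTop_div_const (by positivity) ?_
      exact tendsto_atTop_add_const_left _ _ tendsto_id
    refine tendsto_atTop_mono' _ ?_ hlin
    filter_upwards [eventually_ge_atTop 0] with t ht
    exact hbound t ht
  · rintro ⟨hmono, hlim⟩
    set t₁ : ℝ := y₀ * (4 / 7) - 1 with ht₁
    set t₂ : ℝ := y₀ - 1 with ht₂
    have h1 : 0 < t₁ := by rw [ht₁]; linarith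
    have h12 : t₁ < t₂ := by rw [ht₁, ht₂]; linarith
    have h2 : 0 < t₂ := h1.trans h12
    have hs1 : s t₁ = 7 / 4 := by
      simp only [hs, ht₁]
      field_simp
      ring_nf
    have hs2 : s t₂ = 1 := by
      simp only [hs, ht₂]
      rw [add_sub_cancel, div_self hy0'.ne']
    have hneg : Complex.arg (deriv γ t₁ / γ t₁) < 0 := by
      rw [harg t₁ h1.le, Complex.arg_neg_iff, him]
      have hp := hvP t₁ h1.le
      rw [hs1] at hp
      have hr := re_neg_two hε hε1 hp.1 hp.2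
      refine div_neg_of_neg_of_pos hr ?_
      rw [Complex.normSq_pos]
      exact mul_ne_zero (hvne t₁ h1.le) (PPd_ne hε hε1 hp.1)
    have hpos : 0 < Complex.arg (deriv γ t₂ / γ t₂) := by
      rw [harg t₂ h2.le]
      have hp := hvP t₂ h2.le
      rw [hs2] at hp
      have hr := re_pos_one hε hε1 hp.1 hp.2
      have hi : 0 < (I * (v t₂ * PPd ε (v t₂))⁻¹).im := by
        rw [him]
        refine div_pos hr ?_
        rw [Complex.normSq_pos]
        exact mul_ne_zero (hvne t₂ h2.le) (PPd_ne hε hε1 hp.1)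
      refine lt_of_le_of_ne (Complex.arg_nonneg_iff.mpr hi.le) ?_
      intro h0
      have := (Complex.arg_eq_zero_iff.mp h0.symm).2
      linarith
    rcases hmono with hm | hm
    · have hge : ∀ᶠ t in atTop, Complex.arg (deriv γ t₂ / γ t₂) ≤ Complex.arg (deriv γ t / γ t) := by
        filter_upwards [eventually_ge_atTop t₂] with t ht
        exact hm (mem_Ioi.mpr h2) (mem_Ioi.mpr (h2.trans_le ht)) ht
      have := ge_of_tendsto hlim hge
      linarith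
    · have := hm (mem_Ioi.mpr h1) (mem_Ioi.mpr h2) h12.le
      simp only at this
      linarith

end Pool.Agent.Lib.MP_74c692_an
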