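import Pool.Agent.Lib.MP_74c692_an.AreaThm

open MeasureTheory Filter Topology Complex Set
open scoped Interval ComplexConjugate

namespace Pool.Agent.Lib.MP_74c692_an

variable {B : ℂ → ℂ}

lemma PoleMap.large_near_zero (h : PoleMap B) (R : ℝ) :
    ∃ δ > 0, δ < 1 ∧ ∀ z : ℂ, z ≠ 0 → ‖z‖ ≤ δ → R < ‖B z / z‖ := by
  have h0 : (0 : ℂ) ∈ Metric.ball (0 : ℂ) 1 := Metric.mem_ball_self one_pos
  have hB0 : 0 < ‖B 0‖ := norm_pos_iff.mpr (h.ne 0 h0)
  have hc : ContinuousAt B 0 :=
    (h.diff.differentiableAt (Metric.isOpen_ball.mem_nhds h0)).continuousAt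
  have h1 : ∀ᶠ z in 𝓝 (0 : ℂ), ‖B 0‖ / 2 < ‖B z‖ :=
    hc.norm.eventually_const_lt (by linarith)
  obtain ⟨δ, hδ, hball⟩ := Metric.eventually_nhds_iff_ball.mp h1
  have hR : 0 < |R| + 1 := by positivity
  refine ⟨min (δ / 2) (min (1 / 2) (‖B 0‖ / 2 / (|R| + 1))), by positivity, ?_, ?_⟩
  · exact (min_le_right _ _).trans_lt ((min_le_left _ _).trans_lt (by norm_num))
  · intro z hz0 hz
    have hzpos : 0 < ‖z‖ := norm_pos_iff.mpr hz0
    have hz1 : ‖z‖ < δ := (hz.trans (min_le_left _ _)).trans_lt (by linarith)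
    have hz2 : ‖z‖ ≤ ‖B 0‖ / 2 / (|R| + 1) :=
      (hz.trans (min_le_right _ _)).trans (min_le_right _ _)
    have hz3 := hball z (by simpa using hz1)
    rw [norm_div, lt_div_iff₀ hzpos]
    have h4 : (|R| + 1) * ‖z‖ ≤ ‖B 0‖ / 2 := by
      rw [le_div_iff₀ hR] at hz2; linarith
    have h5 : R * ‖z‖ ≤ (|R| + 1) * ‖z‖ := by
      apply mul_le_mul_of_nonneg_right _ hzpos.le
      linarith [le_abs_self R]
    linarith

lemma exp_inj_strip {ζ₁ ζ₂ : ℂ} (h1 : ζ₁.im ∈ Ioo 0 (2 * Real.pi)) (h2 : ζ₂.im ∈ Ioo 0 (2 * Real.pi))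
    (h : exp ζ₁ = exp ζ₂) : ζ₁ = ζ₂ := by
  rw [Complex.exp_eq_exp_iff_exists_int] at h
  obtain ⟨n, hn⟩ := h
  have him : ζ₁.im = ζ₂.im + n * (2 * Real.pi) := by
    have := congrArg Complex.im hn
    simpa using this
  have hpi := Real.pi_pos
  have hn0 : n = 0 := by
    have h3 : (n : ℝ) * (2 * Real.pi) < 1 * (2 * Real.pi) := by linarith [h1.2, h2.1]
    have h4 : (-1 : ℝ) * (2 * Real.pi) < n * (2 * Real.pi) := by linarith [h1.1, h2.2]
    have h5 : (n : ℝ) < 1 := lt_of_mul_lt_mul_right h3 (by positivity)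
    have h6 : (-1 : ℝ) < n := lt_of_mul_lt_mul_right h4 (by positivity)
    have h7 : n < 1 := by exact_mod_cast h5
    have h8 : -1 < n := by exact_mod_cast h6
    omega
  rw [hn, hn0]; simp

/-- **Area theorem**, integral form. -/
theorem PoleMap.area_integral (h : PoleMap B) (Q : Polynomial ℂ) {ρ : ℝ} (hρ : ρ < 0) :
    (∫ y in (0 : ℝ)..2 * Real.pi, conj (Q.eval (UU B (ρ + y * I))) *
      (Q.derivative.eval (UU B (ρ + y * I)) * UU' B (ρ + y * I))).re ≤ 0 := by
  have hpi := Real.pi_pos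
  set r := Real.exp ρ with hr
  have hr0 : 0 < r := Real.exp_pos ρ
  have hr1 : r < 1 := Real.exp_lt_one_iff.mpr hρ
  -- a bound on the circle
  obtain ⟨M, hM, hMr⟩ : ∃ M > 0, ∀ z : ℂ, ‖z‖ = r → ‖B z / z‖ ≤ M := by
    have hcomp : IsCompact (Metric.sphere (0 : ℂ) r) := isCompact_sphere _ _
    have hcont : ContinuousOn (fun z => B z / z) (Metric.sphere (0 : ℂ) r) := by
      have hsub : Metric.sphere (0 : ℂ) r ⊆ Metric.ball 0 1 := by
        intro z hz
        rw [mem_sphere_zero_iff_norm] at hz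
        rw [mem_ball_zero_iff, hz]; exact hr1
      refine (h.diff.continuousOn.mono hsub).div continuousOn_id fun z hz => ?_
      rw [mem_sphere_zero_iff_norm] at hz
      exact norm_pos_iff.mp (by rw [hz]; exact hr0)
    obtain ⟨C, hC⟩ := hcomp.exists_bound_of_continuousOn hcont
    refine ⟨max C 1, by positivity, fun z hz => (hC z (by simpa using hz)).trans (le_max_left _ _)⟩
  -- the cut-off
  let φ : ContDiffBump (0 : ℂ) := ⟨2 * M + 1, 2 * M + 2, by positivity, by linarith⟩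
  have hφin : φ.rIn = 2 * M + 1 := rfl
  have hφout : φ.rOut = 2 * M + 2 := rfl
  obtain ⟨δ, hδ, hδ1, hlarge⟩ := h.large_near_zero (2 * M + 2)
  -- the left edge
  obtain ⟨a, haρ, haδ⟩ : ∃ a < ρ, Real.exp a ≤ δ := by
    refine ⟨min (ρ - 1) (Real.log δ), (min_le_left _ _).trans_lt (by linarith), ?_⟩
    calc Real.exp (min (ρ - 1) (Real.log δ)) ≤ Real.exp (Real.log δ) :=
          Real.exp_le_exp.mpr (min_le_right _ _)
      _ = δ := Real.exp_log hδ
  have ha0 : a < 0 := haρ.trans hρ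
  set Ψ := Psi φ Q with hΨ
  have hΨc := Psi_contDiff φ Q
  have hΨs := Psi_compact φ Q
  -- the function in the logarithmic coordinate
  set F : ℂ → ℂ := fun ζ => Ψ (UU B ζ) * UU' B ζ with hF
  have hFd : ∀ ζ : ℂ, ζ.re < 0 → DifferentiableAt ℝ F ζ ∧
      DB F ζ = (normSq (UU' B ζ) : ℂ) * DB Ψ (UU B ζ) := fun ζ hζ =>
    DB_comp (hΨc.differentiable one_ne_zero _) (h.hasDerivAt_UU hζ)
      (h.differentiableAt_UU' hζ).hasDerivAt
  set R : Set ℂ := Icc a ρ ×ℂ Icc 0 (2 * Real.pi) with hR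
  have hRcomp : IsCompact R := isCompact_Icc.reProdIm isCompact_Icc
  have hRneg : ∀ ζ ∈ R, ζ.re < 0 := fun ζ hζ => hζ.1.2.trans_lt hρ
  have hDBΨcont : Continuous (DB Ψ) := by
    have hcont : ∀ v : ℂ, Continuous fun z => fderiv ℝ Ψ z v := fun v =>
      (hΨc.continuous_fderiv one_ne_zero).clm_apply continuous_const
    exact (continuous_const.mul (hcont 1)).sub (hcont I)
  have hint : IntegrableOn (DB F) R := by
    refine ContinuousOn.integrableOn_compact hRcomp ?_
    have h1 : ContinuousOn (fun ζ => (normSq (UU' B ζ) : ℂ) * DB Ψ (UU B ζ)) R := by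
      intro ζ hζ
      have hU := (h.hasDerivAt_UU (hRneg ζ hζ)).continuousAt
      have hU' := (h.differentiableAt_UU' (hRneg ζ hζ)).continuousAt
      refine ContinuousAt.continuousWithinAt ?_
      refine ContinuousAt.mul ?_ (hDBΨcont.continuousAt.comp hU)
      exact Complex.continuous_ofReal.continuousAt.comp
        (Complex.continuous_normSq.continuousAt.comp hU')
    refine h1.congr fun ζ hζ => (hFd ζ (hRneg ζ hζ)).2
  have huIcc : [[((a : ℂ) + (0 : ℝ) * I).re, ((ρ : ℂ) + (2 * Real.pi : ℝ) * I).re]] ×ℂ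
      [[((a : ℂ) + (0 : ℝ) * I).im, ((ρ : ℂ) + (2 * Real.pi : ℝ) * I).im]] = R := by
    simp only [Complex.add_re, Complex.ofReal_re, Complex.mul_re, Complex.I_re, mul_zero,
      Complex.ofReal_im, Complex.I_im, mul_one, sub_self, add_zero, Complex.add_im,
      Complex.mul_im, zero_add]
    rw [uIcc_of_le haρ.le, uIcc_of_le (by positivity)]
  have hrect := Complex.integral_boundary_rect_of_differentiableOn_real F
    ((a : ℂ) + (0 : ℝ) * I) ((ρ : ℂ) + (2 * Real.pi : ℝ) * I)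
    (by rw [huIcc]; exact fun ζ hζ => (hFd ζ (hRneg ζ hζ)).1.differentiableWithinAt)
    (by rw [huIcc]; exact hint)
  simp only [Complex.add_re, Complex.ofReal_re, Complex.mul_re, Complex.I_re, mul_zero,
      Complex.ofReal_im, Complex.I_im, mul_one, sub_self, add_zero, Complex.add_im,
      Complex.mul_im, zero_add, smul_eq_mul] at hrect
  have hDB : ∀ ζ : ℂ, I * fderiv ℝ F ζ 1 - fderiv ℝ F ζ I = DB F ζ := fun ζ => rfl
  simp only [hDB] at hrect
  rw [integral_rect haρ.le (by positivity) hint] at hrect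
  -- periodicity
  have hper : ∀ x : ℝ, F (x + (2 * Real.pi : ℝ) * I) = F (x + (0 : ℝ) * I) := by
    intro x
    have e : (x : ℂ) + (2 * Real.pi : ℝ) * I = (x + (0 : ℝ) * I) + 2 * Real.pi * I := by
      push_cast; ring
    rw [e, hF]
    simp only [UU_periodic, UU'_periodic]
  simp only [hper, sub_self, zero_add] at hrect
  -- the left edge
  have hleft : ∀ y : ℝ, F (a + y * I) = 0 := by
    intro y
    have h1 : ‖exp ((a : ℂ) + y * I)‖ = Real.exp a := by
      rw [Complex.norm_exp]; simp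
    have h2 : 2 * M + 2 < ‖UU B (a + y * I)‖ :=
      hlarge _ (Complex.exp_ne_zero _) (by rw [h1]; exact haδ)
    show Psi φ Q (UU B (a + y * I)) * _ = 0
    unfold Psi
    rw [φ.zero_of_le_dist (by rw [hφout]; simpa using h2.le)]
    simp
  simp only [hleft, intervalIntegral.integral_zero, mul_zero, sub_zero] at hrect
  -- the right edge
  have hright : ∀ y : ℝ, F (ρ + y * I) = conj (Q.eval (UU B (ρ + y * I))) *
      (Q.derivative.eval (UU B (ρ + y * I)) * UU' B (ρ + y * I)) := by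
    intro y
    have h1 : ‖exp ((ρ : ℂ) + y * I)‖ = r := by
      rw [Complex.norm_exp]; simp [hr]
    have h2 : ‖UU B (ρ + y * I)‖ ≤ M := hMr _ h1
    show Psi φ Q (UU B (ρ + y * I)) * _ = _
    unfold Psi
    rw [φ.one_of_mem_closedBall (by
      rw [hφin, mem_closedBall_zero_iff]; linarith)]
    push_cast; ring
  simp only [hright] at hrect
  -- change of variables
  set S : Set ℂ := Ioo a ρ ×ℂ Ioo 0 (2 * Real.pi) with hS
  have hSopen : IsOpen S := isOpen_Ioo.reProdIm isOpen_Ioo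
  have hSneg : ∀ ζ ∈ S, ζ.re < 0 := fun ζ hζ => hζ.1.2.trans hρ
  have hinj : InjOn (UU B) S := by
    intro ζ₁ h1 ζ₂ h2 h12
    have h3 := h.inj ⟨exp_mem_ball (hSneg ζ₁ h1), Complex.exp_ne_zero _⟩
      ⟨exp_mem_ball (hSneg ζ₂ h2), Complex.exp_ne_zero _⟩ h12
    exact exp_inj_strip h1.2 h2.2 h3
  have hchange : ∫ ζ in S, DB F ζ = ∫ v in UU B '' S, DB Ψ v := by
    rw [integral_image_holo hSopen.measurableSet
      (fun ζ hζ => h.hasDerivAt_UU (hSneg ζ hζ)) hinj]
    exact setIntegral_congr_fun hSopen.measurableSet fun ζ hζ => (hFd ζ (hSneg ζ hζ)).2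
  rw [hchange] at hrect
  have hSmeas : MeasurableSet (UU B '' S) := by
    refine hSopen.measurableSet.image_of_continuousOn_injOn ?_ hinj
    exact fun ζ hζ => (h.hasDerivAt_UU (hSneg ζ hζ)).continuousAt.continuousWithinAt
  have hDBint : Integrable (DB Ψ) := by
    have hcs : HasCompactSupport (DB Ψ) := by
      have h1 : ∀ v : ℂ, HasCompactSupport fun z => fderiv ℝ Ψ z v := fun v =>
        (hΨs.fderiv ℝ).comp_left (g := fun L : ℂ →L[ℝ] ℂ => L v) rfl
      exact ((h1 1).mul_left (f := fun _ => I)).sub (h1 I)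
    exact hDBΨcont.integrable_of_hasCompactSupport hcs
  have htotal := integral_DB_eq_zero hΨc hΨs
  rw [← integral_add_compl hSmeas hDBint] at htotal
  have hW : (∫ y in (0 : ℝ)..2 * Real.pi, conj (Q.eval (UU B (ρ + y * I))) *
      (Q.derivative.eval (UU B (ρ + y * I)) * UU' B (ρ + y * I))) =
      -∫ v in (UU B '' S)ᶜ, (-I) * DB Ψ v := by
    rw [integral_const_mul]
    have h1 : ∫ v in (UU B '' S)ᶜ, DB Ψ v = -∫ v in UU B '' S, DB Ψ v :=
      eq_neg_of_add_eq_zero_right htotal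
    rw [h1, ← hrect]
    linear_combination (∫ y in (0 : ℝ)..2 * Real.pi, conj (Q.eval (UU B (ρ + y * I))) *
      (Q.derivative.eval (UU B (ρ + y * I)) * UU' B (ρ + y * I))) * Complex.I_mul_I
  rw [hW, Complex.neg_re, neg_nonpos]
  have hre : (∫ v in (UU B '' S)ᶜ, (-I) * DB Ψ v).re =
      ∫ v in (UU B '' S)ᶜ, ((-I) * DB Ψ v).re :=
    (integral_re (hDBint.const_mul (-I)).integrableOn).symm
  rw [hre]
  refine setIntegral_nonneg_of_ae_restrict ?_
  -- null sets
  have hnull2 : volume (Metric.sphere (0 : ℂ) (2 * M + 2)) = 0 :=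
    Measure.addHaar_sphere volume 0 _
  have hnull3 : volume (UU B '' {ζ : ℂ | ζ.re < 0 ∧ ζ.im = 0}) = 0 := by
    refine addHaar_image_eq_zero_of_differentiableOn_of_addHaar_eq_zero volume ?_ ?_
    · intro ζ hζ
      exact ((h.hasDerivAt_UU hζ.1).differentiableAt.restrictScalars ℝ).differentiableWithinAt
    · have hsub : {ζ : ℂ | ζ.re < 0 ∧ ζ.im = 0} ⊆ (LinearMap.ker Complex.imLm : Set ℂ) :=
        fun ζ hζ => by simpa using hζ.2
      refine measure_mono_null hsub ?_
      refine Measure.addHaar_submodule volume _ fun htop => ?_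
      have : I ∈ LinearMap.ker Complex.imLm := by rw [htop]; trivial
      simp at this
  have ha2 : ∀ᵐ v : ℂ, v ∉ Metric.sphere (0 : ℂ) (2 * M + 2) := measure_eq_zero_iff_ae_notMem.mp hnull2
  have ha3 : ∀ᵐ v : ℂ, v ∉ UU B '' {ζ : ℂ | ζ.re < 0 ∧ ζ.im = 0} :=
    measure_eq_zero_iff_ae_notMem.mp hnull3
  filter_upwards [ae_restrict_of_ae ha2, ae_restrict_of_ae ha3, ae_restrict_mem hSmeas.compl]
    with v hv2 hv3 hvS
  have key : DB Ψ v = 0 ∨ ‖v‖ < φ.rIn := by
    rw [hφin]
    by_contra hcon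
    push Not at hcon
    obtain ⟨hne, hlow⟩ := hcon
    have hup : ‖v‖ < 2 * M + 2 := by
      by_contra hge
      rw [not_lt] at hge
      have hgt : 2 * M + 2 < ‖v‖ := lt_of_le_of_ne hge fun he => hv2 (by simpa using he.symm)
      exact hne (DB_Psi_out Q (by rw [hφout]; exact hgt))
    obtain ⟨z, hzr, hz0, hzv⟩ := h.exists_preimage hr0 hr1 hM hMr (v := v) (by linarith)
    have hzpos : 0 < ‖z‖ := norm_pos_iff.mpr hz0
    -- a logarithm with argument in `[0, 2π)`
    obtain ⟨ζ, hζz, hζ0, hζ1⟩ : ∃ ζ : ℂ, exp ζ = z ∧ 0 ≤ ζ.im ∧ ζ.im < 2 * Real.pi := by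
      by_cases him : 0 ≤ (Complex.log z).im
      · exact ⟨Complex.log z, Complex.exp_log hz0, him,
          (Complex.log_im_le_pi z).trans_lt (by linarith)⟩
      · refine ⟨Complex.log z + 2 * Real.pi * I, ?_, ?_, ?_⟩
        · rw [Complex.exp_periodic]; exact Complex.exp_log hz0
        · have h8 := Complex.neg_pi_lt_log_im z
          have h9 : (Complex.log z + 2 * Real.pi * I).im = (Complex.log z).im + 2 * Real.pi := by
            simp
          rw [h9]; linarith
        · have h9 : (Complex.log z + 2 * Real.pi * I).im = (Complex.log z).im + 2 * Real.pi := by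
            simp
          rw [h9]; linarith [not_le.mp him]
    have hre : ζ.re = Real.log ‖z‖ := by
      rw [← hζz, Complex.norm_exp, Real.log_exp]
    have hreρ : ζ.re < ρ := by
      rw [hre, ← Real.log_exp ρ]
      exact Real.log_lt_log hzpos hzr
    have hUv : UU B ζ = v := by unfold UU; rw [hζz]; exact hzv
    have him0 : 0 < ζ.im := by
      refine lt_of_le_of_ne hζ0 fun he => hv3 ⟨ζ, ⟨hreρ.trans hρ, he.symm⟩, hUv⟩
    have hrea : ζ.re ≤ a := by
      by_contra hgt
      rw [not_le] at hgt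
      exact hvS ⟨ζ, ⟨⟨hgt, hreρ⟩, ⟨him0, hζ1⟩⟩, hUv⟩
    have hzδ : ‖z‖ ≤ δ := by
      rw [← hζz, Complex.norm_exp]
      exact (Real.exp_le_exp.mpr hrea).trans haδ
    have := hlarge z hz0 hzδ
    rw [hzv] at this
    linarith
  rcases key with h0 | hin
  · simp only [h0, mul_zero, Complex.zero_re]; exact le_refl _
  · rw [hΨ, DB_Psi_in Q hin]
    have : (-I) * (2 * I * (normSq (Q.derivative.eval v) : ℂ)) =
        ((2 * normSq (Q.derivative.eval v) : ℝ) : ℂ) := by
      push_cast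
      linear_combination (-2 * (normSq (Q.derivative.eval v) : ℂ)) * Complex.I_mul_I
    rw [this, Complex.ofReal_re]
    have := Complex.normSq_nonneg (Q.derivative.eval v)
    simp only [Pi.zero_apply]
    positivity

end Pool.Agent.Lib.MP_74c692_an
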