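import Pool.Agent.Lib.MP_74c692_an.AreaInt

open MeasureTheory Filter Topology Complex Set
open scoped Interval ComplexConjugate

namespace Pool.Agent.Lib.MP_74c692_an

/-! ### Orthogonality -/

lemma integral_exp_int (n : ℤ) :
    ∫ y in (0 : ℝ)..2 * Real.pi, exp (n * (y * I)) = if n = 0 then 2 * (Real.pi : ℂ) else 0 := by
  split_ifs with h
  · simp [h]
  · have hc : (n : ℂ) * I ≠ 0 := mul_ne_zero (by exact_mod_cast h) Complex.I_ne_zero
    have h1 : ∀ y : ℝ, exp ((n : ℂ) * (y * I)) = exp (n * I * y) := fun y => by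
      congr 1; ring
    simp_rw [h1]
    rw [integral_exp_mul_complex hc]
    have h2 : exp ((n : ℂ) * I * ((2 * Real.pi : ℝ) : ℂ)) = 1 := by
      rw [Complex.exp_eq_one_iff]
      exact ⟨n, by push_cast; ring⟩
    rw [h2]; simp

/-- Parseval for absolutely convergent trigonometric series. -/
lemma parseval {a b : ℕ → ℂ} {k : ℕ → ℤ} (hk : Function.Injective k)
    (ha : Summable fun j => ‖a j‖) (hb : Summable fun j => ‖b j‖) {V W : ℝ → ℂ}
    (hV : ∀ y : ℝ, HasSum (fun j => a j * exp (k j * (y * I))) (V y))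
    (hW : ∀ y : ℝ, HasSum (fun j => b j * exp (k j * (y * I))) (W y)) :
    HasSum (fun j => 2 * (Real.pi : ℂ) * (conj (a j) * b j))
      (∫ y in (0 : ℝ)..2 * Real.pi, conj (V y) * W y) := by
  have hpi := Real.pi_pos
  have h2pi : (0 : ℝ) ≤ 2 * Real.pi := by positivity
  have hnexp : ∀ (n : ℤ) (y : ℝ), ‖exp ((n : ℂ) * (y * I))‖ = 1 := by
    intro n y
    have : (n : ℂ) * (y * I) = ((n * y : ℝ) : ℂ) * I := by push_cast; ring
    rw [this, Complex.norm_exp_ofReal_mul_I]
  have hcexp : ∀ n : ℤ, Continuous fun y : ℝ => exp ((n : ℂ) * (y * I)) := fun n => by fun_prop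
  have hconj : ∀ (n : ℤ) (y : ℝ), conj (exp ((n : ℂ) * (y * I))) = exp ((-n : ℤ) * (y * I)) := by
    intro n y
    rw [← Complex.exp_conj]
    congr 1
    simp
  -- Fourier coefficients of `W`
  have hcoef : ∀ j, ∫ y in (0 : ℝ)..2 * Real.pi, exp ((-k j : ℤ) * (y * I)) * W y =
      2 * (Real.pi : ℂ) * b j := by
    intro j
    rw [intervalIntegral.integral_of_le h2pi]
    have h1 : ∀ y : ℝ, exp ((-k j : ℤ) * (y * I)) * W y =
        ∑' l, b l * exp ((k l - k j : ℤ) * (y * I)) := by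
      intro y
      rw [← (hW y).tsum_eq, ← tsum_mul_left]
      refine tsum_congr fun l => ?_
      have : exp ((k l - k j : ℤ) * (y * I)) =
          exp ((-k j : ℤ) * (y * I)) * exp ((k l : ℂ) * (y * I)) := by
        rw [← Complex.exp_add]; congr 1; push_cast; ring
      rw [this]; ring
    simp_rw [h1]
    have h2 := hasSum_integral_of_summable_integral_norm
      (μ := volume.restrict (Ioc (0 : ℝ) (2 * Real.pi)))
      (F := fun l (y : ℝ) => b l * exp ((k l - k j : ℤ) * (y * I)))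
      (fun l => ((continuous_const.mul (hcexp _)).integrableOn_Icc).mono_set Ioc_subset_Icc_self)
      (by
        have : ∀ l, (∫ y in Ioc (0 : ℝ) (2 * Real.pi),
            ‖b l * exp ((k l - k j : ℤ) * (y * I))‖) = 2 * Real.pi * ‖b l‖ := by
          intro l
          simp_rw [norm_mul, hnexp, mul_one]
          rw [setIntegral_const]
          simp [h2pi]
        simp_rw [this]
        exact hb.mul_left _)
    rw [← h2.tsum_eq]
    have h3 : ∀ l, ∫ y in Ioc (0 : ℝ) (2 * Real.pi), b l * exp ((k l - k j : ℤ) * (y * I)) =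
        if l = j then 2 * (Real.pi : ℂ) * b j else 0 := by
      intro l
      rw [← intervalIntegral.integral_of_le h2pi, intervalIntegral.integral_const_mul,
        integral_exp_int]
      by_cases hl : l = j
      · subst hl; simp; ring
      · have : k l - k j ≠ 0 := sub_ne_zero.mpr fun h => hl (hk h)
        simp [this, hl]
    simp_rw [h3]
    rw [tsum_ite_eq]
  -- bound for `W`
  have hWb : ∀ y, ‖W y‖ ≤ ∑' j, ‖b j‖ := by
    intro y
    rw [← (hW y).tsum_eq]
    refine (norm_tsum_le_tsum_norm ?_).trans (le_of_eq ?_)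
    · simpa [norm_mul, hnexp] using hb
    · simp [norm_mul, hnexp]
  have hWc : Continuous W := by
    have : W = fun y : ℝ => ∑' j, b j * exp (k j * (y * I)) := by
      funext y; exact (hW y).tsum_eq.symm
    rw [this]
    refine continuous_tsum (fun j => continuous_const.mul (hcexp _)) hb fun j y => ?_
    rw [norm_mul, hnexp, mul_one]
  rw [intervalIntegral.integral_of_le h2pi]
  have h1 : ∀ y : ℝ, conj (V y) * W y =
      ∑' j, conj (a j) * (exp ((-k j : ℤ) * (y * I)) * W y) := by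
    intro y
    have h2 : HasSum (fun j => conj (a j * exp (k j * (y * I)))) (conj (V y)) :=
      (hV y).map (starRingEnd ℂ) Complex.continuous_conj
    rw [← h2.tsum_eq, ← tsum_mul_right]
    refine tsum_congr fun j => ?_
    rw [map_mul, hconj]; ring
  simp_rw [h1]
  have h2 := hasSum_integral_of_summable_integral_norm
    (μ := volume.restrict (Ioc (0 : ℝ) (2 * Real.pi)))
    (F := fun j (y : ℝ) => conj (a j) * (exp ((-k j : ℤ) * (y * I)) * W y))
    (fun j => ((continuous_const.mul ((hcexp _).mul hWc)).integrableOn_Icc).mono_set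
      Ioc_subset_Icc_self)
    (by
      refine Summable.of_nonneg_of_le (fun j => by positivity) (fun j => ?_)
        (ha.mul_left (2 * Real.pi * ∑' j, ‖b j‖))
      calc (∫ y in Ioc (0 : ℝ) (2 * Real.pi), ‖conj (a j) * (exp ((-k j : ℤ) * (y * I)) * W y)‖)
          ≤ ∫ y in Ioc (0 : ℝ) (2 * Real.pi), ‖a j‖ * ∑' j, ‖b j‖ := by
            refine setIntegral_mono_on ?_ ?_ measurableSet_Ioc fun y _ => ?_
            · exact ((continuous_const.mul ((hcexp _).mul hWc)).norm.integrableOn_Icc).mono_set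
                Ioc_subset_Icc_self
            · exact (continuous_const.integrableOn_Icc).mono_set Ioc_subset_Icc_self
            · rw [norm_mul, norm_mul, hnexp, one_mul, RCLike.norm_conj]
              exact mul_le_mul_of_nonneg_left (hWb y) (norm_nonneg _)
        _ = 2 * Real.pi * (∑' j, ‖b j‖) * ‖a j‖ := by
            rw [setIntegral_const]
            simp [h2pi]; ring)
  refine h2.congr_fun fun j => ?_
  rw [← intervalIntegral.integral_of_le h2pi, intervalIntegral.integral_const_mul, hcoef]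
  ring


/-! ### Taylor coefficients -/

/-- Taylor coefficients at the origin -/
noncomputable def tc (W : ℂ → ℂ) (n : ℕ) : ℂ := (n.factorial : ℂ)⁻¹ * iteratedDeriv n W 0

lemma tc_hasSum {W : ℂ → ℂ} (hW : DifferentiableOn ℂ W (Metric.ball 0 1)) {s : ℂ} (hs : ‖s‖ < 1) :
    HasSum (fun n => tc W n * s ^ n) (W s) := by
  have h := Complex.hasSum_taylorSeries_on_ball hW (z := s) (by simpa using hs)
  refine h.congr_fun fun n => ?_
  unfold tc
  simp only [sub_zero, smul_eq_mul]; ring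

lemma tc_deriv (W : ℂ → ℂ) (n : ℕ) : tc (deriv W) n = (n + 1) * tc W (n + 1) := by
  unfold tc
  rw [← iteratedDeriv_succ', Nat.factorial_succ]
  have h1 : ((n.factorial : ℕ) : ℂ) ≠ 0 := by exact_mod_cast n.factorial_ne_zero
  have h2 : ((n : ℂ) + 1) ≠ 0 := by exact_mod_cast n.succ_ne_zero
  push_cast
  field_simp

lemma tc_hasSum_deriv {W : ℂ → ℂ} (hW : DifferentiableOn ℂ W (Metric.ball 0 1)) {s : ℂ}
    (hs : ‖s‖ < 1) : HasSum (fun n : ℕ => (n : ℂ) * tc W n * s ^ n) (s * deriv W s) := by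
  have h := (tc_hasSum (hW.deriv Metric.isOpen_ball) hs).mul_left s
  rw [← hasSum_nat_add_iff' 1]
  simp only [Finset.sum_range_one, Nat.cast_zero, zero_mul, sub_zero]
  refine h.congr_fun fun n => ?_
  rw [tc_deriv]
  push_cast; ring

/-- the exponents -/
def kk (j : ℕ) : ℤ := 2 * j - 5

lemma kk_injective : Function.Injective kk := by
  intro i j h
  unfold kk at h
  omega

/-- **Area theorem**, for one radius. -/
lemma PoleMap.area_radius {B : ℂ → ℂ} (h : PoleMap B) (Q : Polynomial ℂ) {W : ℂ → ℂ}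
    (hW : DifferentiableOn ℂ W (Metric.ball 0 1))
    (hQW : ∀ z : ℂ, ‖z‖ < 1 → z ≠ 0 → Q.eval (B z / z) = W (z ^ 2) / z ^ 5) {ρ : ℝ} (hρ : ρ < 0)
    {N : ℕ} (hN : 3 ≤ N) :
    ∑ j ∈ Finset.range N, (kk j : ℝ) * ‖tc W j‖ ^ 2 * Real.exp (2 * kk j * ρ) ≤ 0 := by
  have hpi := Real.pi_pos
  set V : ℝ → ℂ := fun y => Q.eval (UU B (ρ + y * I)) with hV
  set V' : ℝ → ℂ := fun y => Q.derivative.eval (UU B (ρ + y * I)) * UU' B (ρ + y * I) with hV'
  set a : ℕ → ℂ := fun j => tc W j * exp (kk j * ρ) with ha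
  set b : ℕ → ℂ := fun j => kk j * a j with hb
  have hre : ∀ y : ℝ, ((ρ : ℂ) + y * I).re = ρ := by intro y; simp
  have hs : ∀ ζ : ℂ, ζ.re < 0 → ‖exp ζ ^ 2‖ < 1 := by
    intro ζ hζ
    rw [norm_pow, Complex.norm_exp]
    have := Real.exp_lt_one_iff.mpr hζ
    have h0 := Real.exp_pos ζ.re
    nlinarith
  -- expansion of `Q (U ζ)`
  have hVser : ∀ ζ : ℂ, ζ.re < 0 →
      HasSum (fun j => tc W j * exp (kk j * ζ)) (Q.eval (UU B ζ)) := by
    intro ζ hζ
    have h1 := (tc_hasSum hW (hs ζ hζ)).mul_right ((exp ζ ^ 5)⁻¹)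
    have hexp : ‖exp ζ‖ < 1 := by
      rw [Complex.norm_exp]; exact Real.exp_lt_one_iff.mpr hζ
    have h2 : W (exp ζ ^ 2) * (exp ζ ^ 5)⁻¹ = Q.eval (UU B ζ) :=
      (hQW _ hexp (Complex.exp_ne_zero ζ)).symm
    rw [h2] at h1
    refine h1.congr_fun fun j => ?_
    have h3 : exp ((kk j : ℂ) * ζ) = (exp ζ ^ 2) ^ j * (exp ζ ^ 5)⁻¹ := by
      rw [← Complex.exp_nat_mul, ← Complex.exp_nat_mul, ← Complex.exp_nat_mul, ← Complex.exp_neg,
        ← Complex.exp_add]
      congr 1
      unfold kk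
      push_cast; ring
    rw [h3]; ring
  have hVser' : ∀ ζ : ℂ, ζ.re < 0 →
      HasSum (fun j => kk j * (tc W j * exp (kk j * ζ))) (Q.derivative.eval (UU B ζ) * UU' B ζ) := by
    intro ζ hζ
    -- the derivative computed in two ways
    have hexp : ‖exp ζ‖ < 1 := by
      rw [Complex.norm_exp]; exact Real.exp_lt_one_iff.mpr hζ
    have d1 : HasDerivAt (fun ζ => Q.eval (UU B ζ)) (Q.derivative.eval (UU B ζ) * UU' B ζ) ζ :=
      (Q.hasDerivAt _).comp ζ (h.hasDerivAt_UU hζ)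
    have hWd : HasDerivAt W (deriv W (exp ζ ^ 2)) (exp ζ ^ 2) :=
      (hW.differentiableAt (Metric.isOpen_ball.mem_nhds (by simpa using hs ζ hζ))).hasDerivAt
    have hex := Complex.hasDerivAt_exp ζ
    have d2 : HasDerivAt (fun ζ => W (exp ζ ^ 2) / exp ζ ^ 5)
        (2 * (exp ζ ^ 2 * deriv W (exp ζ ^ 2)) / exp ζ ^ 5 - 5 * (W (exp ζ ^ 2) / exp ζ ^ 5)) ζ := by
      have e1 := (hWd.comp ζ (hex.pow 2)).div (hex.pow 5) (pow_ne_zero 5 (Complex.exp_ne_zero ζ))
      refine e1.congr_deriv ?_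
      have := Complex.exp_ne_zero ζ
      simp only [Function.comp, Pi.pow_apply, Nat.cast_ofNat, show 2 - 1 = 1 from rfl,
        show 5 - 1 = 4 from rfl, pow_one]
      field_simp
    have heq : (fun ζ => Q.eval (UU B ζ)) =ᶠ[𝓝 ζ] fun ζ => W (exp ζ ^ 2) / exp ζ ^ 5 := by
      have : ∀ᶠ ζ' : ℂ in 𝓝 ζ, ζ'.re < 0 :=
        Complex.continuous_re.continuousAt.eventually_lt_const hζ
      filter_upwards [this] with ζ' hζ'
      exact hQW _ (by rw [Complex.norm_exp]; exact Real.exp_lt_one_iff.mpr hζ')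
        (Complex.exp_ne_zero ζ')
    rw [d1.unique (d2.congr_of_eventuallyEq heq)]
    have h1 := ((tc_hasSum_deriv hW (hs ζ hζ)).mul_right (2 * (exp ζ ^ 5)⁻¹)).sub
      ((tc_hasSum hW (hs ζ hζ)).mul_right (5 * (exp ζ ^ 5)⁻¹))
    have h2 : exp ζ ^ 2 * deriv W (exp ζ ^ 2) * (2 * (exp ζ ^ 5)⁻¹) -
        W (exp ζ ^ 2) * (5 * (exp ζ ^ 5)⁻¹) =
        2 * (exp ζ ^ 2 * deriv W (exp ζ ^ 2)) / exp ζ ^ 5 - 5 * (W (exp ζ ^ 2) / exp ζ ^ 5) := by
      ring
    rw [h2] at h1
    refine h1.congr_fun fun j => ?_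
    have h3 : exp ((kk j : ℂ) * ζ) = (exp ζ ^ 2) ^ j * (exp ζ ^ 5)⁻¹ := by
      rw [← Complex.exp_nat_mul, ← Complex.exp_nat_mul, ← Complex.exp_nat_mul, ← Complex.exp_neg,
        ← Complex.exp_add]
      congr 1
      unfold kk
      push_cast; ring
    rw [h3]
    unfold kk
    push_cast; ring
  have hsplit : ∀ (j : ℕ) (y : ℝ), exp ((kk j : ℂ) * (ρ + y * I)) =
      exp (kk j * ρ) * exp (kk j * (y * I)) := by
    intro j y
    rw [← Complex.exp_add]; congr 1; ring
  have hVy : ∀ y : ℝ, HasSum (fun j => a j * exp (kk j * (y * I))) (V y) := by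
    intro y
    refine (hVser (ρ + y * I) (by rw [hre]; exact hρ)).congr_fun fun j => ?_
    rw [hsplit, ha]; ring
  have hVy' : ∀ y : ℝ, HasSum (fun j => b j * exp (kk j * (y * I))) (V' y) := by
    intro y
    refine (hVser' (ρ + y * I) (by rw [hre]; exact hρ)).congr_fun fun j => ?_
    rw [hsplit, hb, ha]; ring
  have hsa : Summable fun j => ‖a j‖ := by
    have := (hVy 0).summable.norm
    simpa using this
  have hsb : Summable fun j => ‖b j‖ := by
    have := (hVy' 0).summable.norm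
    simpa using this
  have hP := parseval kk_injective hsa hsb hVy hVy'
  have harea := h.area_integral Q hρ
  have hPre := Complex.hasSum_re hP
  have hterm : ∀ j, (2 * (Real.pi : ℂ) * (conj (a j) * b j)).re =
      2 * Real.pi * ((kk j : ℝ) * ‖tc W j‖ ^ 2 * Real.exp (2 * kk j * ρ)) := by
    intro j
    have e1 : conj (a j) * b j = ((kk j * ‖a j‖ ^ 2 : ℝ) : ℂ) := by
      rw [hb]
      simp only
      have : conj (a j) * (kk j * a j) = kk j * (a j * conj (a j)) := by ring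
      rw [this, Complex.mul_conj, Complex.normSq_eq_norm_sq]
      push_cast; ring
    have e2 : ‖a j‖ ^ 2 = ‖tc W j‖ ^ 2 * Real.exp (2 * kk j * ρ) := by
      rw [ha]
      simp only
      rw [norm_mul, mul_pow, Complex.norm_exp, ← Real.exp_nat_mul]
      congr 2
      simp; ring
    rw [e1, e2]
    have : (2 * (Real.pi : ℂ) * ((kk j * (‖tc W j‖ ^ 2 * Real.exp (2 * kk j * ρ)) : ℝ) : ℂ)) =
        ((2 * Real.pi * (kk j * (‖tc W j‖ ^ 2 * Real.exp (2 * kk j * ρ))) : ℝ) : ℂ) := by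
      push_cast; ring
    rw [this, Complex.ofReal_re]
    ring
  rw [show (fun j => (2 * (Real.pi : ℂ) * (conj (a j) * b j)).re) = fun j =>
    2 * Real.pi * ((kk j : ℝ) * ‖tc W j‖ ^ 2 * Real.exp (2 * kk j * ρ)) from funext hterm] at hPre
  have hle : ∑ j ∈ Finset.range N,
      2 * Real.pi * ((kk j : ℝ) * ‖tc W j‖ ^ 2 * Real.exp (2 * kk j * ρ)) ≤ 0 := by
    refine (sum_le_hasSum (Finset.range N) (fun j hj => ?_) hPre).trans harea
    have hj' : N ≤ j := by simpa using hj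
    have : (0 : ℝ) ≤ kk j := by
      unfold kk; push_cast
      have : (3 : ℝ) ≤ j := by exact_mod_cast hN.trans hj'
      linarith
    positivity
  rw [← Finset.mul_sum] at hle
  by_contra hcon
  rw [not_le] at hcon
  have : 0 < 2 * Real.pi * ∑ j ∈ Finset.range N,
      ((kk j : ℝ) * ‖tc W j‖ ^ 2 * Real.exp (2 * kk j * ρ)) := by positivity
  linarith

/-- **Area theorem.** -/
theorem PoleMap.area {B : ℂ → ℂ} (h : PoleMap B) (Q : Polynomial ℂ) {W : ℂ → ℂ}
    (hW : DifferentiableOn ℂ W (Metric.ball 0 1))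
    (hQW : ∀ z : ℂ, ‖z‖ < 1 → z ≠ 0 → Q.eval (B z / z) = W (z ^ 2) / z ^ 5)
    {N : ℕ} (hN : 3 ≤ N) :
    ∑ j ∈ Finset.range N, (kk j : ℝ) * ‖tc W j‖ ^ 2 ≤ 0 := by
  have hc : Continuous fun ρ : ℝ =>
      ∑ j ∈ Finset.range N, (kk j : ℝ) * ‖tc W j‖ ^ 2 * Real.exp (2 * kk j * ρ) := by fun_prop
  have hlim : Tendsto (fun ρ : ℝ =>
      ∑ j ∈ Finset.range N, (kk j : ℝ) * ‖tc W j‖ ^ 2 * Real.exp (2 * kk j * ρ)) (𝓝[<] 0)
      (𝓝 (∑ j ∈ Finset.range N, (kk j : ℝ) * ‖tc W j‖ ^ 2)) := by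
    have := (hc.tendsto 0).mono_left (nhdsWithin_le_nhds (s := Iio 0))
    simpa using this
  refine le_of_tendsto hlim ?_
  filter_upwards [self_mem_nhdsWithin] with ρ hρ
  exact h.area_radius Q hW hQW hρ hN

end Pool.Agent.Lib.MP_74c692_an
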