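import Mathlib

open MeasureTheory Filter Topology Complex Set
open scoped Interval ComplexConjugate

namespace Pool.Agent.Lib.MP_74c692_an

/-- `2 i` times the derivative with respect to `conj z` -/
noncomputable def DB (f : ℂ → ℂ) (z : ℂ) : ℂ := I * fderiv ℝ f z 1 - fderiv ℝ f z I

/-! ### The integral of `DB` over the plane -/

lemma integral_fderiv_eq_zero {f : ℂ → ℂ} (hf : ContDiff ℝ 1 f) (hc : HasCompactSupport f) (v : ℂ) :
    ∫ z, fderiv ℝ f z v = 0 := by
  have hcont : Continuous fun z => fderiv ℝ f z v :=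
    (hf.continuous_fderiv one_ne_zero).clm_apply continuous_const
  have hcs : HasCompactSupport fun z => fderiv ℝ f z v :=
    (hc.fderiv ℝ).comp_left (g := fun L : ℂ →L[ℝ] ℂ => L v) rfl
  have hint : Integrable fun z => fderiv ℝ f z v := hcont.integrable_of_hasCompactSupport hcs
  have h := integral_bilinear_hasFDerivAt_right_eq_neg_left_of_integrable
    (μ := (volume : Measure ℂ)) (f := fun _ : ℂ => (1 : ℂ)) (f' := fun _ => 0) (g := f)
    (g' := fun z => fderiv ℝ f z) (v := v) (B := ContinuousLinearMap.mul ℝ ℂ)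
    (by simp) (by simpa using hint) (by simpa using hf.continuous.integrable_of_hasCompactSupport hc)
    (fun x _ => hasFDerivAt_const _ _)
    (fun x _ => (hf.differentiable one_ne_zero x).hasFDerivAt)
  simpa using h

lemma integral_DB_eq_zero {f : ℂ → ℂ} (hf : ContDiff ℝ 1 f) (hc : HasCompactSupport f) :
    ∫ z, DB f z = 0 := by
  have hcont : ∀ v : ℂ, Continuous fun z => fderiv ℝ f z v := fun v =>
    (hf.continuous_fderiv one_ne_zero).clm_apply continuous_const
  have hcs : ∀ v : ℂ, HasCompactSupport fun z => fderiv ℝ f z v := fun v =>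
    (hc.fderiv ℝ).comp_left (g := fun L : ℂ →L[ℝ] ℂ => L v) rfl
  have hint : ∀ v : ℂ, Integrable fun z => fderiv ℝ f z v := fun v =>
    (hcont v).integrable_of_hasCompactSupport (hcs v)
  unfold DB
  rw [integral_sub ((hint 1).const_mul I) (hint I), integral_const_mul,
    integral_fderiv_eq_zero hf hc, integral_fderiv_eq_zero hf hc]
  simp

/-! ### The chain rule -/

lemma DB_of_hasFDerivAt {f : ℂ → ℂ} {f' : ℂ →L[ℝ] ℂ} {z : ℂ} (h : HasFDerivAt f f' z) :
    DB f z = I * f' 1 - f' I := by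
  unfold DB; rw [h.fderiv]

/-- real-linear maps of the plane -/
lemma clm_mul (A : ℂ →L[ℝ] ℂ) (a : ℂ) :
    a * (I * A a - A (I * a)) = (normSq a : ℂ) * (I * A 1 - A I) := by
  have hA : ∀ w : ℂ, A w = w.re * A 1 + w.im * A I := by
    intro w
    have : w = (w.re : ℝ) • (1 : ℂ) + (w.im : ℝ) • I := by
      simp [Complex.re_add_im]
    conv_lhs => rw [this]
    rw [map_add, map_smul, map_smul]
    simp
  have hI : A (I * a) = -(a.im : ℂ) * A 1 + a.re * A I := by
    rw [hA (I * a)]; simp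
  rw [hI, hA a, Complex.normSq_apply]
  have ha : a = a.re + a.im * I := (Complex.re_add_im a).symm
  generalize A 1 = p
  generalize A I = q
  have hI2 : I * I = -1 := Complex.I_mul_I
  push_cast
  conv_lhs => rw [ha]
  simp only [Complex.add_re, Complex.ofReal_re, Complex.mul_re, Complex.I_re, mul_zero,
    Complex.ofReal_im, Complex.I_im, mul_one, sub_self, add_zero, Complex.add_im, Complex.mul_im,
    zero_add]
  linear_combination (a.im ^ 2 * q + a.im * a.re * p) * hI2

/-- The chain rule for `Ψ (U ζ) * U' ζ`. -/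
lemma DB_comp {Ψ U U' : ℂ → ℂ} {ζ : ℂ} {d : ℂ} (hΨ : DifferentiableAt ℝ Ψ (U ζ))
    (hU : HasDerivAt U (U' ζ) ζ) (hU' : HasDerivAt U' d ζ) :
    DifferentiableAt ℝ (fun ζ => Ψ (U ζ) * U' ζ) ζ ∧
    DB (fun ζ => Ψ (U ζ) * U' ζ) ζ = (normSq (U' ζ) : ℂ) * DB Ψ (U ζ) := by
  have h1 : HasFDerivAt U (ContinuousLinearMap.restrictScalars ℝ
      (ContinuousLinearMap.toSpanSingleton ℂ (U' ζ))) ζ :=
    hU.hasFDerivAt.restrictScalars ℝ
  have h2 : HasFDerivAt U' (ContinuousLinearMap.restrictScalars ℝ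
      (ContinuousLinearMap.toSpanSingleton ℂ d)) ζ :=
    hU'.hasFDerivAt.restrictScalars ℝ
  have h3 := hΨ.hasFDerivAt.comp ζ h1
  have h4 := h3.mul h2
  refine ⟨h4.differentiableAt, ?_⟩
  rw [DB_of_hasFDerivAt (f := fun ζ => Ψ (U ζ) * U' ζ) h4]
  have h5 := clm_mul (fderiv ℝ Ψ (U ζ)) (U' ζ)
  unfold DB
  rw [← h5]
  simp only [Function.comp, _root_.add_apply, _root_.smul_apply, smul_eq_mul,
    ContinuousLinearMap.comp_apply, ContinuousLinearMap.coe_restrictScalars',
    ContinuousLinearMap.toSpanSingleton_apply, one_mul]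
  ring


lemma det_mul (a : ℂ) : (ContinuousLinearMap.restrictScalars ℝ
    (ContinuousLinearMap.toSpanSingleton ℂ a) : ℂ →L[ℝ] ℂ).det = normSq a := by
  rw [ContinuousLinearMap.det, ← LinearMap.det_toMatrix Complex.basisOneI, Matrix.det_fin_two]
  simp only [LinearMap.toMatrix_apply, Complex.coe_basisOneI]
  simp [Complex.normSq_apply]

/-- Change of variables for an injective holomorphic map. -/
lemma integral_image_holo {U U' : ℂ → ℂ} {S : Set ℂ} (hS : MeasurableSet S)
    (hU : ∀ z ∈ S, HasDerivAt U (U' z) z) (hinj : InjOn U S) (g : ℂ → ℂ) :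
    ∫ v in U '' S, g v = ∫ z in S, (normSq (U' z) : ℂ) * g (U z) := by
  rw [integral_image_eq_integral_abs_det_fderiv_smul volume hS
    (f' := fun z => ContinuousLinearMap.restrictScalars ℝ
      (ContinuousLinearMap.toSpanSingleton ℂ (U' z)))
    (fun z hz => ((hU z hz).hasFDerivAt.restrictScalars ℝ).hasFDerivWithinAt) hinj]
  refine integral_congr_ae (Eventually.of_forall fun z => ?_)
  simp only
  rw [det_mul, abs_of_nonneg (Complex.normSq_nonneg _), Complex.real_smul]

/-! ### Rectangles -/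

lemma integral_rect {g : ℂ → ℂ} {a b c d : ℝ} (hab : a ≤ b) (hcd : c ≤ d)
    (hg : IntegrableOn g (Icc a b ×ℂ Icc c d)) :
    ∫ x in a..b, ∫ y in c..d, g (x + y * I) = ∫ z in Ioo a b ×ℂ Ioo c d, g z := by
  have hmp := Complex.volume_preserving_equiv_real_prod.symm
  have e1 : ∀ x y : ℝ, (x + y * I : ℂ) = Complex.measurableEquivRealProd.symm (x, y) := by
    intro x y
    rw [Complex.measurableEquivRealProd_symm_apply]
    exact (Complex.mk_eq_add_mul_I x y).symm
  have e2 : Ioo a b ×ℂ Ioo c d =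
      Complex.measurableEquivRealProd.symm '' (Ioo a b ×ˢ Ioo c d) := by
    ext z
    rw [MeasurableEquiv.image_symm]
    rfl
  have hg' : IntegrableOn (fun p : ℝ × ℝ => g (Complex.measurableEquivRealProd.symm p))
      (Icc a b ×ˢ Icc c d) := by
    have : Icc a b ×ˢ Icc c d =
        Complex.measurableEquivRealProd.symm ⁻¹' (Icc a b ×ℂ Icc c d) := rfl
    rw [this]
    exact (hmp.integrableOn_comp_preimage (MeasurableEquiv.measurableEmbedding _)).mpr hg
  rw [e2, hmp.setIntegral_image_emb (MeasurableEquiv.measurableEmbedding _)]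
  have h3 : ∫ p in Ioo a b ×ˢ Ioo c d, g (Complex.measurableEquivRealProd.symm p) =
      ∫ p in Ioc a b ×ˢ Ioc c d, g (Complex.measurableEquivRealProd.symm p) := by
    refine setIntegral_congr_set ?_
    exact Measure.set_prod_ae_eq Ioo_ae_eq_Ioc Ioo_ae_eq_Ioc
  rw [h3]
  have hg'' := hg'.mono_set (s := Ioc a b ×ˢ Ioc c d)
    (prod_mono Ioc_subset_Icc_self Ioc_subset_Icc_self)
  rw [Measure.volume_eq_prod] at hg'' ⊢
  rw [setIntegral_prod _ hg'', intervalIntegral.integral_of_le hab]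
  refine setIntegral_congr_fun measurableSet_Ioc fun x _ => ?_
  show ∫ y in c..d, g (x + y * I) =
    ∫ y in Ioc c d, g (Complex.measurableEquivRealProd.symm (x, y))
  rw [intervalIntegral.integral_of_le hcd]
  refine setIntegral_congr_fun measurableSet_Ioc fun y _ => ?_
  show g (x + y * I) = g (Complex.measurableEquivRealProd.symm (x, y))
  rw [e1]


/-! ### The setting: an injective function with a simple pole at the origin -/

/-- `u z = B z / z` is injective on the punctured disc, with `B` holomorphic and zero-free. -/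
structure PoleMap (B : ℂ → ℂ) : Prop where
  diff : DifferentiableOn ℂ B (Metric.ball 0 1)
  ne : ∀ z ∈ Metric.ball (0 : ℂ) 1, B z ≠ 0
  inj : InjOn (fun z => B z / z) (Metric.ball 0 1 \ {0})

variable {B : ℂ → ℂ}

/-- All large values are taken in a small disc. -/
lemma PoleMap.exists_preimage (h : PoleMap B) {r M : ℝ} (hr : 0 < r) (hr1 : r < 1) (hM : 0 < M)
    (hMr : ∀ z : ℂ, ‖z‖ = r → ‖B z / z‖ ≤ M) {v : ℂ} (hv : 2 * M < ‖v‖) :
    ∃ z : ℂ, ‖z‖ < r ∧ z ≠ 0 ∧ B z / z = v := by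
  have hsub : Metric.closedBall (0 : ℂ) r ⊆ Metric.ball 0 1 :=
    Metric.closedBall_subset_ball hr1
  have hG : DifferentiableOn ℂ (fun z => z / B z) (Metric.ball 0 1) :=
    differentiableOn_id.div h.diff h.ne
  have hG' : DiffContOnCl ℂ (fun z => z / B z) (Metric.ball 0 r) := by
    refine DifferentiableOn.diffContOnCl ?_
    rw [closure_ball _ hr.ne']
    exact hG.mono hsub
  have hv0 : 0 < ‖v‖ := lt_trans (by positivity) hv
  have hvne : v ≠ 0 := norm_pos_iff.mp hv0
  have hfr : ∃ᶠ z in 𝓝 (0 : ℂ), z / B z ≠ 0 / B 0 := by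
    have h1 : ∀ᶠ z in 𝓝[≠] (0 : ℂ), z / B z ≠ 0 / B 0 := by
      have h2 : ∀ᶠ z in 𝓝[≠] (0 : ℂ), z ∈ Metric.ball (0 : ℂ) 1 :=
        nhdsWithin_le_nhds (Metric.ball_mem_nhds 0 one_pos)
      filter_upwards [h2, self_mem_nhdsWithin] with z hz hz0
      rw [zero_div]
      exact div_ne_zero hz0 (h.ne z hz)
    exact (h1.frequently).filter_mono nhdsWithin_le_nhds
  have hball := hG'.ball_subset_image_closedBall (ε := 1 / M) hr (fun z hz => by
    rw [mem_sphere_zero_iff_norm] at hz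
    have hz1 : z ∈ Metric.ball (0 : ℂ) 1 := by rw [mem_ball_zero_iff, hz]; exact hr1
    have hz0 : z ≠ 0 := by rw [← norm_pos_iff, hz]; exact hr
    simp only [zero_div, sub_zero]
    have h3 : z / B z = (B z / z)⁻¹ := (inv_div _ _).symm
    rw [h3, norm_inv, ← one_div]
    refine one_div_le_one_div_of_le ?_ (hMr z hz)
    exact norm_pos_iff.mpr (div_ne_zero (h.ne z hz1) hz0)) hfr
  have hw : v⁻¹ ∈ Metric.ball ((0 : ℂ) / B 0) (1 / M / 2) := by
    rw [zero_div, mem_ball_zero_iff, norm_inv]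
    rw [div_div, mul_comm M 2, ← one_div]
    exact one_div_lt_one_div_of_lt (by positivity) hv
  obtain ⟨z, hz, hzv⟩ := hball hw
  simp only at hzv
  rw [Metric.mem_closedBall, dist_zero_right] at hz
  have hz1 : z ∈ Metric.ball (0 : ℂ) 1 := hsub (by simpa using hz)
  have hz0 : z ≠ 0 := by
    rintro rfl
    rw [zero_div] at hzv
    exact inv_ne_zero hvne hzv.symm
  have hzv' : B z / z = v := by
    rw [← inv_inv v, ← hzv, inv_div]
  refine ⟨z, lt_of_le_of_ne hz fun hzr => ?_, hz0, hzv'⟩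
  have := hMr z hzr
  rw [hzv'] at this
  linarith

/-- the function in the logarithmic coordinate -/
noncomputable def UU (B : ℂ → ℂ) (ζ : ℂ) : ℂ := B (exp ζ) / exp ζ

/-- its derivative -/
noncomputable def UU' (B : ℂ → ℂ) (ζ : ℂ) : ℂ := deriv B (exp ζ) - B (exp ζ) / exp ζ

lemma exp_mem_ball {ζ : ℂ} (h : ζ.re < 0) : exp ζ ∈ Metric.ball (0 : ℂ) 1 := by
  rw [mem_ball_zero_iff, Complex.norm_exp]
  exact Real.exp_lt_one_iff.mpr h

lemma PoleMap.hasDerivAt_UU (h : PoleMap B) {ζ : ℂ} (hζ : ζ.re < 0) :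
    HasDerivAt (UU B) (UU' B ζ) ζ := by
  have hd : DifferentiableAt ℂ B (exp ζ) :=
    h.diff.differentiableAt (Metric.isOpen_ball.mem_nhds (exp_mem_ball hζ))
  have h1 := (hd.hasDerivAt.comp ζ (Complex.hasDerivAt_exp ζ)).div (Complex.hasDerivAt_exp ζ)
    (Complex.exp_ne_zero ζ)
  refine h1.congr_deriv ?_
  unfold UU'
  have := Complex.exp_ne_zero ζ
  simp only [Function.comp]
  field_simp

lemma PoleMap.differentiableAt_UU' (h : PoleMap B) {ζ : ℂ} (hζ : ζ.re < 0) :
    DifferentiableAt ℂ (UU' B) ζ := by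
  have hmem := Metric.isOpen_ball.mem_nhds (exp_mem_ball hζ)
  have hd : DifferentiableAt ℂ B (exp ζ) := h.diff.differentiableAt hmem
  have hd' : DifferentiableAt ℂ (deriv B) (exp ζ) :=
    (h.diff.deriv Metric.isOpen_ball).differentiableAt hmem
  have hexp : DifferentiableAt ℂ exp ζ := Complex.differentiable_exp ζ
  exact (hd'.comp ζ hexp).sub ((hd.comp ζ hexp).div hexp (Complex.exp_ne_zero ζ))

lemma UU_periodic (ζ : ℂ) : UU B (ζ + 2 * Real.pi * I) = UU B ζ := by
  unfold UU; rw [Complex.exp_periodic]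

lemma UU'_periodic (ζ : ℂ) : UU' B (ζ + 2 * Real.pi * I) = UU' B ζ := by
  unfold UU'; rw [Complex.exp_periodic]


/-! ### The vector field -/

/-- the cut-off field `conj Q * Q'` -/
noncomputable def Psi (φ : ContDiffBump (0 : ℂ)) (Q : Polynomial ℂ) (v : ℂ) : ℂ :=
  (φ v : ℂ) * (conj (Q.eval v) * Q.derivative.eval v)

lemma poly_contDiff (Q : Polynomial ℂ) : ContDiff ℝ 1 fun v : ℂ => Q.eval v :=
  (Q.differentiable.contDiff (n := 1)).restrict_scalars ℝ

lemma conjQ_contDiff (Q : Polynomial ℂ) :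
    ContDiff ℝ 1 fun v : ℂ => conj (Q.eval v) * Q.derivative.eval v :=
  (Complex.conjCLE.contDiff.comp (poly_contDiff Q)).mul (poly_contDiff _)

lemma Psi_contDiff (φ : ContDiffBump (0 : ℂ)) (Q : Polynomial ℂ) : ContDiff ℝ 1 (Psi φ Q) :=
  (Complex.ofRealCLM.contDiff.comp φ.contDiff).mul (conjQ_contDiff Q)

lemma Psi_compact (φ : ContDiffBump (0 : ℂ)) (Q : Polynomial ℂ) :
    HasCompactSupport (Psi φ Q) := by
  have h := φ.hasCompactSupport
  refine HasCompactSupport.mul_right (f := fun v : ℂ => ((φ v : ℝ) : ℂ)) ?_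
  exact h.comp_left (g := fun x : ℝ => (x : ℂ)) rfl

lemma DB_conjQ (Q : Polynomial ℂ) (v : ℂ) :
    DB (fun v : ℂ => conj (Q.eval v) * Q.derivative.eval v) v =
      2 * I * normSq (Q.derivative.eval v) := by
  have h1 : HasFDerivAt (fun v : ℂ => Q.eval v) (ContinuousLinearMap.restrictScalars ℝ
      (ContinuousLinearMap.toSpanSingleton ℂ (Q.derivative.eval v))) v :=
    (Q.hasDerivAt v).hasFDerivAt.restrictScalars ℝ
  have h2 : HasFDerivAt (fun v : ℂ => Q.derivative.eval v) (ContinuousLinearMap.restrictScalars ℝ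
      (ContinuousLinearMap.toSpanSingleton ℂ (Q.derivative.derivative.eval v))) v :=
    (Q.derivative.hasDerivAt v).hasFDerivAt.restrictScalars ℝ
  have h3 := (Complex.conjCLE.hasFDerivAt (x := Q.eval v)).comp v h1
  have h4 := h3.mul h2
  rw [DB_of_hasFDerivAt (f := fun v : ℂ => conj (Q.eval v) * Q.derivative.eval v) h4]
  simp only [Function.comp, _root_.add_apply, _root_.smul_apply, smul_eq_mul,
    ContinuousLinearMap.comp_apply, ContinuousLinearMap.coe_restrictScalars',
    ContinuousLinearMap.toSpanSingleton_apply, one_mul, ContinuousLinearEquiv.coe_coe,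
    Complex.conjCLE_apply, map_mul, Complex.conj_I]
  rw [← Complex.mul_conj]
  ring

lemma DB_congr {f g : ℂ → ℂ} {v : ℂ} (h : f =ᶠ[𝓝 v] g) : DB f v = DB g v := by
  unfold DB; rw [h.fderiv_eq]

lemma DB_Psi_in {φ : ContDiffBump (0 : ℂ)} (Q : Polynomial ℂ) {v : ℂ} (hv : ‖v‖ < φ.rIn) :
    DB (Psi φ Q) v = 2 * I * normSq (Q.derivative.eval v) := by
  rw [← DB_conjQ]
  apply DB_congr
  have h1 : ∀ᶠ w in 𝓝 v, w ∈ Metric.ball (0 : ℂ) φ.rIn :=
    Metric.isOpen_ball.mem_nhds (by simpa using hv)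
  filter_upwards [h1] with w hw
  unfold Psi
  rw [φ.one_of_mem_closedBall (Metric.ball_subset_closedBall hw)]
  simp

lemma DB_Psi_out {φ : ContDiffBump (0 : ℂ)} (Q : Polynomial ℂ) {v : ℂ} (hv : φ.rOut < ‖v‖) :
    DB (Psi φ Q) v = 0 := by
  have h0 : DB (fun _ : ℂ => (0 : ℂ)) v = 0 := by unfold DB; simp
  rw [← h0]
  apply DB_congr
  have h1 : ∀ᶠ w in 𝓝 v, φ.rOut < ‖w‖ :=
    continuous_norm.continuousAt.eventually_const_lt hv
  filter_upwards [h1] with w hw
  unfold Psi
  rw [φ.zero_of_le_dist (by simpa using hw.le)]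
  simp

end Pool.Agent.Lib.MP_74c692_an
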