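import Pool.Agent.Lib.MP_74c692_an.Kg

open Filter Topology Complex MeasureTheory Set
open scoped Interval

namespace Pool.Agent.Lib.MP_74c692_an

/-! ### Averages over the circle of radius `1/4` -/

/-- the average over the circle of radius `1/4` -/
noncomputable def cA (F : ℂ → ℂ) : ℂ :=
  (2 * Real.pi : ℂ)⁻¹ * ∫ θ in (0 : ℝ)..2 * Real.pi, F (circleMap 0 (1 / 4) θ)

lemma cm_norm (θ : ℝ) : ‖circleMap 0 (1 / 4) θ‖ = 1 / 4 := by
  rw [norm_circleMap_zero]; norm_num

lemma cm_cont {F : ℂ → ℂ} (hF : ContinuousOn F (Metric.sphere 0 (1 / 4))) :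
    Continuous fun θ : ℝ => F (circleMap 0 (1 / 4) θ) :=
  hF.comp_continuous (continuous_circleMap 0 _) fun θ => by
    rw [mem_sphere_zero_iff_norm]; exact cm_norm θ

lemma cA_add {F G : ℂ → ℂ} (hF : ContinuousOn F (Metric.sphere 0 (1 / 4)))
    (hG : ContinuousOn G (Metric.sphere 0 (1 / 4))) : cA (fun s => F s + G s) = cA F + cA G := by
  unfold cA
  rw [intervalIntegral.integral_add ((cm_cont hF).intervalIntegrable _ _)
    ((cm_cont hG).intervalIntegrable _ _), mul_add]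

lemma cA_sub {F G : ℂ → ℂ} (hF : ContinuousOn F (Metric.sphere 0 (1 / 4)))
    (hG : ContinuousOn G (Metric.sphere 0 (1 / 4))) : cA (fun s => F s - G s) = cA F - cA G := by
  unfold cA
  rw [intervalIntegral.integral_sub ((cm_cont hF).intervalIntegrable _ _)
    ((cm_cont hG).intervalIntegrable _ _), mul_sub]

lemma cA_mul (c : ℂ) (F : ℂ → ℂ) : cA (fun s => c * F s) = c * cA F := by
  unfold cA
  rw [intervalIntegral.integral_const_mul]; ring

lemma cA_congr {F G : ℂ → ℂ} (h : ∀ s, ‖s‖ = 1 / 4 → F s = G s) : cA F = cA G := by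
  unfold cA
  congr 1
  exact intervalIntegral.integral_congr fun θ _ => h _ (cm_norm θ)

lemma cA_norm_le {F : ℂ → ℂ} {C : ℝ} (h : ∀ s, ‖s‖ = 1 / 4 → ‖F s‖ ≤ C) : ‖cA F‖ ≤ C := by
  unfold cA
  have h1 := intervalIntegral.norm_integral_le_of_norm_le_const (a := 0) (b := 2 * Real.pi)
    (f := fun θ : ℝ => F (circleMap 0 (1 / 4) θ)) (C := C) fun θ _ => h _ (cm_norm θ)
  have hpi := Real.pi_pos
  rw [sub_zero, abs_of_pos (by positivity)] at h1
  have h2 : ‖(2 * Real.pi : ℂ)⁻¹‖ = (2 * Real.pi)⁻¹ := by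
    rw [norm_inv]
    congr 1
    rw [norm_mul, Complex.norm_real, Real.norm_of_nonneg hpi.le]; norm_num
  rw [norm_mul, h2, inv_mul_le_iff₀ (by positivity), mul_comm _ C]
  exact h1

lemma cA_tc {V : ℂ → ℂ} (hV : DifferentiableOn ℂ V (Metric.ball 0 1)) (n : ℕ) :
    cA (fun s => V s / s ^ n) = tc V n := by
  have hd : DiffContOnCl ℂ V (Metric.ball 0 (1 / 4)) := by
    refine DifferentiableOn.diffContOnCl ?_
    rw [closure_ball _ (by norm_num)]
    exact hV.mono (Metric.closedBall_subset_ball (by norm_num))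
  have h := hd.circleIntegral_one_div_sub_center_pow_smul (by norm_num) n
  unfold circleIntegral at h
  have e : ∀ θ : ℝ, deriv (circleMap 0 (1 / 4)) θ • ((1 / (circleMap 0 (1 / 4) θ - 0) ^ (n + 1)) •
      V (circleMap 0 (1 / 4) θ)) = I * (V (circleMap 0 (1 / 4) θ) / circleMap 0 (1 / 4) θ ^ n) := by
    intro θ
    have h0 : circleMap 0 (1 / 4) θ ≠ 0 := by
      rw [← norm_pos_iff, cm_norm]; norm_num
    rw [deriv_circleMap, smul_eq_mul, smul_eq_mul, sub_zero]
    field_simp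
    ring
  simp only [e] at h
  rw [intervalIntegral.integral_const_mul, smul_eq_mul] at h
  have hpi : (Real.pi : ℂ) ≠ 0 := by exact_mod_cast Real.pi_pos.ne'
  have hI := Complex.I_ne_zero
  unfold cA tc
  have h' : ∫ θ in (0 : ℝ)..2 * Real.pi, V (circleMap 0 (1 / 4) θ) / circleMap 0 (1 / 4) θ ^ n =
      2 * Real.pi / n.factorial * iteratedDeriv n V 0 := by
    apply mul_left_cancel₀ hI
    rw [h]; ring
  rw [h']
  field_simp

lemma tc_add {V W : ℂ → ℂ} (hV : DifferentiableOn ℂ V (Metric.ball 0 1))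
    (hW : DifferentiableOn ℂ W (Metric.ball 0 1)) (n : ℕ) :
    tc (fun s => V s + W s) n = tc V n + tc W n := by
  have hsub : Metric.sphere (0 : ℂ) (1 / 4) ⊆ Metric.ball 0 1 := by
    intro s hs
    rw [mem_sphere_zero_iff_norm] at hs
    rw [mem_ball_zero_iff, hs]; norm_num
  have hc : ∀ {V : ℂ → ℂ}, DifferentiableOn ℂ V (Metric.ball 0 1) →
      ContinuousOn (fun s => V s / s ^ n) (Metric.sphere 0 (1 / 4)) := by
    intro V hV
    refine (hV.continuousOn.mono hsub).div (by fun_prop) fun s hs => pow_ne_zero n ?_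
    rw [mem_sphere_zero_iff_norm] at hs
    rw [← norm_pos_iff, hs]; norm_num
  rw [← cA_tc (V := fun s => V s + W s) (hV.add hW), ← cA_tc hV, ← cA_tc hW,
    ← cA_add (hc hV) (hc hW)]
  exact cA_congr fun s _ => by ring

lemma tc_const_succ (c : ℂ) (n : ℕ) : tc (fun _ => c) (n + 1) = 0 := by
  unfold tc
  rw [iteratedDeriv_const]
  simp

lemma tc_cons_zero (c : ℂ) (V : ℂ → ℂ) : tc (fun s => c + s * V s) 0 = c := by
  rw [tc_zero]; simp

lemma tc_cons_succ (c : ℂ) {V : ℂ → ℂ} (hV : DifferentiableOn ℂ V (Metric.ball 0 1)) (n : ℕ) :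
    tc (fun s => c + s * V s) (n + 1) = tc V n := by
  have h := tc_add (V := fun _ => c) (W := fun s => s * V s) (differentiableOn_const c)
    (differentiableOn_id.mul hV) (n + 1)
  rw [h, tc_const_succ, zero_add]
  exact tc_mul_id_succ hV n

end Pool.Agent.Lib.MP_74c692_an
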