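import Mathlib

open Filter Topology PowerSeries
open scoped ComplexConjugate

namespace Pool.Agent.Lib.MP_74c692_an

/-! ### Absolutely summable power series -/

/-- the sum of the absolute values of the coefficients is at most `c` -/
def NB (φ : PowerSeries ℂ) (c : ℝ) : Prop :=
  ∀ M, ∑ m ∈ Finset.range M, ‖coeff m φ‖ ≤ c

lemma NB.mono {φ : PowerSeries ℂ} {c d : ℝ} (h : NB φ c) (hcd : c ≤ d) : NB φ d :=
  fun M => (h M).trans hcd

lemma NB.nonneg {φ : PowerSeries ℂ} {c : ℝ} (h : NB φ c) : 0 ≤ c := by simpa using h 0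

lemma NB.coeff_le {φ : PowerSeries ℂ} {c : ℝ} (h : NB φ c) (m : ℕ) : ‖coeff m φ‖ ≤ c :=
  (Finset.single_le_sum (f := fun m => ‖coeff m φ‖) (fun _ _ => norm_nonneg _)
    (Finset.self_mem_range_succ m)).trans (h (m + 1))

lemma NB.add {φ ψ : PowerSeries ℂ} {a b : ℝ} (h : NB φ a) (h' : NB ψ b) : NB (φ + ψ) (a + b) := by
  intro M
  calc ∑ m ∈ Finset.range M, ‖coeff m (φ + ψ)‖
      ≤ ∑ m ∈ Finset.range M, (‖coeff m φ‖ + ‖coeff m ψ‖) :=
        Finset.sum_le_sum fun m _ => by rw [map_add]; exact norm_add_le _ _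
    _ = _ := Finset.sum_add_distrib
    _ ≤ _ := add_le_add (h M) (h' M)

lemma NB.neg {φ : PowerSeries ℂ} {a : ℝ} (h : NB φ a) : NB (-φ) a := by
  intro M
  simpa using h M

lemma NB.sub {φ ψ : PowerSeries ℂ} {a b : ℝ} (h : NB φ a) (h' : NB ψ b) : NB (φ - ψ) (a + b) := by
  rw [sub_eq_add_neg]; exact h.add h'.neg

lemma NB.mul {φ ψ : PowerSeries ℂ} {a b : ℝ} (h : NB φ a) (h' : NB ψ b) : NB (φ * ψ) (a * b) := by
  intro M
  calc ∑ m ∈ Finset.range M, ‖coeff m (φ * ψ)‖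
      ≤ ∑ m ∈ Finset.range M, ∑ p ∈ Finset.HasAntidiagonal.antidiagonal m, ‖coeff p.1 φ‖ * ‖coeff p.2 ψ‖ := by
        refine Finset.sum_le_sum fun m _ => ?_
        rw [coeff_mul]
        refine (norm_sum_le _ _).trans (le_of_eq ?_)
        exact Finset.sum_congr rfl fun p _ => norm_mul _ _
    _ = ∑ x ∈ (Finset.range M).sigma fun m => Finset.HasAntidiagonal.antidiagonal m,
          ‖coeff x.2.1 φ‖ * ‖coeff x.2.2 ψ‖ := by rw [Finset.sum_sigma]
    _ = ∑ p ∈ ((Finset.range M).sigma fun m => Finset.HasAntidiagonal.antidiagonal m).image (fun x => x.2),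
          ‖coeff p.1 φ‖ * ‖coeff p.2 ψ‖ := by
        rw [Finset.sum_image]
        rintro ⟨m, p⟩ hx ⟨m', p'⟩ hx' hpp
        simp only [Finset.coe_sigma, Set.mem_sigma_iff, Finset.mem_coe,
          Finset.HasAntidiagonal.mem_antidiagonal] at hx hx' hpp
        subst hpp
        have : m = m' := by rw [← hx.2, ← hx'.2]
        subst this
        rfl
    _ ≤ ∑ p ∈ Finset.range M ×ˢ Finset.range M, ‖coeff p.1 φ‖ * ‖coeff p.2 ψ‖ := by
        refine Finset.sum_le_sum_of_subset_of_nonneg ?_ fun _ _ _ => by positivity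
        intro p hp
        simp only [Finset.mem_image, Finset.mem_sigma, Finset.mem_range,
          Finset.HasAntidiagonal.mem_antidiagonal, Finset.mem_product] at hp ⊢
        obtain ⟨x, ⟨hx1, hx2⟩, rfl⟩ := hp
        omega
    _ = (∑ m ∈ Finset.range M, ‖coeff m φ‖) * ∑ m ∈ Finset.range M, ‖coeff m ψ‖ := by
        rw [Finset.sum_mul_sum, Finset.sum_product]
    _ ≤ a * b := mul_le_mul (h M) (h' M) (Finset.sum_nonneg fun _ _ => norm_nonneg _) h.nonneg

lemma NB_C (c : ℂ) : NB (C c) ‖c‖ := by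
  intro M
  cases M with
  | zero => simp
  | succ M =>
    rw [Finset.sum_range_succ']
    have : ∑ k ∈ Finset.range M, ‖coeff (k + 1) (PowerSeries.C c)‖ = 0 := by
      refine Finset.sum_eq_zero fun k _ => ?_
      rw [coeff_C]; simp
    rw [this]; simp

lemma NB_one : NB (1 : PowerSeries ℂ) 1 := by
  have := NB_C (1 : ℂ)
  simpa using this

lemma NB_X : NB (X : PowerSeries ℂ) 1 := by
  intro M
  calc ∑ m ∈ Finset.range M, ‖coeff m (PowerSeries.X : PowerSeries ℂ)‖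
      = ∑ m ∈ Finset.range M, if m = 1 then (1 : ℝ) else 0 := by
        refine Finset.sum_congr rfl fun m _ => ?_
        rw [coeff_X]; split_ifs <;> simp
    _ ≤ 1 := by
        rw [Finset.sum_ite_eq']
        split_ifs <;> norm_num

/-! ### The operator -/

/-- the polynomial `K^5 + 5 s K^3 + 5 s^2 K` -/
noncomputable def YY (φ : PowerSeries ℂ) : PowerSeries ℂ :=
  φ ^ 5 + C 5 * X * φ ^ 3 + C 5 * X ^ 2 * φ

/-- the reflected shift -/
noncomputable def Br (Y : PowerSeries ℂ) : PowerSeries ℂ :=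
  mk fun m => coeff (m + 3) Y - (if m = 0 then conj (coeff 2 Y) else
    if m = 1 then conj (coeff 1 Y) else if m = 2 then conj (coeff 0 Y) else 0)

/-- the fixed point operator -/
noncomputable def TT (ε : ℝ) (φ : PowerSeries ℂ) : PowerSeries ℂ :=
  1 - X - C (Complex.I * ε) * (X * Br (YY φ))

lemma Br_sub (Y Z : PowerSeries ℂ) : Br (Y - Z) = Br Y - Br Z := by
  ext m
  unfold Br
  simp only [coeff_mk, map_sub]
  split_ifs <;> ring

lemma NB_Br {Y : PowerSeries ℂ} {c : ℝ} (h : NB Y c) : NB (Br Y) c := by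
  intro M
  have h1 : ∀ m, ‖coeff m (Br Y)‖ ≤ ‖coeff (m + 3) Y‖ +
      (if m = 0 then ‖coeff 2 Y‖ else if m = 1 then ‖coeff 1 Y‖ else
        if m = 2 then ‖coeff 0 Y‖ else 0) := by
    intro m
    unfold Br
    rw [coeff_mk]
    refine (norm_sub_le _ _).trans (le_of_eq ?_)
    split_ifs <;> simp
  have h2 : ∑ m ∈ Finset.range M, (if m = 0 then ‖coeff 2 Y‖ else if m = 1 then ‖coeff 1 Y‖ else
        if m = 2 then ‖coeff 0 Y‖ else 0) ≤ ‖coeff 2 Y‖ + ‖coeff 1 Y‖ + ‖coeff 0 Y‖ := by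
    calc _ ≤ ∑ m ∈ Finset.range (M + 3), (if m = 0 then ‖coeff 2 Y‖ else
          if m = 1 then ‖coeff 1 Y‖ else if m = 2 then ‖coeff 0 Y‖ else 0) := by
          refine Finset.sum_le_sum_of_subset_of_nonneg
            (Finset.range_mono (Nat.le_add_right _ _)) fun m _ _ => ?_
          split_ifs <;> positivity
      _ = _ := by
          rw [Finset.sum_range_succ', Finset.sum_range_succ', Finset.sum_range_succ']
          simp
          ring
  calc ∑ m ∈ Finset.range M, ‖coeff m (Br Y)‖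
      ≤ ∑ m ∈ Finset.range M, ‖coeff (m + 3) Y‖ +
        (‖coeff 2 Y‖ + ‖coeff 1 Y‖ + ‖coeff 0 Y‖) := by
        refine (Finset.sum_le_sum fun m _ => h1 m).trans ?_
        rw [Finset.sum_add_distrib]
        exact add_le_add le_rfl h2
    _ = ∑ m ∈ Finset.range (M + 3), ‖coeff m Y‖ := by
        rw [Finset.sum_range_succ', Finset.sum_range_succ', Finset.sum_range_succ']
        ring
    _ ≤ c := h _

lemma NB_YY {φ : PowerSeries ℂ} (h : NB φ 3) : NB (YY φ) 393 := by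
  have h5 : NB (C (5 : ℂ)) 5 := by simpa using NB_C (5 : ℂ)
  have h2 := h.mul h
  have h3 := h2.mul h
  have h5' := h3.mul h2
  have e : YY φ = φ * φ * φ * (φ * φ) + C 5 * X * (φ * φ * φ) + C 5 * (X * X) * φ := by
    unfold YY; ring
  rw [e]
  exact ((h5'.add ((h5.mul NB_X).mul h3)).add ((h5.mul (NB_X.mul NB_X)).mul h)).mono (by norm_num)

lemma NB_YY_sub {φ ψ : PowerSeries ℂ} {d : ℝ} (h : NB φ 3) (h' : NB ψ 3) (hd : NB (φ - ψ) d) :
    NB (YY φ - YY ψ) (545 * d) := by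
  have h5 : NB (C (5 : ℂ)) 5 := by simpa using NB_C (5 : ℂ)
  have hd0 := hd.nonneg
  have e : YY φ - YY ψ = (φ - ψ) * ((φ * φ) * (φ * φ) + (φ * φ) * (φ * ψ) + (φ * φ) * (ψ * ψ) +
      (φ * ψ) * (ψ * ψ) + (ψ * ψ) * (ψ * ψ)) + C 5 * X * ((φ - ψ) * (φ * φ + φ * ψ + ψ * ψ)) +
      C 5 * (X * X) * (φ - ψ) := by
    unfold YY; ring
  rw [e]
  have a1 := h.mul h
  have a2 := h.mul h'
  have a3 := h'.mul h'
  have b1 := ((((a1.mul a1).add (a1.mul a2)).add (a1.mul a3)).add (a2.mul a3)).add (a3.mul a3)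
  have b2 := (a1.add a2).add a3
  exact (((hd.mul b1).add ((h5.mul NB_X).mul (hd.mul b2))).add
    ((h5.mul (NB_X.mul NB_X)).mul hd)).mono (by nlinarith)

variable {ε : ℝ}

lemma NB_TT_sub_start {φ : PowerSeries ℂ} (hε : 0 ≤ ε) (h : NB φ 3) :
    NB (TT ε φ - (1 - X)) (393 * ε) := by
  have e : TT ε φ - (1 - X) = -(C (Complex.I * ε) * (X * Br (YY φ))) := by
    unfold TT; ring
  rw [e]
  have hc : NB (C (Complex.I * ε)) ε := by
    have := NB_C (Complex.I * ε)
    rwa [norm_mul, Complex.norm_I, one_mul, Complex.norm_real, Real.norm_of_nonneg hε] at this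
  exact ((hc.mul (NB_X.mul (NB_Br (NB_YY h)))).neg).mono (by linarith)

lemma NB_TT_sub {φ ψ : PowerSeries ℂ} {d : ℝ} (hε : 0 ≤ ε) (h : NB φ 3) (h' : NB ψ 3)
    (hd : NB (φ - ψ) d) : NB (TT ε φ - TT ε ψ) (545 * ε * d) := by
  have e : TT ε φ - TT ε ψ = -(C (Complex.I * ε) * (X * Br (YY φ - YY ψ))) := by
    rw [Br_sub]; unfold TT; ring
  rw [e]
  have hc : NB (C (Complex.I * ε)) ε := by
    have := NB_C (Complex.I * ε)
    rwa [norm_mul, Complex.norm_I, one_mul, Complex.norm_real, Real.norm_of_nonneg hε] at this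
  exact ((hc.mul (NB_X.mul (NB_Br (NB_YY_sub h h' hd)))).neg).mono (by nlinarith [hd.nonneg])

/-- Picard iteration -/
noncomputable def Kn (ε : ℝ) : ℕ → PowerSeries ℂ
  | 0 => 1 - X
  | n + 1 => TT ε (Kn ε n)

lemma NB_start : NB (1 - X : PowerSeries ℂ) 2 := (NB_one.sub NB_X).mono (by norm_num)

lemma Kn_bound (hε : 0 ≤ ε) (hε1 : 2000 * ε ≤ 1) (n : ℕ) : NB (Kn ε n) 3 := by
  induction n with
  | zero => exact NB_start.mono (by norm_num)
  | succ n ih =>
    have h1 := (NB_TT_sub_start hε ih).add NB_start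
    rw [sub_add_cancel] at h1
    exact h1.mono (by linarith)

lemma Kn_diff (hε : 0 ≤ ε) (hε1 : 2000 * ε ≤ 1) (n : ℕ) :
    NB (Kn ε (n + 1) - Kn ε n) ((1 / 2) ^ n) := by
  induction n with
  | zero =>
    have h1 := NB_TT_sub_start hε (Kn_bound hε hε1 0)
    exact h1.mono (by norm_num; linarith)
  | succ n ih =>
    have h1 := NB_TT_sub hε (Kn_bound hε hε1 (n + 1)) (Kn_bound hε hε1 n) ih
    refine h1.mono ?_
    rw [pow_succ]
    have : (0 : ℝ) < (1 / 2) ^ n := by positivity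
    nlinarith

lemma Kn_coeff_tendsto (hε : 0 ≤ ε) (hε1 : 2000 * ε ≤ 1) (m : ℕ) :
    ∃ κ : ℂ, Tendsto (fun n => coeff m (Kn ε n)) atTop (𝓝 κ) := by
  refine cauchySeq_tendsto_of_complete ?_
  refine cauchySeq_of_le_geometric (1 / 2) 1 (by norm_num) fun n => ?_
  rw [dist_comm, dist_eq_norm, ← map_sub, one_mul]
  exact (Kn_diff hε hε1 n).coeff_le m

/-- coefficientwise convergence -/
def CT (φ : ℕ → PowerSeries ℂ) (ψ : PowerSeries ℂ) : Prop :=
  ∀ m, Tendsto (fun n => coeff m (φ n)) atTop (𝓝 (coeff m ψ))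

lemma CT_const (ψ : PowerSeries ℂ) : CT (fun _ => ψ) ψ := fun _ => tendsto_const_nhds

lemma CT.add {φ φ' : ℕ → PowerSeries ℂ} {ψ ψ' : PowerSeries ℂ} (h : CT φ ψ) (h' : CT φ' ψ') :
    CT (fun n => φ n + φ' n) (ψ + ψ') := fun m => by
  simp only [map_add]; exact (h m).add (h' m)

lemma CT.sub {φ φ' : ℕ → PowerSeries ℂ} {ψ ψ' : PowerSeries ℂ} (h : CT φ ψ) (h' : CT φ' ψ') :
    CT (fun n => φ n - φ' n) (ψ - ψ') := fun m => by
  simp only [map_sub]; exact (h m).sub (h' m)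

lemma CT.mul {φ φ' : ℕ → PowerSeries ℂ} {ψ ψ' : PowerSeries ℂ} (h : CT φ ψ) (h' : CT φ' ψ') :
    CT (fun n => φ n * φ' n) (ψ * ψ') := fun m => by
  simp only [coeff_mul]
  exact tendsto_finsetSum _ fun p _ => (h p.1).mul (h' p.2)

lemma CT.pow {φ : ℕ → PowerSeries ℂ} {ψ : PowerSeries ℂ} (h : CT φ ψ) (k : ℕ) :
    CT (fun n => φ n ^ k) (ψ ^ k) := by
  induction k with
  | zero => simpa using CT_const 1
  | succ k ih => simpa [pow_succ] using ih.mul h

lemma CT_Br {φ : ℕ → PowerSeries ℂ} {ψ : PowerSeries ℂ} (h : CT φ ψ) :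
    CT (fun n => Br (φ n)) (Br ψ) := fun m => by
  unfold Br
  simp only [coeff_mk]
  refine (h (m + 3)).sub ?_
  have hc : ∀ k, Tendsto (fun n => conj (coeff k (φ n))) atTop (𝓝 (conj (coeff k ψ))) := fun k =>
    (Complex.continuous_conj.tendsto _).comp (h k)
  split_ifs
  · exact hc 2
  · exact hc 1
  · exact hc 0
  · exact tendsto_const_nhds

lemma CT_TT {φ : ℕ → PowerSeries ℂ} {ψ : PowerSeries ℂ} (h : CT φ ψ) :
    CT (fun n => TT ε (φ n)) (TT ε ψ) := by
  have hY : CT (fun n => YY (φ n)) (YY ψ) := by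
    unfold YY
    exact ((h.pow 5).add (((CT_const _).mul (CT_const _)).mul (h.pow 3))).add
      (((CT_const _).mul (CT_const _)).mul h)
  unfold TT
  exact ((CT_const _).sub (CT_const _)).sub ((CT_const _).mul ((CT_const _).mul (CT_Br hY)))

/-- **The fixed point.** -/
theorem exists_fixedPoint (hε : 0 ≤ ε) (hε1 : 2000 * ε ≤ 1) :
    ∃ K : PowerSeries ℂ, TT ε K = K ∧ NB (K - (1 - X)) (393 * ε) := by
  choose κ hκ using Kn_coeff_tendsto hε hε1
  set K : PowerSeries ℂ := mk κ with hK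
  have hCT : CT (Kn ε) K := fun m => by rw [hK, coeff_mk]; exact hκ m
  have hfix : TT ε K = K := by
    ext m
    have h1 := CT_TT (ε := ε) hCT m
    have h2 : Tendsto (fun n => coeff m (Kn ε (n + 1))) atTop (𝓝 (coeff m K)) :=
      (hCT m).comp (tendsto_add_atTop_nat 1)
    exact tendsto_nhds_unique h1 h2
  refine ⟨K, hfix, fun M => ?_⟩
  have h1 : Tendsto (fun n => ∑ m ∈ Finset.range M, ‖coeff m (Kn ε (n + 1) - (1 - X))‖) atTop
      (𝓝 (∑ m ∈ Finset.range M, ‖coeff m (K - (1 - X))‖)) := by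
    refine tendsto_finsetSum _ fun m _ => ?_
    have := ((hCT.sub (CT_const (1 - X))) m).norm
    exact this.comp (tendsto_add_atTop_nat 1)
  exact le_of_tendsto' h1 fun n => NB_TT_sub_start hε (Kn_bound hε hε1 n) M

end Pool.Agent.Lib.MP_74c692_an
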