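import Pool.Agent.Lib.MP_74c692_an.KData
import Pool.Agent.Lib.MP_74c692_an.AreaSeries

open Filter Topology Complex
open scoped ComplexConjugate

namespace Pool.Agent.Lib.MP_74c692_an

/-- the function `u z = K (z ^ 2) / z` -/
noncomputable def uu (K : ℂ → ℂ) (z : ℂ) : ℂ := K (z ^ 2) / z

/-- the polynomial `P` -/
noncomputable def PP (ε : ℝ) (v : ℂ) : ℂ := v + I * ε * (v ^ 5 + 5 * v ^ 3 + 5 * v)

/-- the function `H` -/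
noncomputable def HH (ε : ℝ) (y₁ y₂ z : ℂ) : ℂ := hh ε y₁ y₂ (z ^ 2) / z ^ 5

variable {ε : ℝ} {K : ℂ → ℂ} {y₁ y₂ : ℂ}

lemma sq_norm_le {z : ℂ} (hz : ‖z‖ ≤ 1) : ‖z ^ 2‖ ≤ 1 := by
  rw [norm_pow]; exact pow_le_one₀ (norm_nonneg _) hz

lemma KData.PP_uu (h : KData ε K y₁ y₂) {z : ℂ} (hz : ‖z‖ ≤ 1) (hz0 : z ≠ 0) :
    PP ε (uu K z) = HH ε y₁ y₂ z := by
  unfold HH
  rw [← h.eqn (z ^ 2) (sq_norm_le hz)]
  unfold PP uu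
  field_simp

/-- the coefficients of `H` -/
noncomputable def AA (x₁ x₃ x₅ a b : ℂ) : ℂ :=
  x₁ + x₃ * (a ^ 2 + a * b + b ^ 2) + x₅ * (a ^ 4 + a ^ 3 * b + a ^ 2 * b ^ 2 + a * b ^ 3 + b ^ 4)

lemma HH_sub {z₁ z₂ : ℂ} (h1 : z₁ ≠ 0) (h2 : z₂ ≠ 0) :
    HH ε y₁ y₂ z₁ - HH ε y₁ y₂ z₂ = (z₂ - z₁) *
      (AA (1 + I * ε * y₂) (I * ε * y₁) (I * ε) z₁⁻¹ z₂⁻¹ / (z₁ * z₂) +
        conj (AA (1 + I * ε * y₂) (I * ε * y₁) (I * ε) (conj z₁) (conj z₂))) := by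
  unfold HH hh AA
  simp only [map_add, map_mul, map_pow, Complex.conj_conj, map_one, Complex.conj_I,
    Complex.conj_ofReal]
  field_simp
  ring

lemma AA_lip {x₁ x₃ x₅ a b a' b' : ℂ} (ha : ‖a‖ ≤ 2) (hb : ‖b‖ ≤ 2) (ha' : ‖a'‖ ≤ 2)
    (hb' : ‖b'‖ ≤ 2) :
    ‖AA x₁ x₃ x₅ a b - AA x₁ x₃ x₅ a' b'‖ ≤
      (6 * ‖x₃‖ + 80 * ‖x₅‖) * (‖a - a'‖ + ‖b - b'‖) := by
  have e : AA x₁ x₃ x₅ a b - AA x₁ x₃ x₅ a' b' =
      (a - a') * (x₃ * (a + a' + b) + x₅ * (a ^ 3 + a ^ 2 * a' + a * a' ^ 2 + a' ^ 3 +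
        (a ^ 2 + a * a' + a' ^ 2) * b + (a + a') * b ^ 2 + b ^ 3)) +
      (b - b') * (x₃ * (a' + b + b') + x₅ * (a' ^ 3 + a' ^ 2 * (b + b') +
        a' * (b ^ 2 + b * b' + b' ^ 2) + (b ^ 3 + b ^ 2 * b' + b * b' ^ 2 + b' ^ 3))) := by
    unfold AA; ring
  have p2 : ∀ {c : ℂ}, ‖c‖ ≤ 2 → ‖c ^ 2‖ ≤ 4 := fun {c} hc => by
    rw [norm_pow]; nlinarith [norm_nonneg c]
  have p3 : ∀ {c : ℂ}, ‖c‖ ≤ 2 → ‖c ^ 3‖ ≤ 8 := fun {c} hc => by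
    rw [norm_pow]
    calc ‖c‖ ^ 3 ≤ 2 ^ 3 := pow_le_pow_left₀ (norm_nonneg _) hc 3
      _ = 8 := by norm_num
  have b1 : ‖x₃ * (a + a' + b) + x₅ * (a ^ 3 + a ^ 2 * a' + a * a' ^ 2 + a' ^ 3 +
        (a ^ 2 + a * a' + a' ^ 2) * b + (a + a') * b ^ 2 + b ^ 3)‖ ≤ 6 * ‖x₃‖ + 80 * ‖x₅‖ := by
    refine (norm_add_le_of_le (norm_mul_le_of_le le_rfl
      (norm_add_le_of_le (norm_add_le_of_le ha ha') hb))
      (norm_mul_le_of_le le_rfl (norm_add_le_of_le (norm_add_le_of_le (norm_add_le_of_le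
        (norm_add_le_of_le (norm_add_le_of_le (norm_add_le_of_le (p3 ha)
          (norm_mul_le_of_le (p2 ha) ha')) (norm_mul_le_of_le ha (p2 ha'))) (p3 ha'))
        (norm_mul_le_of_le (norm_add_le_of_le (norm_add_le_of_le (p2 ha)
          (norm_mul_le_of_le ha ha')) (p2 ha')) hb))
        (norm_mul_le_of_le (norm_add_le_of_le ha ha') (p2 hb))) (p3 hb)))).trans
      (le_of_eq (by ring))
  have b2 : ‖x₃ * (a' + b + b') + x₅ * (a' ^ 3 + a' ^ 2 * (b + b') +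
        a' * (b ^ 2 + b * b' + b' ^ 2) + (b ^ 3 + b ^ 2 * b' + b * b' ^ 2 + b' ^ 3))‖ ≤
      6 * ‖x₃‖ + 80 * ‖x₅‖ := by
    refine (norm_add_le_of_le (norm_mul_le_of_le le_rfl
      (norm_add_le_of_le (norm_add_le_of_le ha' hb) hb'))
      (norm_mul_le_of_le le_rfl (norm_add_le_of_le (norm_add_le_of_le (norm_add_le_of_le
        (p3 ha') (norm_mul_le_of_le (p2 ha') (norm_add_le_of_le hb hb')))
        (norm_mul_le_of_le ha' (norm_add_le_of_le (norm_add_le_of_le (p2 hb)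
          (norm_mul_le_of_le hb hb')) (p2 hb'))))
        (norm_add_le_of_le (norm_add_le_of_le (norm_add_le_of_le (p3 hb)
          (norm_mul_le_of_le (p2 hb) hb')) (norm_mul_le_of_le hb (p2 hb'))) (p3 hb'))))).trans
      (le_of_eq (by ring))
  rw [e]
  refine (norm_add_le_of_le (norm_mul_le_of_le le_rfl b1) (norm_mul_le_of_le le_rfl b2)).trans
    (le_of_eq (by ring))

lemma AA_near {x₁ x₃ x₅ a b : ℂ} (ha : ‖a‖ ≤ 1) (hb : ‖b‖ ≤ 1) :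
    ‖AA x₁ x₃ x₅ a b - x₁‖ ≤ 3 * ‖x₃‖ + 5 * ‖x₅‖ := by
  have e : AA x₁ x₃ x₅ a b - x₁ = x₃ * (a ^ 2 + a * b + b ^ 2) +
      x₅ * (a ^ 4 + a ^ 3 * b + a ^ 2 * b ^ 2 + a * b ^ 3 + b ^ 4) := by
    unfold AA; ring
  have p : ∀ {c : ℂ} (n : ℕ), ‖c‖ ≤ 1 → ‖c ^ n‖ ≤ 1 := fun {c} n hc => by
    rw [norm_pow]; exact pow_le_one₀ (norm_nonneg _) hc
  rw [e]
  refine (norm_add_le_of_le (norm_mul_le_of_le le_rfl (norm_add_le_of_le (norm_add_le_of_le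
    (p 2 ha) (norm_mul_le_of_le ha hb)) (p 2 hb))) (norm_mul_le_of_le le_rfl
      (norm_add_le_of_le (norm_add_le_of_le (norm_add_le_of_le (norm_add_le_of_le (p 4 ha)
        (norm_mul_le_of_le (p 3 ha) hb)) (norm_mul_le_of_le (p 2 ha) (p 2 hb)))
        (norm_mul_le_of_le ha (p 3 hb))) (p 4 hb)))).trans (le_of_eq (by ring))

lemma inv_sub_conj {z : ℂ} (hz0 : z ≠ 0) (hz : ‖z‖ ≤ 1) (hz2 : 1 / 2 ≤ ‖z‖) :
    ‖z⁻¹ - conj z‖ ≤ 2 * (1 - ‖z‖ ^ 2) := by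
  have h1 : z⁻¹ - conj z = z⁻¹ * ((1 - ‖z‖ ^ 2 : ℝ) : ℂ) := by
    have : z * conj z = ((‖z‖ ^ 2 : ℝ) : ℂ) := by
      rw [Complex.mul_conj, Complex.normSq_eq_norm_sq]
    field_simp
    push_cast at this ⊢
    rw [this]
  have h2 : 0 ≤ 1 - ‖z‖ ^ 2 := by nlinarith [norm_nonneg z]
  rw [h1, norm_mul, Complex.norm_real, Real.norm_of_nonneg h2, norm_inv]
  refine mul_le_mul_of_nonneg_right ?_ h2
  rw [inv_le_comm₀ (norm_pos_iff.mpr hz0) (by norm_num)]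
  linarith

/-- **Injectivity.** -/
lemma KData.inj (h : KData ε K y₁ y₂) (hε : 0 ≤ ε) (hε1 : 100000 * ε ≤ 1) {z₁ z₂ : ℂ}
    (h1 : ‖z₁‖ ≤ 1) (h2 : ‖z₂‖ ≤ 1) (h10 : z₁ ≠ 0) (h20 : z₂ ≠ 0)
    (hu : uu K z₁ = uu K z₂) (hne : z₁ ≠ z₂) : ‖z₁‖ = 1 ∧ ‖z₂‖ = 1 := by
  have hd : 0 < ‖z₁ - z₂‖ := norm_pos_iff.mpr (sub_ne_zero.mpr hne)
  -- the case of a small point
  have small : ∀ {z₁ z₂ : ℂ}, ‖z₁‖ ≤ 1 / 2 → ‖z₂‖ ≤ 1 → z₁ ≠ 0 → z₂ ≠ 0 → z₁ ≠ z₂ →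
      uu K z₁ ≠ uu K z₂ := by
    intro z₁ z₂ h1 h2 h10 h20 hne hu
    have hd : 0 < ‖z₁ - z₂‖ := norm_pos_iff.mpr (sub_ne_zero.mpr hne)
    have h3 := h.lip z₁ z₂ h1 h2 h10 h20
    have h4 : (K (z₁ ^ 2) - (1 - z₁ ^ 2)) / z₁ - (K (z₂ ^ 2) - (1 - z₂ ^ 2)) / z₂ =
        (z₁ - z₂) * (1 / (z₁ * z₂) + 1) := by
      unfold uu at hu
      have e1 : (K (z₁ ^ 2) - (1 - z₁ ^ 2)) / z₁ = K (z₁ ^ 2) / z₁ - (1 - z₁ ^ 2) / z₁ := by ring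
      have e2 : (K (z₂ ^ 2) - (1 - z₂ ^ 2)) / z₂ = K (z₂ ^ 2) / z₂ - (1 - z₂ ^ 2) / z₂ := by ring
      rw [e1, e2, hu]
      field_simp
      ring
    rw [h4, norm_mul] at h3
    have h5 : 1 ≤ ‖1 / (z₁ * z₂) + 1‖ := by
      have h6 : 2 ≤ ‖1 / (z₁ * z₂)‖ := by
        rw [norm_div, norm_one, norm_mul, le_div_iff₀
          (mul_pos (norm_pos_iff.mpr h10) (norm_pos_iff.mpr h20))]
        nlinarith [norm_nonneg z₁, norm_nonneg z₂]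
      have h7 := norm_sub_norm_le (1 / (z₁ * z₂)) (-1)
      rw [sub_neg_eq_add, norm_neg, norm_one] at h7
      linarith
    nlinarith
  by_cases hs1 : ‖z₁‖ ≤ 1 / 2
  · exact absurd hu (small hs1 h2 h10 h20 hne)
  by_cases hs2 : ‖z₂‖ ≤ 1 / 2
  · exact absurd hu.symm (small hs2 h1 h20 h10 (Ne.symm hne))
  rw [not_le] at hs1 hs2
  -- both points are large
  have hH : HH ε y₁ y₂ z₁ - HH ε y₁ y₂ z₂ = 0 := by
    rw [← h.PP_uu h1 h10, ← h.PP_uu h2 h20, hu, sub_self]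
  rw [HH_sub h10 h20, mul_eq_zero, sub_eq_zero] at hH
  have hH' := hH.resolve_left (Ne.symm hne)
  set x₁ : ℂ := 1 + I * ε * y₂ with hx1
  set x₃ : ℂ := I * ε * y₁ with hx3
  set x₅ : ℂ := I * ε with hx5
  have nx5 : ‖x₅‖ = ε := by
    rw [hx5, norm_mul, Complex.norm_I, one_mul, Complex.norm_real, Real.norm_of_nonneg hε]
  have nx3 : ‖x₃‖ ≤ 393 * ε := by
    rw [hx3, norm_mul, nx5, mul_comm]; exact mul_le_mul_of_nonneg_right h.b1 hε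
  have nx1 : ‖x₁ - 1‖ ≤ 393 * ε := by
    have : x₁ - 1 = x₅ * y₂ := by rw [hx1]; ring
    rw [this, norm_mul, nx5, mul_comm]; exact mul_le_mul_of_nonneg_right h.b2 hε
  set A := AA x₁ x₃ x₅ z₁⁻¹ z₂⁻¹ with hA
  set A' := AA x₁ x₃ x₅ (conj z₁) (conj z₂) with hA'
  have hn1 : 0 < ‖z₁‖ := norm_pos_iff.mpr h10
  have hn2 : 0 < ‖z₂‖ := norm_pos_iff.mpr h20
  have hmod : ‖A‖ = ‖z₁‖ * ‖z₂‖ * ‖A'‖ := by
    have e1 : A = -(z₁ * z₂) * conj A' := by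
      have : A / (z₁ * z₂) = - conj A' := eq_neg_of_add_eq_zero_left hH'
      rw [div_eq_iff (mul_ne_zero h10 h20)] at this
      rw [this]; ring
    rw [e1, norm_mul, norm_neg, norm_mul, RCLike.norm_conj]
  have hc1 : ‖conj z₁‖ = ‖z₁‖ := RCLike.norm_conj _
  have hc2 : ‖conj z₂‖ = ‖z₂‖ := RCLike.norm_conj _
  have hi1 : ‖z₁⁻¹‖ ≤ 2 := by
    rw [norm_inv, inv_le_comm₀ hn1 (by norm_num)]; linarith
  have hi2 : ‖z₂⁻¹‖ ≤ 2 := by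
    rw [norm_inv, inv_le_comm₀ hn2 (by norm_num)]; linarith
  have hlip := AA_lip (x₁ := x₁) (x₃ := x₃) (x₅ := x₅) hi1 hi2 (a' := conj z₁) (b' := conj z₂)
    (by rw [hc1]; linarith) (by rw [hc2]; linarith)
  have hnear := AA_near (x₁ := x₁) (x₃ := x₃) (x₅ := x₅) (a := conj z₁) (b := conj z₂)
    (by rw [hc1]; exact h1) (by rw [hc2]; exact h2)
  rw [← hA, ← hA'] at hlip
  rw [← hA'] at hnear
  have hA'low : 1 / 2 ≤ ‖A'‖ := by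
    have e2 : (1 : ℂ) = A' - (A' - x₁) - (x₁ - 1) := by ring
    have e3 : (1 : ℝ) ≤ ‖A'‖ + ‖A' - x₁‖ + ‖x₁ - 1‖ := by
      calc (1 : ℝ) = ‖(1 : ℂ)‖ := norm_one.symm
        _ = ‖A' - (A' - x₁) - (x₁ - 1)‖ := by rw [← e2]
        _ ≤ _ := (norm_sub_le _ _).trans (add_le_add (norm_sub_le _ _) le_rfl)
    nlinarith
  have d1 := inv_sub_conj h10 h1 hs1.le
  have d2 := inv_sub_conj h20 h2 hs2.le
  have e4 : ‖A'‖ - ‖A‖ ≤ ‖A - A'‖ := by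
    rw [norm_sub_rev]; exact norm_sub_norm_le _ _
  have e5 : ‖A - A'‖ ≤ 5000 * ε * ((1 - ‖z₁‖ ^ 2) + (1 - ‖z₂‖ ^ 2)) := by
    refine hlip.trans ?_
    have e6 : 6 * ‖x₃‖ + 80 * ‖x₅‖ ≤ 2500 * ε := by rw [nx5]; linarith
    have e7 : ‖z₁⁻¹ - conj z₁‖ + ‖z₂⁻¹ - conj z₂‖ ≤
        2 * ((1 - ‖z₁‖ ^ 2) + (1 - ‖z₂‖ ^ 2)) := by linarith
    calc _ ≤ (2500 * ε) * (2 * ((1 - ‖z₁‖ ^ 2) + (1 - ‖z₂‖ ^ 2))) :=
          mul_le_mul e6 e7 (by positivity) (by positivity)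
      _ = _ := by ring
  rw [hmod] at e4
  set p := ‖z₁‖ * ‖z₂‖ with hp
  have hp1 : p ≤ 1 := by rw [hp]; nlinarith
  have e8 : (1 - ‖z₁‖ ^ 2) + (1 - ‖z₂‖ ^ 2) ≤ 2 * (1 - p) := by
    rw [hp]; nlinarith [sq_nonneg (‖z₁‖ - ‖z₂‖)]
  have e9 : ‖A'‖ * (1 - p) ≤ 10000 * ε * (1 - p) := by
    have : ‖A'‖ * (1 - p) = ‖A'‖ - p * ‖A'‖ := by ring
    rw [this]
    refine (e4.trans e5).trans ?_
    calc 5000 * ε * (1 - ‖z₁‖ ^ 2 + (1 - ‖z₂‖ ^ 2)) ≤ 5000 * ε * (2 * (1 - p)) :=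
          mul_le_mul_of_nonneg_left e8 (by positivity)
      _ = _ := by ring
  have e10 : p = 1 := by
    by_contra hne1
    have hlt : 0 < 1 - p := by
      have := lt_of_le_of_ne hp1 hne1; linarith
    have := le_of_mul_le_mul_right e9 hlt
    linarith
  rw [hp] at e10
  constructor
  · refine le_antisymm h1 ?_
    rw [← e10]
    exact mul_le_of_le_one_right hn1.le h2
  · refine le_antisymm h2 ?_
    rw [← e10]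
    exact mul_le_of_le_one_left hn2.le h1

end Pool.Agent.Lib.MP_74c692_an
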