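import Pool.Agent.Lib.MP_74c692_an.FixedPoint

open Filter Topology PowerSeries
open scoped ComplexConjugate

namespace Pool.Agent.Lib.MP_74c692_an

/-! ### Evaluation of absolutely summable power series on the closed disc -/

/-- evaluation -/
noncomputable def ev (φ : PowerSeries ℂ) (s : ℂ) : ℂ := ∑' m, coeff m φ * s ^ m

lemma NB_summable {φ : PowerSeries ℂ} {c : ℝ} (h : NB φ c) : Summable fun m => ‖coeff m φ‖ :=
  summable_of_sum_range_le (fun _ => norm_nonneg _) h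

lemma NB_tsum_le {φ : PowerSeries ℂ} {c : ℝ} (h : NB φ c) : ∑' m, ‖coeff m φ‖ ≤ c :=
  Real.tsum_le_of_sum_range_le (fun _ => norm_nonneg _) h

lemma term_le {φ : PowerSeries ℂ} {s : ℂ} (hs : ‖s‖ ≤ 1) (m : ℕ) :
    ‖coeff m φ * s ^ m‖ ≤ ‖coeff m φ‖ := by
  rw [norm_mul, norm_pow]
  exact mul_le_of_le_one_right (norm_nonneg _) (pow_le_one₀ (norm_nonneg _) hs)

lemma term_summable {φ : PowerSeries ℂ} {c : ℝ} (h : NB φ c) {s : ℂ} (hs : ‖s‖ ≤ 1) :
    Summable fun m => ‖coeff m φ * s ^ m‖ :=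
  Summable.of_nonneg_of_le (fun _ => norm_nonneg _) (fun m => term_le hs m) (NB_summable h)

lemma ev_hasSum {φ : PowerSeries ℂ} {c : ℝ} (h : NB φ c) {s : ℂ} (hs : ‖s‖ ≤ 1) :
    HasSum (fun m => coeff m φ * s ^ m) (ev φ s) := (term_summable h hs).of_norm.hasSum

lemma ev_norm_le {φ : PowerSeries ℂ} {c : ℝ} (h : NB φ c) {s : ℂ} (hs : ‖s‖ ≤ 1) :
    ‖ev φ s‖ ≤ c :=
  (norm_tsum_le_tsum_norm (term_summable h hs)).trans
    (((term_summable h hs).tsum_le_tsum (fun m => term_le hs m) (NB_summable h)).trans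
      (NB_tsum_le h))

lemma ev_add {φ ψ : PowerSeries ℂ} {c d : ℝ} (h : NB φ c) (h' : NB ψ d) {s : ℂ} (hs : ‖s‖ ≤ 1) :
    ev (φ + ψ) s = ev φ s + ev ψ s := by
  refine HasSum.tsum_eq ?_
  refine ((ev_hasSum h hs).add (ev_hasSum h' hs)).congr_fun fun m => ?_
  rw [map_add]; ring

lemma ev_sub {φ ψ : PowerSeries ℂ} {c d : ℝ} (h : NB φ c) (h' : NB ψ d) {s : ℂ} (hs : ‖s‖ ≤ 1) :
    ev (φ - ψ) s = ev φ s - ev ψ s := by
  refine HasSum.tsum_eq ?_
  refine ((ev_hasSum h hs).sub (ev_hasSum h' hs)).congr_fun fun m => ?_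
  rw [map_sub]; ring

lemma ev_mul {φ ψ : PowerSeries ℂ} {c d : ℝ} (h : NB φ c) (h' : NB ψ d) {s : ℂ} (hs : ‖s‖ ≤ 1) :
    ev (φ * ψ) s = ev φ s * ev ψ s := by
  unfold ev
  rw [tsum_mul_tsum_eq_tsum_sum_antidiagonal_of_summable_norm (term_summable h hs)
    (term_summable h' hs)]
  refine tsum_congr fun m => ?_
  rw [coeff_mul, Finset.sum_mul]
  refine Finset.sum_congr rfl fun p hp => ?_
  rw [Finset.HasAntidiagonal.mem_antidiagonal] at hp
  rw [← hp, pow_add]; ring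

lemma ev_C (a s : ℂ) : ev (C a) s = a := by
  unfold ev
  rw [tsum_eq_single 0 fun m hm => by rw [coeff_C, if_neg hm, zero_mul]]
  simp

lemma ev_one (s : ℂ) : ev 1 s = 1 := by
  have := ev_C 1 s
  simpa using this

lemma ev_X (s : ℂ) : ev X s = s := by
  unfold ev
  rw [tsum_eq_single 1 fun m hm => by rw [coeff_X, if_neg hm, zero_mul]]
  simp

lemma ev_zero (φ : PowerSeries ℂ) : ev φ 0 = coeff 0 φ := by
  unfold ev
  rw [tsum_eq_single 0 fun m hm => by rw [zero_pow hm, mul_zero]]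
  simp

lemma ev_pow {φ : PowerSeries ℂ} {c : ℝ} (h : NB φ c) {s : ℂ} (hs : ‖s‖ ≤ 1) (k : ℕ) :
    NB (φ ^ k) (c ^ k) ∧ ev (φ ^ k) s = ev φ s ^ k := by
  induction k with
  | zero => exact ⟨by simpa using NB_one, by simp [ev_one]⟩
  | succ k ih =>
    refine ⟨by rw [pow_succ, pow_succ]; exact ih.1.mul h, ?_⟩
    rw [pow_succ, pow_succ, ev_mul ih.1 h hs, ih.2]

lemma ev_continuousOn {φ : PowerSeries ℂ} {c : ℝ} (h : NB φ c) :
    ContinuousOn (ev φ) (Metric.closedBall 0 1) := by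
  refine continuousOn_tsum (fun m => by fun_prop) (NB_summable h) fun m s hs => ?_
  exact term_le (by simpa using hs) m

lemma ev_differentiableOn {φ : PowerSeries ℂ} {c : ℝ} (h : NB φ c) :
    DifferentiableOn ℂ (ev φ) (Metric.ball 0 1) := by
  refine Complex.differentiableOn_tsum_of_summable_norm (NB_summable h) (fun m => by fun_prop)
    Metric.isOpen_ball fun m s hs => ?_
  exact term_le (by simpa using (Metric.ball_subset_closedBall hs)) m

/-! ### The data of the extremal function -/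

/-- the right-hand side of the functional equation -/
noncomputable def hh (ε : ℝ) (y₁ y₂ s : ℂ) : ℂ :=
  Complex.I * ε + Complex.I * ε * y₁ * s + (1 + Complex.I * ε * y₂) * s ^ 2 -
    (1 - Complex.I * ε * conj y₂) * s ^ 3 + Complex.I * ε * conj y₁ * s ^ 4 +
    Complex.I * ε * s ^ 5

/-- the properties of the fixed point that we use -/
structure KData (ε : ℝ) (K : ℂ → ℂ) (y₁ y₂ : ℂ) : Prop where
  diff : DifferentiableOn ℂ K (Metric.ball 0 1)
  cont : ContinuousOn K (Metric.closedBall 0 1)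
  K0 : K 0 = 1
  near : ∀ s : ℂ, ‖s‖ ≤ 1 → ‖K s - (1 - s)‖ ≤ 393 * ε
  lip : ∀ z₁ z₂ : ℂ, ‖z₁‖ ≤ 1 / 2 → ‖z₂‖ ≤ 1 → z₁ ≠ 0 → z₂ ≠ 0 →
    ‖(K (z₁ ^ 2) - (1 - z₁ ^ 2)) / z₁ - (K (z₂ ^ 2) - (1 - z₂ ^ 2)) / z₂‖ ≤
      786 * ε * ‖z₁ - z₂‖
  eqn : ∀ s : ℂ, ‖s‖ ≤ 1 → s ^ 2 * K s + Complex.I * ε * (K s ^ 5 + 5 * s * K s ^ 3 +
    5 * s ^ 2 * K s) = hh ε y₁ y₂ s
  b1 : ‖y₁‖ ≤ 393
  b2 : ‖y₂‖ ≤ 393

lemma X3_Br (Y : PowerSeries ℂ) : X ^ 3 * Br Y = Y - (C (coeff 0 Y) + C (coeff 1 Y) * X +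
    C (coeff 2 Y) * X ^ 2 + C (conj (coeff 2 Y)) * X ^ 3 + C (conj (coeff 1 Y)) * X ^ 4 +
    C (conj (coeff 0 Y)) * X ^ 5) := by
  ext m
  have hX : C (coeff 1 Y) * X = C (coeff 1 Y) * X ^ 1 := by rw [pow_one]
  rw [hX]
  simp only [map_sub, map_add, coeff_C_mul_X_pow, coeff_C, coeff_X_pow_mul']
  by_cases h : 3 ≤ m
  · obtain ⟨n, rfl⟩ : ∃ n, m = n + 3 := ⟨m - 3, by omega⟩
    rw [if_pos h]
    unfold Br
    rw [coeff_mk]
    simp only [Nat.add_sub_cancel]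
    by_cases h0 : n = 0
    · subst h0; simp
    · by_cases h1 : n = 1
      · subst h1; simp
      · by_cases h2 : n = 2
        · subst h2; simp
        · simp [h0, h1, h2]
  · rw [if_neg h]
    have : m = 0 ∨ m = 1 ∨ m = 2 := by omega
    rcases this with rfl | rfl | rfl <;> simp

lemma pow_sub_le {a b : ℂ} (ha : ‖a‖ ≤ 1 / 2) (hb : ‖b‖ ≤ 1) (n : ℕ) :
    ‖a ^ n - b ^ n‖ ≤ 2 * ‖a - b‖ := by
  have h1 : a ^ n - b ^ n = (∑ i ∈ Finset.range n, a ^ i * b ^ (n - 1 - i)) * (a - b) :=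
    (Commute.geom_sum₂_mul (Commute.all a b) n).symm
  rw [h1, norm_mul]
  refine mul_le_mul_of_nonneg_right ?_ (norm_nonneg _)
  calc ‖∑ i ∈ Finset.range n, a ^ i * b ^ (n - 1 - i)‖
      ≤ ∑ i ∈ Finset.range n, (1 / 2 : ℝ) ^ i := by
        refine norm_sum_le_of_le _ fun i _ => ?_
        rw [norm_mul, norm_pow, norm_pow]
        calc ‖a‖ ^ i * ‖b‖ ^ (n - 1 - i) ≤ (1 / 2) ^ i * 1 := by
              gcongr
              exact pow_le_one₀ (norm_nonneg _) hb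
          _ = _ := mul_one _
    _ ≤ 2 := by
        have := (summable_geometric_two).sum_le_tsum (Finset.range n) fun _ _ => by positivity
        rwa [tsum_geometric_two] at this

theorem exists_KData {ε : ℝ} (hε : 0 ≤ ε) (hε1 : 2000 * ε ≤ 1) :
    ∃ (K : ℂ → ℂ) (y₁ y₂ : ℂ), KData ε K y₁ y₂ := by
  obtain ⟨φ, hfix, hnear⟩ := exists_fixedPoint hε hε1
  have hφ : NB φ 3 := by
    have := hnear.add NB_start
    rw [sub_add_cancel] at this
    exact this.mono (by linarith)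
  have hY := NB_YY hφ
  set Y := YY φ with hYdef
  have hφ0 : coeff 0 φ = 1 := by
    rw [← hfix]; unfold TT
    simp
  have hy0 : coeff 0 Y = 1 := by
    rw [hYdef]; unfold YY
    have : constantCoeff φ = 1 := by rw [← coeff_zero_eq_constantCoeff_apply]; exact hφ0
    simp [this]
  -- the polynomial identity
  have hid : X ^ 2 * φ + C (Complex.I * ε) * Y = X ^ 2 - X ^ 3 + C (Complex.I * ε) *
      (C (coeff 0 Y) + C (coeff 1 Y) * X +
    C (coeff 2 Y) * X ^ 2 + C (conj (coeff 2 Y)) * X ^ 3 + C (conj (coeff 1 Y)) * X ^ 4 +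
    C (conj (coeff 0 Y)) * X ^ 5) := by
    have h1 := X3_Br Y
    have h2 : φ = 1 - X - C (Complex.I * ε) * (X * Br Y) := hfix.symm
    conv_lhs => rw [h2]
    linear_combination (-C (Complex.I * ε)) * h1
  refine ⟨ev φ, coeff 1 Y, coeff 2 Y, ⟨ev_differentiableOn hφ, ev_continuousOn hφ,
    by rw [ev_zero, hφ0], fun s hs => ?_, fun z₁ z₂ hz₁ hz₂ h1 h2 => ?_, fun s hs => ?_,
    hY.coeff_le 1, hY.coeff_le 2⟩⟩
  · have h1 := ev_norm_le hnear hs
    rwa [ev_sub hφ NB_start hs, ev_sub NB_one NB_X hs, ev_one, ev_X] at h1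
  · -- the Lipschitz bound
    have hz₁' : ‖z₁ ^ 2‖ ≤ 1 := by
      rw [norm_pow]; exact pow_le_one₀ (norm_nonneg _) (hz₁.trans (by norm_num))
    have hz₂' : ‖z₂ ^ 2‖ ≤ 1 := by
      rw [norm_pow]; exact pow_le_one₀ (norm_nonneg _) hz₂
    set e := φ - (1 - X) with he
    have hcc : constantCoeff φ = 1 := by rw [← coeff_zero_eq_constantCoeff_apply]; exact hφ0
    have he0 : coeff 0 e = 0 := by rw [he]; simp [hcc]
    have hev : ∀ z : ℂ, ‖z ^ 2‖ ≤ 1 → ev φ (z ^ 2) - (1 - z ^ 2) = ev e (z ^ 2) := by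
      intro z hz
      rw [he, ev_sub hφ NB_start hz, ev_sub NB_one NB_X hz, ev_one, ev_X]
    rw [hev _ hz₁', hev _ hz₂']
    have hser : ∀ z : ℂ, ‖z ^ 2‖ ≤ 1 → z ≠ 0 →
        HasSum (fun m => coeff (m + 1) e * z ^ (2 * m + 1)) (ev e (z ^ 2) / z) := by
      intro z hz hz0
      have h3 := (hasSum_nat_add_iff' 1).mpr (ev_hasSum hnear hz)
      simp only [Finset.sum_range_one, pow_zero, mul_one] at h3
      rw [he0, sub_zero] at h3
      refine (h3.div_const z).congr_fun fun m => ?_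
      rw [← pow_mul, show 2 * (m + 1) = (2 * m + 1) + 1 by ring, pow_succ z (2 * m + 1)]
      field_simp
    have h4 := (hser z₁ hz₁' h1).sub (hser z₂ hz₂' h2)
    rw [← h4.tsum_eq]
    have hsum1 : Summable fun m => ‖coeff (m + 1) e‖ :=
      (summable_nat_add_iff 1).mpr (NB_summable hnear)
    have hsum : Summable fun m => ‖coeff (m + 1) e‖ * (2 * ‖z₁ - z₂‖) := hsum1.mul_right _
    have hterm : ∀ m, ‖coeff (m + 1) e * z₁ ^ (2 * m + 1) - coeff (m + 1) e * z₂ ^ (2 * m + 1)‖ ≤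
        ‖coeff (m + 1) e‖ * (2 * ‖z₁ - z₂‖) := by
      intro m
      rw [← mul_sub, norm_mul]
      exact mul_le_mul_of_nonneg_left (pow_sub_le hz₁ hz₂ _) (norm_nonneg _)
    refine (tsum_of_norm_bounded hsum.hasSum hterm).trans ?_
    rw [tsum_mul_right]
    have h5 : ∑' m, ‖coeff (m + 1) e‖ ≤ 393 * ε := by
      refine Real.tsum_le_of_sum_range_le (fun _ => norm_nonneg _) fun M => ?_
      have := hnear (M + 1)
      rw [Finset.sum_range_succ'] at this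
      exact (le_add_of_nonneg_right (norm_nonneg _)).trans this
    have h6 : (0 : ℝ) ≤ 2 * ‖z₁ - z₂‖ := by positivity
    calc (∑' m, ‖coeff (m + 1) e‖) * (2 * ‖z₁ - z₂‖) ≤ 393 * ε * (2 * ‖z₁ - z₂‖) :=
          mul_le_mul_of_nonneg_right h5 h6
      _ = _ := by ring
  · -- the functional equation
    have h5 : NB (C (5 : ℂ)) 5 := by simpa using NB_C (5 : ℂ)
    have hX2 := ev_pow NB_X hs 2
    have hX3 := ev_pow NB_X hs 3
    have hX4 := ev_pow NB_X hs 4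
    have hX5 := ev_pow NB_X hs 5
    have hφ5 := ev_pow hφ hs 5
    have hφ3 := ev_pow hφ hs 3
    have hYev : ev Y s = ev φ s ^ 5 + 5 * s * ev φ s ^ 3 + 5 * s ^ 2 * ev φ s := by
      rw [hYdef]; unfold YY
      rw [ev_add (hφ5.1.add ((h5.mul NB_X).mul hφ3.1)) ((h5.mul hX2.1).mul hφ) hs,
        ev_add hφ5.1 ((h5.mul NB_X).mul hφ3.1) hs, ev_mul (h5.mul NB_X) hφ3.1 hs,
        ev_mul h5 NB_X hs, ev_mul (h5.mul hX2.1) hφ hs, ev_mul h5 hX2.1 hs, hφ5.2, hφ3.2, hX2.2,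
        ev_C, ev_X]
    have h0 := NB_C (coeff 0 Y)
    have h1 := (NB_C (coeff 1 Y)).mul NB_X
    have h2 := (NB_C (coeff 2 Y)).mul hX2.1
    have h3 := (NB_C (conj (coeff 2 Y))).mul hX3.1
    have h4 := (NB_C (conj (coeff 1 Y))).mul hX4.1
    have h6 := (NB_C (conj (coeff 0 Y))).mul hX5.1
    have hI := NB_C (Complex.I * ε)
    have h7 : ev (X ^ 2 * φ + C (Complex.I * ε) * Y) s = ev (X ^ 2 - X ^ 3 +
      C (Complex.I * ε) * (C (coeff 0 Y) + C (coeff 1 Y) * X + C (coeff 2 Y) * X ^ 2 +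
        C (conj (coeff 2 Y)) * X ^ 3 + C (conj (coeff 1 Y)) * X ^ 4 +
        C (conj (coeff 0 Y)) * X ^ 5)) s := by rw [hid]
    rw [ev_add (hX2.1.mul hφ) (hI.mul hY) hs, ev_mul hX2.1 hφ hs, ev_mul hI hY hs, hYev,
      ev_add (hX2.1.sub hX3.1) (hI.mul (((((h0.add h1).add h2).add h3).add h4).add h6)) hs,
      ev_sub hX2.1 hX3.1 hs, ev_mul hI (((((h0.add h1).add h2).add h3).add h4).add h6) hs,
      ev_add ((((h0.add h1).add h2).add h3).add h4) h6 hs,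
      ev_add (((h0.add h1).add h2).add h3) h4 hs, ev_add ((h0.add h1).add h2) h3 hs,
      ev_add (h0.add h1) h2 hs, ev_add h0 h1 hs,
      ev_mul (NB_C _) NB_X hs, ev_mul (NB_C _) hX2.1 hs, ev_mul (NB_C _) hX3.1 hs,
      ev_mul (NB_C _) hX4.1 hs, ev_mul (NB_C _) hX5.1 hs, hX2.2, hX3.2, hX4.2, hX5.2] at h7
    simp only [ev_C, ev_X] at h7
    rw [h7, hy0]
    unfold hh
    rw [map_one]
    ring

end Pool.Agent.Lib.MP_74c692_an
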