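import Pool.Agent.Lib.MP_74c692_an.AreaSeries

set_option autoImplicit false

open Filter Topology Complex Set

namespace Pool.Agent.Lib.MP_74c692_an

/-! ### The square root transform of a function of class S -/

lemma tc_mul_id_succ {V : ℂ → ℂ} (hV : DifferentiableOn ℂ V (Metric.ball 0 1)) (n : ℕ) :
    tc (fun s => s * V s) (n + 1) = tc V n := by
  have hVa : ContDiffAt ℂ (n + 1 : ℕ) V 0 :=
    (hV.analyticAt (Metric.ball_mem_nhds 0 one_pos)).contDiffAt
  have hid : ContDiffAt ℂ (n + 1 : ℕ) (fun s : ℂ => s) 0 := contDiff_fun_id.contDiffAt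
  unfold tc
  rw [iteratedDeriv_fun_mul hid hVa, Finset.sum_eq_single 1]
  · rw [iteratedDeriv_fun_id_zero, if_pos rfl, Nat.choose_one_right, Nat.factorial_succ]
    have h1 : ((n.factorial : ℕ) : ℂ) ≠ 0 := by exact_mod_cast n.factorial_ne_zero
    have h2 : ((n : ℂ) + 1) ≠ 0 := by exact_mod_cast n.succ_ne_zero
    simp only [Nat.add_sub_cancel]
    push_cast
    field_simp
  · intro i _ hi
    rw [iteratedDeriv_fun_id_zero, if_neg hi]
    ring
  · intro h
    exact absurd (Finset.mem_range.mpr (by omega)) h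

lemma tc_zero (V : ℂ → ℂ) : tc V 0 = V 0 := by
  simp [tc]

theorem exists_Kg {g : ℂ → ℂ} (hg : DifferentiableOn ℂ g (Metric.ball 0 1))
    (hinj : Set.InjOn g (Metric.ball 0 1)) (h0 : g 0 = 0) (h1 : deriv g 0 = 1) :
    ∃ K : ℂ → ℂ, DifferentiableOn ℂ K (Metric.ball 0 1) ∧ K 0 = 1 ∧
      (∀ s, ‖s‖ < 1 → K s ≠ 0) ∧ (∀ s, ‖s‖ < 1 → K s ^ 2 * g s = s) ∧
      PoleMap (fun z => K (z ^ 2)) ∧ (∀ s, ‖s‖ ≤ 1 / 4 → ‖K s - 1‖ ≤ 1 / 3) := by
  have hball : Metric.ball (0 : ℂ) 1 ∈ 𝓝 (0 : ℂ) := Metric.ball_mem_nhds 0 one_pos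
  -- the quotient
  set q : ℂ → ℂ := dslope g 0 with hq
  have hqd : DifferentiableOn ℂ q (Metric.ball 0 1) :=
    (Complex.differentiableOn_dslope hball).mpr hg
  have hq0 : q 0 = 1 := by rw [hq, dslope_same, h1]
  have hqs : ∀ s, s * q s = g s := by
    intro s
    by_cases hs : s = 0
    · subst hs; rw [zero_mul, h0]
    · rw [hq, dslope_of_ne _ hs, slope_def_field, h0, sub_zero, sub_zero]
      field_simp
  have hqne : ∀ s ∈ Metric.ball (0 : ℂ) 1, q s ≠ 0 := by
    intro s hs hqs0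
    have h2 : g s = 0 := by rw [← hqs s, hqs0, mul_zero]
    have h3 : s = 0 := hinj hs (Metric.mem_ball_self one_pos) (by rw [h2, h0])
    subst h3
    rw [hq0] at hqs0
    exact one_ne_zero hqs0
  -- logarithm
  have hlogd : DifferentiableOn ℂ (fun s => deriv q s / q s) (Metric.ball 0 1) :=
    (hqd.deriv Metric.isOpen_ball).div hqd hqne
  obtain ⟨Lg, hL0, hL⟩ := (hlogd.isExactOn_ball).with_val_at 0 0
  have hLd : ∀ s ∈ Metric.ball (0 : ℂ) 1, HasDerivAt Lg (deriv q s / q s) s := hL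
  have hexp : ∀ s ∈ Metric.ball (0 : ℂ) 1, q s * exp (-Lg s) = 1 := by
    intro s hs
    have hconst := (convex_ball (0 : ℂ) 1).is_const_of_fderivWithin_eq_zero
      (𝕜 := ℂ) (f := fun s => q s * exp (-Lg s)) (x := s) (y := 0)
    have hder : ∀ s ∈ Metric.ball (0 : ℂ) 1, HasDerivAt (fun s => q s * exp (-Lg s)) 0 s := by
      intro s hs
      have e1 : HasDerivAt q (deriv q s) s :=
        (hqd.differentiableAt (Metric.isOpen_ball.mem_nhds hs)).hasDerivAt
      have e2 := e1.mul ((hLd s hs).neg.cexp)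
      refine e2.congr_deriv ?_
      have := hqne s hs
      field_simp
      ring
    have h3 := hconst (fun s hs => (hder s hs).differentiableAt.differentiableWithinAt) (by
      intro s hs
      rw [fderivWithin_of_isOpen Metric.isOpen_ball hs]
      ext
      have := (hder s hs).deriv
      simpa using this) hs (Metric.mem_ball_self one_pos)
    rw [h3, hq0, hL0]
    simp
  have hLdiff : DifferentiableOn ℂ Lg (Metric.ball 0 1) := fun s hs =>
    (hLd s hs).differentiableAt.differentiableWithinAt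
  set K : ℂ → ℂ := fun s => exp (-Lg s / 2) with hK
  have hKd : DifferentiableOn ℂ K (Metric.ball 0 1) := (hLdiff.neg.div_const 2).cexp
  have hK0 : K 0 = 1 := by rw [hK]; simp [hL0]
  have hKne : ∀ s, ‖s‖ < 1 → K s ≠ 0 := fun s _ => exp_ne_zero _
  have hKg : ∀ s, ‖s‖ < 1 → K s ^ 2 * g s = s := by
    intro s hs
    have hs' : s ∈ Metric.ball (0 : ℂ) 1 := by simpa using hs
    have e1 : K s ^ 2 = exp (-Lg s) := by
      rw [hK, sq, ← exp_add]; congr 1; ring
    rw [e1, ← hqs s]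
    have := hexp s hs'
    linear_combination s * this
  have hpole : PoleMap (fun z => K (z ^ 2)) := by
    have hsq : ∀ z : ℂ, ‖z‖ < 1 → ‖z ^ 2‖ < 1 := by
      intro z hz
      rw [norm_pow]
      exact pow_lt_one₀ (norm_nonneg _) hz two_ne_zero
    refine ⟨?_, ?_, ?_⟩
    · refine hKd.comp (differentiableOn_id.pow 2) ?_
      intro z hz
      have : ‖z‖ < 1 := by simpa using hz
      simpa using hsq z this
    · intro z hz
      exact exp_ne_zero _
    · intro z hz w hw hzw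
      have hz1 : ‖z‖ < 1 := by simpa using hz.1
      have hw1 : ‖w‖ < 1 := by simpa using hw.1
      have hz0 : z ≠ 0 := by simpa using hz.2
      have hw0 : w ≠ 0 := by simpa using hw.2
      simp only at hzw
      have e1 := hKg (z ^ 2) (hsq z hz1)
      have e2 := hKg (w ^ 2) (hsq w hw1)
      have hKz := hKne (z ^ 2) (hsq z hz1)
      have hKw := hKne (w ^ 2) (hsq w hw1)
      have e3 : K (z ^ 2) * w = K (w ^ 2) * z := by
        field_simp at hzw
        linear_combination hzw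
      have e4 : g (z ^ 2) = g (w ^ 2) := by
        have h5 : K (z ^ 2) ^ 2 * K (w ^ 2) ^ 2 * (g (z ^ 2) - g (w ^ 2)) = 0 := by
          have : K (z ^ 2) ^ 2 * K (w ^ 2) ^ 2 * (g (z ^ 2) - g (w ^ 2)) =
              K (w ^ 2) ^ 2 * z ^ 2 - K (z ^ 2) ^ 2 * w ^ 2 := by
            linear_combination K (w ^ 2) ^ 2 * e1 - K (z ^ 2) ^ 2 * e2
          rw [this]
          linear_combination -(K (z ^ 2) * w + K (w ^ 2) * z) * e3
        have h6 : K (z ^ 2) ^ 2 * K (w ^ 2) ^ 2 ≠ 0 := by positivity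
        have h7 := (mul_eq_zero.mp h5).resolve_left h6
        exact sub_eq_zero.mp h7
      have e5 : z ^ 2 = w ^ 2 :=
        hinj (by simpa using hsq z hz1) (by simpa using hsq w hw1) e4
      rcases sq_eq_sq_iff_eq_or_eq_neg.mp e5 with h | h
      · exact h
      · exfalso
        subst h
        rw [neg_sq] at e3
        have h8 : K (w ^ 2) * (2 * w) = 0 := by linear_combination e3
        rcases mul_eq_zero.mp h8 with h9 | h9
        · exact hKw h9
        · exact hw0 (by simpa using h9)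
  refine ⟨K, hKd, hK0, hKne, hKg, hpole, ?_⟩
  -- the area theorem with Q = X
  have hKd1 : DifferentiableOn ℂ (fun s => s * K s) (Metric.ball 0 1) := differentiableOn_id.mul hKd
  have hWd : DifferentiableOn ℂ (fun s => s * (s * K s)) (Metric.ball 0 1) :=
    differentiableOn_id.mul hKd1
  have harea : ∀ N : ℕ, ∑ i ∈ Finset.range N, ‖tc K (i + 1)‖ ^ 2 ≤ 1 := by
    intro N
    have ha := hpole.area Polynomial.X hWd (fun z hz hz0 => by
      simp only [Polynomial.eval_X]
      field_simp) (N := N + 3) (by omega)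
    have htc0 : tc (fun s => s * (s * K s)) 0 = 0 := by rw [tc_zero]; simp
    have htc1 : tc (fun s => s * (s * K s)) 1 = 0 := by
      rw [show (1 : ℕ) = 0 + 1 by rfl, tc_mul_id_succ hKd1 0, tc_zero]; simp
    have htc2 : ∀ j, tc (fun s => s * (s * K s)) (j + 2) = tc K j := by
      intro j
      rw [show j + 2 = (j + 1) + 1 by ring, tc_mul_id_succ hKd1 (j + 1), tc_mul_id_succ hKd j]
    rw [show N + 3 = (N + 2) + 1 by ring, Finset.sum_range_succ', show N + 2 = (N + 1) + 1 by ring,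
      Finset.sum_range_succ', show N + 1 = N + 1 by rfl, Finset.sum_range_succ'] at ha
    rw [htc0, htc1] at ha
    have e2 : tc (fun s => s * (s * K s)) (0 + 1 + 1) = 1 := by
      rw [show 0 + 1 + 1 = 0 + 2 by rfl, htc2, tc_zero, hK0]
    rw [e2] at ha
    have e3 : ∀ i, tc (fun s => s * (s * K s)) (i + 1 + 1 + 1) = tc K (i + 1) := by
      intro i
      rw [show i + 1 + 1 + 1 = (i + 1) + 2 by ring, htc2]
    simp only [e3] at ha
    have e4 : (kk (0 + 1 + 1) : ℝ) = -1 := by norm_num [kk]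
    rw [e4] at ha
    have e5 : ∑ i ∈ Finset.range N, ‖tc K (i + 1)‖ ^ 2 ≤
        ∑ i ∈ Finset.range N, (kk (i + 1 + 1 + 1) : ℝ) * ‖tc K (i + 1)‖ ^ 2 := by
      refine Finset.sum_le_sum fun i _ => ?_
      have : (1 : ℝ) ≤ (kk (i + 1 + 1 + 1) : ℝ) := by
        have : (1 : ℤ) ≤ kk (i + 1 + 1 + 1) := by unfold kk; push_cast; omega
        exact_mod_cast this
      nlinarith [sq_nonneg ‖tc K (i + 1)‖]
    have e6 : (0 : ℝ) ^ 2 = 0 := by norm_num
    simp only [norm_zero, norm_one, one_pow, e6, mul_zero, add_zero, mul_one] at ha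
    linarith
  intro s hs
  have hs1 : ‖s‖ < 1 := lt_of_le_of_lt hs (by norm_num)
  have hsum := tc_hasSum hKd hs1
  rw [← hasSum_nat_add_iff' 1] at hsum
  simp only [Finset.sum_range_one, tc_zero, hK0, pow_zero, mul_one] at hsum
  have htend := hsum.tendsto_sum_nat.norm
  refine le_of_tendsto htend (Eventually.of_forall fun N => ?_)
  -- Cauchy-Schwarz
  have hgeom : ∑ i ∈ Finset.range N, (‖s‖ ^ (i + 1)) ^ 2 ≤ 1 / 9 := by
    have h2 : ∀ i ∈ Finset.range N, (‖s‖ ^ (i + 1)) ^ 2 ≤ (1 / 16) * (1 / 16 : ℝ) ^ i := by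
      intro i _
      rw [← pow_mul, mul_comm (i + 1) 2, pow_mul, ← pow_succ']
      refine pow_le_pow_left₀ (by positivity) ?_ _
      calc ‖s‖ ^ 2 ≤ (1 / 4) ^ 2 := pow_le_pow_left₀ (norm_nonneg _) hs 2
        _ = 1 / 16 := by norm_num
    refine (Finset.sum_le_sum h2).trans ?_
    rw [← Finset.mul_sum, geom_sum_eq (by norm_num)]
    have : (0 : ℝ) ≤ (1 / 16 : ℝ) ^ N := by positivity
    have e : ((1 / 16 : ℝ) ^ N - 1) / (1 / 16 - 1) = (16 / 15) * (1 - (1 / 16 : ℝ) ^ N) := by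
      field_simp; ring
    rw [e]
    nlinarith
  calc ‖∑ i ∈ Finset.range N, tc K (i + 1) * s ^ (i + 1)‖
      ≤ ∑ i ∈ Finset.range N, ‖tc K (i + 1)‖ * ‖s‖ ^ (i + 1) := by
        refine (norm_sum_le _ _).trans (Finset.sum_le_sum fun i _ => ?_)
        rw [norm_mul, norm_pow]
    _ ≤ 1 / 3 := by
        have hcs := Finset.sum_mul_sq_le_sq_mul_sq (Finset.range N)
          (fun i => ‖tc K (i + 1)‖) (fun i => ‖s‖ ^ (i + 1))
        have h3 : (∑ i ∈ Finset.range N, ‖tc K (i + 1)‖ * ‖s‖ ^ (i + 1)) ^ 2 ≤ (1 / 3) ^ 2 := by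
          refine hcs.trans ?_
          have h4 : (0 : ℝ) ≤ ∑ i ∈ Finset.range N, ‖tc K (i + 1)‖ ^ 2 :=
            Finset.sum_nonneg fun i _ => by positivity
          have h5 : (0 : ℝ) ≤ ∑ i ∈ Finset.range N, (‖s‖ ^ (i + 1)) ^ 2 :=
            Finset.sum_nonneg fun i _ => by positivity
          nlinarith [harea N]
        exact abs_le_of_sq_le_sq' h3 (by norm_num) |>.2

end Pool.Agent.Lib.MP_74c692_an
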