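import Pool.Agent.Lib.MP_74c692_an.Maximal

open Filter Topology Complex MeasureTheory Set
open scoped ComplexConjugate

namespace Pool.Agent.Lib.MP_74c692_an

variable {ε : ℝ} {K G : ℂ → ℂ} {y₁ y₂ : ℂ}

lemma bK (h : KData ε K y₁ y₂) (hε1 : 1000000000 * ε ≤ 1) {s : ℂ} (hs : ‖s‖ = 1 / 4) :
    ‖K s‖ ≤ 13 / 10 := by
  have h1 := h.near s (by rw [hs]; norm_num)
  have e : K s = (K s - (1 - s)) + (1 - s) := by ring
  rw [e]
  refine (norm_add_le_of_le h1 (norm_sub_le_of_le norm_one.le hs.le)).trans ?_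
  linarith

lemma bD (h : KData ε K y₁ y₂) (hG : GData G) (hε1 : 1000000000 * ε ≤ 1) {s : ℂ}
    (hs : ‖s‖ = 1 / 4) : ‖G s - K s‖ ≤ 6 / 10 := by
  have h1 := h.near s (by rw [hs]; norm_num)
  have h2 := hG.near s hs.le
  have e : G s - K s = (G s - 1) - ((K s - (1 - s)) - s) := by ring
  rw [e]
  refine (norm_sub_le_of_le h2 (norm_sub_le_of_le h1 hs.le)).trans ?_
  linarith

lemma bG (hG : GData G) {s : ℂ} (hs : ‖s‖ = 1 / 4) : 2 / 3 ≤ ‖G s‖ := by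
  have h2 := hG.near s hs.le
  have h3 := norm_sub_norm_le (1 : ℂ) (1 - G s)
  rw [norm_sub_rev 1 (G s), norm_one, sub_sub_cancel] at h3
  linarith

lemma bA4 (h : KData ε K y₁ y₂) (hε1 : 1000000000 * ε ≤ 1) {s : ℂ} (hs : ‖s‖ = 1 / 4) :
    ‖A4 K s‖ ≤ 21 := by
  have hK := bK h hε1 hs
  have p : ∀ n : ℕ, ‖K s ^ n‖ ≤ (13 / 10) ^ n := fun n => by
    rw [norm_pow]; exact pow_le_pow_left₀ (norm_nonneg _) hK n
  have q : ‖s ^ 2‖ ≤ 1 / 16 := by rw [norm_pow, hs]; norm_num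
  have c5 : ‖(5 : ℂ)‖ ≤ 5 := by norm_num
  have c15 : ‖(15 : ℂ)‖ ≤ 15 := by norm_num
  unfold A4
  refine (norm_add_le_of_le (norm_add_le_of_le (norm_mul_le_of_le c5 (p 4))
    (norm_mul_le_of_le (norm_mul_le_of_le c15 hs.le) (p 2))) (norm_mul_le_of_le c5 q)).trans ?_
  norm_num

lemma norm_Ieps (hε : 0 ≤ ε) : ‖I * (ε : ℂ)‖ = ε := by
  rw [norm_mul, Complex.norm_I, one_mul, Complex.norm_real, Real.norm_of_nonneg hε]

lemma bPP2 (h : KData ε K y₁ y₂) (hε : 0 ≤ ε) (hε1 : 1000000000 * ε ≤ 1) {s : ℂ}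
    (hs : ‖s‖ = 1 / 4) : ‖PP2 ε K s - s ^ 2‖ ≤ 21 * ε := by
  have e : PP2 ε K s - s ^ 2 = I * ε * A4 K s := by unfold PP2; ring
  rw [e]
  refine (norm_mul_le_of_le (norm_Ieps hε).le (bA4 h hε1 hs)).trans ?_
  linarith

lemma bTT2 (h : KData ε K y₁ y₂) (hε1 : 1000000000 * ε ≤ 1) {s : ℂ}
    (hs : ‖s‖ = 1 / 4) : ‖TT2 K s‖ ≤ 4 := by
  have hsub : Metric.closedBall s (1 / 2) ⊆ Metric.ball 0 1 := by
    intro z hz
    rw [mem_ball_zero_iff]
    rw [Metric.mem_closedBall, dist_eq_norm] at hz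
    have : ‖z‖ ≤ ‖z - s‖ + ‖s‖ := by simpa using norm_add_le (z - s) s
    rw [hs] at this
    linarith
  have hd : DiffContOnCl ℂ K (Metric.ball s (1 / 2)) := by
    refine DifferentiableOn.diffContOnCl ?_
    rw [closure_ball _ (by norm_num)]
    exact h.diff.mono hsub
  have h1 := Complex.norm_deriv_le_of_forall_mem_sphere_norm_le (C := 2) (by norm_num) hd
    (fun z hz => by
      rw [mem_sphere_iff_norm] at hz
      have h2 : ‖z‖ ≤ 3 / 4 := by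
        have : ‖z‖ ≤ ‖z - s‖ + ‖s‖ := by simpa using norm_add_le (z - s) s
        rw [hs, hz] at this
        linarith
      have h3 := h.near z (by linarith)
      have e : K z = (K z - (1 - z)) + (1 - z) := by ring
      rw [e]
      refine (norm_add_le_of_le h3 (norm_sub_le_of_le norm_one.le h2)).trans ?_
      linarith)
  unfold TT2
  refine (norm_sub_le_of_le (norm_mul_le_of_le (norm_mul_le_of_le (norm_ofNat 2).le hs.le)
    h1) (bK h hε1 hs)).trans ?_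
  norm_num

lemma bZZ {k D s : ℂ} (hk : ‖k‖ ≤ 13 / 10) (hD : ‖D‖ ≤ 6 / 10) (hs : ‖s‖ = 1 / 4) :
    ‖ZZ k D s‖ ≤ 50 := by
  have p : ∀ n : ℕ, ‖k ^ n‖ ≤ (13 / 10) ^ n := fun n => by
    rw [norm_pow]; exact pow_le_pow_left₀ (norm_nonneg _) hk n
  have q : ∀ n : ℕ, ‖D ^ n‖ ≤ (6 / 10) ^ n := fun n => by
    rw [norm_pow]; exact pow_le_pow_left₀ (norm_nonneg _) hD n
  have c3 : ‖(3 : ℂ)‖ ≤ 3 := by norm_num
  have c5 : ‖(5 : ℂ)‖ ≤ 5 := by norm_num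
  have c10 : ‖(10 : ℂ)‖ ≤ 10 := by norm_num
  unfold ZZ
  refine (norm_add_le_of_le (norm_add_le_of_le (norm_add_le_of_le (norm_add_le_of_le
    (norm_mul_le_of_le c10 (p 3)) (norm_mul_le_of_le (norm_mul_le_of_le c10 (p 2)) hD))
    (norm_mul_le_of_le (norm_mul_le_of_le c5 hk) (q 2))) (q 3))
    (norm_mul_le_of_le (norm_mul_le_of_le c5 hs.le) (norm_add_le_of_le
      (norm_mul_le_of_le c3 hk) hD))).trans ?_
  norm_num

lemma bR1 (h : KData ε K y₁ y₂) (hG : GData G) (hε : 0 ≤ ε) (hε1 : 1000000000 * ε ≤ 1) {s : ℂ}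
    (hs : ‖s‖ = 1 / 4) {d : ℝ} (hd : ‖G s - K s‖ ≤ d) :
    ‖R1 ε K G y₁ y₂ s‖ ≤ 120000 * ε * d ^ 2 := by
  have hs0 : s ≠ 0 := by rw [← norm_pos_iff, hs]; norm_num
  have hd0 : 0 ≤ d := (norm_nonneg _).trans hd
  have hT := bTT2 h hε1 hs
  have hP := bPP2 h hε hε1 hs
  have hDD : ‖(G s - K s) ^ 2‖ ≤ d ^ 2 := by
    rw [norm_pow]; exact pow_le_pow_left₀ (norm_nonneg _) hd 2
  have hZ := bZZ (bK h hε1 hs) (bD h hG hε1 hs) hs
  have hPn : ‖PP2 ε K s‖ ≤ 1 / 8 := by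
    have e : PP2 ε K s = (PP2 ε K s - s ^ 2) + s ^ 2 := by ring
    have hs2 : ‖s ^ 2‖ ≤ 1 / 16 := by rw [norm_pow, hs]; norm_num
    rw [e]
    refine (norm_add_le_of_le hP hs2).trans ?_
    linarith
  have hC : ‖CC ε y₁ y₂ s‖ ≤ 1 / 2 := by
    rw [h.CC_eq (by rw [hs]; norm_num)]
    exact (norm_mul_le_of_le hPn hT).trans (by norm_num)
  have h1 : ‖CC ε y₁ y₂ s / s ^ 5‖ ≤ 512 := by
    rw [norm_div, norm_pow, hs, div_le_iff₀ (by norm_num)]
    exact hC.trans (by norm_num)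
  have h2 : ‖TT2 K s / s‖ ≤ 16 := by
    rw [norm_div, hs, div_le_iff₀ (by norm_num)]
    exact hT.trans (by norm_num)
  set x := (PP2 ε K s - s ^ 2) / s ^ 2 with hx
  have hxn : ‖x‖ ≤ 336 * ε := by
    rw [hx, norm_div, norm_pow, hs, div_le_iff₀ (by norm_num)]
    refine hP.trans ?_
    linarith
  have e3 : (PP2 ε K s / s ^ 2) ^ 2 - 1 = x * (2 + x) := by
    rw [hx]; field_simp; ring
  have h3 : ‖(PP2 ε K s / s ^ 2) ^ 2 - 1‖ ≤ 1008 * ε := by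
    rw [e3]
    refine (norm_mul_le_of_le hxn (norm_add_le_of_le (norm_ofNat 2).le hxn)).trans ?_
    have : 336 * ε * (2 + 336 * ε) ≤ 336 * ε * 3 := by
      apply mul_le_mul_of_nonneg_left _ (by positivity)
      linarith
    linarith
  have hK := bK h hε1 hs
  have hD := bD h hG hε1 hs
  have h4 : ‖1 / 2 * (G s - K s) ^ 2 * (3 * K s + 2 * (G s - K s)) / G s ^ 2‖ ≤ 574 / 100 * d ^ 2 := by
    have hGn := bG hG hs
    have hG2 : 4 / 9 ≤ ‖G s ^ 2‖ := by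
      rw [norm_pow]
      calc (4 / 9 : ℝ) = (2 / 3) ^ 2 := by norm_num
        _ ≤ _ := pow_le_pow_left₀ (by norm_num) hGn 2
    have c2 : ‖(1 / 2 : ℂ)‖ ≤ 1 / 2 := by norm_num
    have c3 : ‖(3 : ℂ)‖ ≤ 3 := by norm_num
    have h5 : ‖1 / 2 * (G s - K s) ^ 2 * (3 * K s + 2 * (G s - K s))‖ ≤ 255 / 100 * d ^ 2 := by
      refine (norm_mul_le_of_le (norm_mul_le_of_le c2 hDD) (norm_add_le_of_le
        (norm_mul_le_of_le c3 hK) (norm_mul_le_of_le (norm_ofNat 2).le hD))).trans (le_of_eq ?_)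
      ring
    rw [norm_div, div_le_iff₀ (by linarith)]
    refine h5.trans ?_
    have : 574 / 100 * d ^ 2 * (4 / 9) ≤ 574 / 100 * d ^ 2 * ‖G s ^ 2‖ :=
      mul_le_mul_of_nonneg_left hG2 (by positivity)
    nlinarith [sq_nonneg d]
  unfold R1
  refine (norm_add_le_of_le (norm_mul_le_of_le h1 (norm_mul_le_of_le (norm_mul_le_of_le
    (norm_Ieps hε).le hDD) hZ)) (norm_mul_le_of_le (norm_mul_le_of_le h2 h3) h4)).trans ?_
  have : 0 ≤ ε * d ^ 2 := by positivity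
  nlinarith

/-! ### Averages -/

lemma sphere_sub : Metric.sphere (0 : ℂ) (1 / 4) ⊆ Metric.ball 0 1 := by
  intro s hs
  rw [mem_sphere_zero_iff_norm] at hs
  rw [mem_ball_zero_iff, hs]; norm_num

lemma sphere_ne {s : ℂ} (hs : s ∈ Metric.sphere (0 : ℂ) (1 / 4)) : s ≠ 0 := by
  rw [mem_sphere_zero_iff_norm] at hs
  rw [← norm_pos_iff, hs]; norm_num

lemma cont_div_pow {V : ℂ → ℂ} (hV : DifferentiableOn ℂ V (Metric.ball 0 1)) (n : ℕ) :
    ContinuousOn (fun s => V s / s ^ n) (Metric.sphere 0 (1 / 4)) :=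
  (hV.continuousOn.mono sphere_sub).div (by fun_prop) fun s hs => pow_ne_zero n (sphere_ne hs)

lemma cA_NN (hG : GData G) : cA (fun s => EE ε y₁ y₂ G s * CC ε y₁ y₂ s / s ^ 5) =
    NN ε y₁ y₂ (tc (EE ε y₁ y₂ G)) := by
  have hE := EE_diff ε y₁ y₂ hG.diff
  have c : ∀ (a : ℂ) (n : ℕ), ContinuousOn (fun s => a * (EE ε y₁ y₂ G s / s ^ n))
      (Metric.sphere 0 (1 / 4)) := fun a n => continuousOn_const.mul (cont_div_pow hE n)
  have a : ∀ (a : ℂ) (n : ℕ), cA (fun s => a * (EE ε y₁ y₂ G s / s ^ n)) =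
      a * tc (EE ε y₁ y₂ G) n := fun a n => by rw [cA_mul, cA_tc hE]
  have e : cA (fun s => EE ε y₁ y₂ G s * CC ε y₁ y₂ s / s ^ 5) =
      cA (fun s => (-5 * (I * ε)) * (EE ε y₁ y₂ G s / s ^ 5) +
        ((-(3 * (I * ε * y₁))) * (EE ε y₁ y₂ G s / s ^ 4) +
        ((-(1 + I * ε * y₂)) * (EE ε y₁ y₂ G s / s ^ 3) +
        ((-(1 - I * ε * conj y₂)) * (EE ε y₁ y₂ G s / s ^ 2) +
        ((3 * (I * ε * conj y₁)) * (EE ε y₁ y₂ G s / s ^ 1) +
          (5 * (I * ε)) * (EE ε y₁ y₂ G s / s ^ 0)))))) := by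
    refine cA_congr fun s hs => ?_
    have hs0 : s ≠ 0 := by rw [← norm_pos_iff, hs]; norm_num
    unfold CC
    field_simp
    ring
  have step : ∀ (b : ℂ) (n : ℕ) (F : ℂ → ℂ), ContinuousOn F (Metric.sphere 0 (1 / 4)) →
      ContinuousOn (fun s => b * (EE ε y₁ y₂ G s / s ^ n) + F s) (Metric.sphere 0 (1 / 4)) ∧
      cA (fun s => b * (EE ε y₁ y₂ G s / s ^ n) + F s) = b * tc (EE ε y₁ y₂ G) n + cA F := by
    intro b n F hF
    exact ⟨(c b n).add hF, by rw [cA_add (c b n) hF, a]⟩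
  have s1 := step (3 * (I * ε * conj y₁)) 1 _ (c (5 * (I * ε)) 0)
  have s2 := step (-(1 - I * ε * conj y₂)) 2 _ s1.1
  have s3 := step (-(1 + I * ε * y₂)) 3 _ s2.1
  have s4 := step (-(3 * (I * ε * y₁))) 4 _ s3.1
  have s5 := step (-5 * (I * ε)) 5 _ s4.1
  rw [e, s5.2, s4.2, s3.2, s2.2, s1.2, a]
  unfold NN
  ring

lemma KData.D0 (h : KData ε K y₁ y₂) (hG : GData G) : G 0 - K 0 = 0 := by
  rw [hG.G0, h.K0, sub_self]

lemma KData.diff_deriv (h : KData ε K y₁ y₂) : DifferentiableOn ℂ (deriv K) (Metric.ball 0 1) :=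
  h.diff.deriv Metric.isOpen_ball

lemma KData.R3_avg (h : KData ε K y₁ y₂) (hG : GData G) :
    cA (fun s => R3 K G s / s ^ 1) = 0 := by
  have hK := h.diff
  have hK' := h.diff_deriv
  have hGd := hG.diff
  have hΨ : DifferentiableOn ℂ (fun s => TT2 K s * (1 / 2 * (3 * K s + 2 * (G s - K s)) / G s ^ 2))
      (Metric.ball 0 1) := by
    unfold TT2
    refine DifferentiableOn.mul (by fun_prop) (DifferentiableOn.div (by fun_prop) (by fun_prop)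
      fun s hs => pow_ne_zero 2 (hG.ne s (by simpa using hs)))
  have hR : DifferentiableOn ℂ (R3 K G) (Metric.ball 0 1) := by
    unfold R3
    exact ((hGd.sub hK).pow 2).mul hΨ
  rw [cA_tc hR]
  have h0 : Metric.ball (0 : ℂ) 1 ∈ 𝓝 (0 : ℂ) := Metric.ball_mem_nhds 0 one_pos
  have d1 : HasDerivAt (fun s => G s - K s) (deriv (fun s => G s - K s) 0) 0 :=
    ((hGd.sub hK).differentiableAt h0).hasDerivAt
  have d2 := (hΨ.differentiableAt h0).hasDerivAt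
  have d3 := (d1.pow 2).mul d2
  have d4 : HasDerivAt (R3 K G) 0 0 := by
    refine d3.congr_deriv ?_
    simp only [Pi.pow_apply, h.D0 hG]
    simp
  unfold tc
  rw [iteratedDeriv_one, d4.deriv, mul_zero]

/-- the difference of the `Y` -/
noncomputable def dY (K G : ℂ → ℂ) (s : ℂ) : ℂ :=
  (G s - K s) * A4 K s + (G s - K s) ^ 2 * ZZ (K s) (G s - K s) s

lemma KData.dY_diff (h : KData ε K y₁ y₂) (hG : GData G) :
    DifferentiableOn ℂ (dY K G) (Metric.ball 0 1) := by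
  have hK := h.diff
  have hGd := hG.diff
  unfold dY A4 ZZ
  fun_prop

lemma KData.dY_bound (h : KData ε K y₁ y₂) (hG : GData G) (hε1 : 1000000000 * ε ≤ 1) {s : ℂ}
    (hs : ‖s‖ = 1 / 4) {d : ℝ} (hd : ‖G s - K s‖ ≤ d) : ‖dY K G s‖ ≤ 51 * d := by
  have hD := bD h hG hε1 hs
  have hZ := bZZ (bK h hε1 hs) hD hs
  have h1 : ‖(G s - K s) ^ 2‖ ≤ d * (6 / 10) := by
    rw [sq]; exact norm_mul_le_of_le hd hD
  unfold dY
  refine (norm_add_le_of_le (norm_mul_le_of_le hd (bA4 h hε1 hs)) (norm_mul_le_of_le h1 hZ)).trans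
    (le_of_eq (by ring))

lemma KData.tc_dY (h : KData ε K y₁ y₂) (hG : GData G) (hε1 : 1000000000 * ε ≤ 1) {d : ℝ}
    (hd : ∀ s, ‖s‖ = 1 / 4 → ‖G s - K s‖ ≤ d) (n : ℕ) : ‖tc (dY K G) n‖ ≤ 51 * d * 4 ^ n := by
  rw [← cA_tc (h.dY_diff hG)]
  refine cA_norm_le fun s hs => ?_
  rw [norm_div, norm_pow, hs, div_le_iff₀ (by positivity), mul_assoc, ← mul_pow]
  norm_num
  exact h.dY_bound hG hε1 hs (hd s hs)

lemma tc_mul_const {V : ℂ → ℂ} (hV : DifferentiableOn ℂ V (Metric.ball 0 1)) (a : ℂ) (n : ℕ) :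
    tc (fun s => a * V s) n = a * tc V n := by
  rw [← cA_tc (V := fun s => a * V s) (hV.const_mul a), ← cA_tc hV, ← cA_mul]
  exact cA_congr fun s _ => by ring

lemma KData.tc_EE (h : KData ε K y₁ y₂) (hG : GData G) :
    tc (EE ε y₁ y₂ G) 0 = 0 ∧ tc (EE ε y₁ y₂ G) 1 = I * ε * tc (dY K G) 1 ∧
      tc (EE ε y₁ y₂ G) 2 = I * ε * tc (dY K G) 2 := by
  have hD : DifferentiableOn ℂ (fun s => G s - K s) (Metric.ball 0 1) := hG.diff.sub h.diff
  have hD1 : DifferentiableOn ℂ (fun s => s * (G s - K s)) (Metric.ball 0 1) :=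
    differentiableOn_id.mul hD
  have hD2 : DifferentiableOn ℂ (fun s => s * (s * (G s - K s))) (Metric.ball 0 1) :=
    differentiableOn_id.mul hD1
  have hY := h.dY_diff hG
  have hEE := EE_diff ε y₁ y₂ hG.diff
  have hsplit : ∀ n, tc (EE ε y₁ y₂ G) n = tc (fun s => s * (s * (G s - K s))) n +
      I * ε * tc (dY K G) n := by
    intro n
    rw [← tc_mul_const hY, ← tc_add hD2 (hY.const_mul (I * (ε : ℂ)))]
    rw [← cA_tc hEE, ← cA_tc (V := fun s => s * (s * (G s - K s)) + I * ε * dY K G s)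
      (hD2.add (hY.const_mul (I * (ε : ℂ))))]
    refine cA_congr fun s hs => ?_
    rw [h.EE_eq (G := G) (by rw [hs]; norm_num)]
    unfold dY; ring
  refine ⟨?_, ?_, ?_⟩
  · rw [tc_zero]
    unfold EE WW hh
    rw [hG.G0]; ring
  · rw [hsplit, show (1 : ℕ) = 0 + 1 by rfl, tc_mul_id_succ hD1, tc_zero]; simp
  · rw [hsplit, show (2 : ℕ) = 0 + 1 + 1 by rfl, tc_mul_id_succ hD1, tc_mul_id_succ hD, tc_zero,
      h.D0 hG]; simp

/-- **Extremality.** -/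
theorem KData.maximal (h : KData ε K y₁ y₂) (hε : 0 ≤ ε) (hε1 : 1000000000 * ε ≤ 1)
    (hG : GData G) {s₀ : ℂ} (hs₀ : ‖s₀‖ = 1 / 4) :
    2 * (cA (fun s => ww ε K y₁ y₂ s * (s / G s ^ 2)) -
      cA (fun s => ww ε K y₁ y₂ s * ff K s)).re ≤ -7 * ‖G s₀ - K s₀‖ ^ 2 := by
  have hK := h.diff.continuousOn.mono sphere_sub
  have hK' := h.diff_deriv.continuousOn.mono sphere_sub
  have hGc := hG.diff.continuousOn.mono sphere_sub
  have hGne : ∀ s ∈ Metric.sphere (0 : ℂ) (1 / 4), G s ≠ 0 := fun s hs =>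
    hG.ne s (by simpa using sphere_sub hs)
  have hKne : ∀ s ∈ Metric.sphere (0 : ℂ) (1 / 4), K s ≠ 0 := fun s hs =>
    h.K_ne hε (by linarith) (by simpa using sphere_sub hs)
  -- the maximum of the difference
  obtain ⟨s₁, hs₁, hmax⟩ := (isCompact_sphere (0 : ℂ) (1 / 4)).exists_isMaxOn ⟨s₀, by simpa using hs₀⟩
    (hGc.sub hK).norm
  rw [mem_sphere_zero_iff_norm] at hs₁
  set d := ‖G s₁ - K s₁‖ with hd_def
  have hd : ∀ s, ‖s‖ = 1 / 4 → ‖G s - K s‖ ≤ d := fun s hs => hmax (by simpa using hs)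
  have hd0 : 0 ≤ d := norm_nonneg _
  obtain ⟨t0, t1, t2⟩ := h.tc_EE hG
  set δ := tc (EE ε y₁ y₂ G) with hδ
  have hδ1 : ‖δ 1‖ ≤ 240 * ε * d := by
    rw [t1]
    refine (norm_mul_le_of_le (norm_Ieps hε).le (h.tc_dY hG hε1 hd 1)).trans ?_
    have : 0 ≤ ε * d := by positivity
    nlinarith
  have hδ2 : ‖δ 2‖ ≤ 960 * ε * d := by
    rw [t2]
    refine (norm_mul_le_of_le (norm_Ieps hε).le (h.tc_dY hG hε1 hd 2)).trans ?_
    have : 0 ≤ ε * d := by positivity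
    nlinarith
  set c := 3 * ‖δ 1‖ ^ 2 + ‖δ 2‖ ^ 2 - 2 * (NN ε y₁ y₂ δ).re with hc
  have harea : ∀ m, ‖δ (3 + m)‖ ^ 2 ≤ c := fun m => area_ineq hG t0 m
  have hc0 : 0 ≤ c := (sq_nonneg _).trans (harea 0)
  have hq : ∀ m, ‖δ (3 + m)‖ ≤ √c := fun m => Real.le_sqrt_of_sq_le (harea m)
  have hqq : √c ^ 2 = c := Real.sq_sqrt hc0
  set q := √c with hqdef
  have hq0 : 0 ≤ q := Real.sqrt_nonneg c
  -- the bound for `EE`
  have hE : ‖EE ε y₁ y₂ G s₁‖ ≤ ‖δ 1‖ / 4 + ‖δ 2‖ / 16 + q / 48 := by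
    have hsum := tc_hasSum (EE_diff ε y₁ y₂ hG.diff) (s := s₁) (by rw [hs₁]; norm_num)
    have h3 := (hasSum_nat_add_iff' 3).mpr hsum
    have hg : HasSum (fun n : ℕ => q / 64 * (1 / 4 : ℝ) ^ n) (q / 64 * (1 - 1 / 4)⁻¹) :=
      (hasSum_geometric_of_lt_one (by norm_num) (by norm_num)).mul_left _
    have h4 := h3.norm_le_of_bounded hg fun n => by
      rw [norm_mul, norm_pow, hs₁, pow_add, add_comm n 3]
      have := hq n
      rw [hδ] at this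
      calc ‖tc (EE ε y₁ y₂ G) (3 + n)‖ * ((1 / 4) ^ n * (1 / 4) ^ 3)
          ≤ q * ((1 / 4) ^ n * (1 / 4) ^ 3) := mul_le_mul_of_nonneg_right this (by positivity)
        _ = q / 64 * (1 / 4) ^ n := by ring
    simp only [Finset.sum_range_succ, Finset.sum_range_zero] at h4
    rw [← hδ, t0] at h4
    have e : EE ε y₁ y₂ G s₁ = (EE ε y₁ y₂ G s₁ - (0 + 0 * s₁ ^ 0 + δ 1 * s₁ ^ 1 + δ 2 * s₁ ^ 2)) +
      (δ 1 * s₁ + δ 2 * s₁ ^ 2) := by ring
    have hs16 : ‖s₁ ^ 2‖ ≤ 1 / 16 := by rw [norm_pow, hs₁]; norm_num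
    rw [e]
    refine (norm_add_le_of_le h4 (norm_add_le_of_le (norm_mul_le_of_le le_rfl hs₁.le)
      (norm_mul_le_of_le le_rfl hs16))).trans (le_of_eq (by ring))
  have hlow : d * (1 / 16 - 21 * ε) ≤ ‖EE ε y₁ y₂ G s₁‖ + 30 * ε * d := by
    have hZ := bZZ (bK h hε1 hs₁) (bD h hG hε1 hs₁) hs₁
    have e : (G s₁ - K s₁) * s₁ ^ 2 = EE ε y₁ y₂ G s₁ - (G s₁ - K s₁) * (PP2 ε K s₁ - s₁ ^ 2) -
        I * ε * ((G s₁ - K s₁) * (G s₁ - K s₁) * ZZ (K s₁) (G s₁ - K s₁) s₁) := by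
      rw [h.EE_eq (G := G) (by rw [hs₁]; norm_num)]
      unfold PP2; ring
    have h5 : ‖(G s₁ - K s₁) * s₁ ^ 2‖ ≤ ‖EE ε y₁ y₂ G s₁‖ + d * (21 * ε) +
        ε * (d * (6 / 10) * 50) := by
      rw [e]
      exact norm_sub_le_of_le (norm_sub_le_of_le le_rfl (norm_mul_le_of_le le_rfl
        (bPP2 h hε hε1 hs₁))) (norm_mul_le_of_le (norm_Ieps hε).le
          (norm_mul_le_of_le (norm_mul_le_of_le le_rfl (bD h hG hε1 hs₁)) hZ))
    rw [norm_mul, norm_pow, hs₁, ← hd_def] at h5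
    linarith
  have hεd : 1000000000 * (ε * d) ≤ d := by
    have := mul_le_mul_of_nonneg_right hε1 hd0
    linarith
  have hqd : 299 / 100 * d ≤ q := by
    have : d * (1 / 16 - 21 * ε) = d / 16 - 21 * (ε * d) := by ring
    rw [this] at hlow
    linarith
  have hcd : 8 * d ^ 2 ≤ c := by
    rw [← hqq]
    have : (299 / 100 * d) ^ 2 ≤ q ^ 2 := pow_le_pow_left₀ (by positivity) hqd 2
    nlinarith [sq_nonneg d]
  -- the pointwise identity averaged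
  have hww : ContinuousOn (ww ε K y₁ y₂) (Metric.sphere 0 (1 / 4)) := by
    unfold ww CC PP2 A4
    exact ContinuousOn.div (by fun_prop) (by fun_prop) fun s hs => pow_ne_zero _ (sphere_ne hs)
  have hF1 : ContinuousOn (fun s => ww ε K y₁ y₂ s * (s / G s ^ 2)) (Metric.sphere 0 (1 / 4)) :=
    hww.mul (ContinuousOn.div (by fun_prop) (by fun_prop) fun s hs => pow_ne_zero _ (hGne s hs))
  have hF2 : ContinuousOn (fun s => ww ε K y₁ y₂ s * ff K s) (Metric.sphere 0 (1 / 4)) := by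
    unfold ff
    exact hww.mul (ContinuousOn.div (by fun_prop) (by fun_prop) fun s hs =>
      pow_ne_zero _ (hKne s hs))
  have hR1 : ContinuousOn (R1 ε K G y₁ y₂) (Metric.sphere 0 (1 / 4)) := by
    unfold R1 CC PP2 A4 TT2 ZZ
    refine ContinuousOn.add (ContinuousOn.mul (ContinuousOn.div (by fun_prop) (by fun_prop)
      fun s hs => pow_ne_zero _ (sphere_ne hs)) (by fun_prop)) (ContinuousOn.mul
      (ContinuousOn.mul (ContinuousOn.div (by fun_prop) (by fun_prop) fun s hs => sphere_ne hs)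
      (ContinuousOn.sub (ContinuousOn.pow (ContinuousOn.div (by fun_prop) (by fun_prop)
      fun s hs => pow_ne_zero _ (sphere_ne hs)) 2) (by fun_prop)))
      (ContinuousOn.div (by fun_prop) (by fun_prop) fun s hs => pow_ne_zero _ (hGne s hs)))
  have hR3 : ContinuousOn (fun s => R3 K G s / s ^ 1) (Metric.sphere 0 (1 / 4)) := by
    unfold R3 TT2
    exact ContinuousOn.div (ContinuousOn.mul (by fun_prop) (ContinuousOn.mul (by fun_prop)
      (ContinuousOn.div (by fun_prop) (by fun_prop) fun s hs => pow_ne_zero _ (hGne s hs))))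
      (by fun_prop) fun s hs => pow_ne_zero _ (sphere_ne hs)
  have hid : NN ε y₁ y₂ δ = (cA (fun s => ww ε K y₁ y₂ s * (s / G s ^ 2)) -
      cA (fun s => ww ε K y₁ y₂ s * ff K s)) + cA (R1 ε K G y₁ y₂) := by
    rw [hδ, ← cA_NN hG, ← cA_sub hF1 hF2]
    have e : cA (fun s => EE ε y₁ y₂ G s * CC ε y₁ y₂ s / s ^ 5) =
        cA (fun s => (ww ε K y₁ y₂ s * (s / G s ^ 2) - ww ε K y₁ y₂ s * ff K s) +
        (R1 ε K G y₁ y₂ s + R3 K G s / s ^ 1)) := by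
      refine cA_congr fun s hs => ?_
      have hmem : s ∈ Metric.sphere (0 : ℂ) (1 / 4) := by simpa using hs
      exact h.pointwise (by rw [hs]; norm_num) (sphere_ne hmem) (hKne s hmem) (hGne s hmem)
    have hF12 : ContinuousOn (fun s => ww ε K y₁ y₂ s * (s / G s ^ 2) - ww ε K y₁ y₂ s * ff K s)
      (Metric.sphere 0 (1 / 4)) := hF1.sub hF2
    have hR13 : ContinuousOn (fun s => R1 ε K G y₁ y₂ s + R3 K G s / s ^ 1)
      (Metric.sphere 0 (1 / 4)) := hR1.add hR3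
    rw [e, cA_add hF12 hR13, cA_add hR1 hR3, h.R3_avg hG, add_zero]
  have hR1b : ‖cA (R1 ε K G y₁ y₂)‖ ≤ 120000 * ε * d ^ 2 :=
    cA_norm_le fun s hs => bR1 h hG hε hε1 hs (hd s hs)
  have hR1re := (abs_le.mp ((Complex.abs_re_le_norm _).trans hR1b)).1
  have hre := congrArg Complex.re hid
  rw [Complex.add_re] at hre
  have hs0d : ‖G s₀ - K s₀‖ ^ 2 ≤ d ^ 2 := pow_le_pow_left₀ (norm_nonneg _) (hd s₀ hs₀) 2
  have hδ1s : ‖δ 1‖ ^ 2 ≤ (240 * ε * d) ^ 2 := pow_le_pow_left₀ (norm_nonneg _) hδ1 2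
  have hδ2s : ‖δ 2‖ ^ 2 ≤ (960 * ε * d) ^ 2 := pow_le_pow_left₀ (norm_nonneg _) hδ2 2
  have hε2 : 1000000000 * (ε * d ^ 2) ≤ d ^ 2 := by
    have := mul_le_mul_of_nonneg_right hε1 (sq_nonneg d)
    linarith
  have hε3 : (ε * d) ^ 2 ≤ ε * d ^ 2 := by
    have : (ε * d) ^ 2 = ε * (ε * d ^ 2) := by ring
    rw [this]
    have h9 : ε ≤ 1 := by linarith
    have h10 : ε * (ε * d ^ 2) ≤ 1 * (ε * d ^ 2) :=
      mul_le_mul_of_nonneg_right h9 (by positivity)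
    linarith
  have e1 : (240 * ε * d) ^ 2 = 57600 * (ε * d) ^ 2 := by ring
  have e2 : (960 * ε * d) ^ 2 = 921600 * (ε * d) ^ 2 := by ring
  rw [e1] at hδ1s
  rw [e2] at hδ2s
  have e3 : 120000 * ε * d ^ 2 = 120000 * (ε * d ^ 2) := by ring
  rw [e3] at hR1re
  have hd2 : 0 ≤ ε * d ^ 2 := by positivity
  linarith

end Pool.Agent.Lib.MP_74c692_an
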