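import Pool.Agent.Lib.MP_74c692_an.Inj
import Pool.Agent.Lib.MP_74c692_an.AreaInt

open Filter Topology Complex Set
open scoped ComplexConjugate

namespace Pool.Agent.Lib.MP_74c692_an

variable {ε : ℝ} {K : ℂ → ℂ} {y₁ y₂ : ℂ}

lemma uu_neg (K : ℂ → ℂ) (z : ℂ) : uu K (-z) = -uu K z := by
  unfold uu
  rw [neg_sq, div_neg]

lemma norm_lt_one_of_sq {z : ℂ} (hs : ‖z ^ 2‖ < 1) : ‖z‖ < 1 := by
  rw [norm_pow] at hs
  by_contra hc
  rw [not_lt] at hc
  have : 1 ≤ ‖z‖ ^ 2 := one_le_pow₀ hc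
  linarith

lemma norm_sq_lt_one {z : ℂ} (hs : ‖z‖ < 1) : ‖z ^ 2‖ < 1 := by
  rw [norm_pow]; exact pow_lt_one₀ (norm_nonneg _) hs two_ne_zero

lemma KData.K_ne (h : KData ε K y₁ y₂) (hε : 0 ≤ ε) (hε1 : 100000 * ε ≤ 1) {s : ℂ}
    (hs : ‖s‖ < 1) : K s ≠ 0 := by
  intro hK
  obtain ⟨z, rfl⟩ : ∃ z : ℂ, z ^ 2 = s := IsAlgClosed.exists_pow_nat_eq s two_pos
  have hz : ‖z‖ < 1 := norm_lt_one_of_sq hs
  have hz0 : z ≠ 0 := by
    rintro rfl
    rw [zero_pow two_ne_zero, h.K0] at hK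
    exact one_ne_zero hK
  have h1 : uu K z = uu K (-z) := by
    rw [uu_neg]; unfold uu; rw [hK]; simp
  have h2 := h.inj hε hε1 hz.le (by rw [norm_neg]; exact hz.le) hz0 (neg_ne_zero.mpr hz0) h1
    (fun hc => hz0 (self_eq_neg.mp hc))
  exact hz.ne h2.1

lemma KData.poleMap (h : KData ε K y₁ y₂) (hε : 0 ≤ ε) (hε1 : 100000 * ε ≤ 1) :
    PoleMap fun z => K (z ^ 2) where
  diff := by
    refine h.diff.comp (by fun_prop) fun z hz => ?_
    rw [mem_ball_zero_iff] at hz ⊢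
    exact norm_sq_lt_one hz
  ne := fun z hz => h.K_ne hε hε1 (norm_sq_lt_one (mem_ball_zero_iff.mp hz))
  inj := by
    rintro z₁ ⟨hz₁, h1⟩ z₂ ⟨hz₂, h2⟩ h12
    by_contra hne
    have := h.inj hε hε1 (mem_ball_zero_iff.mp hz₁).le (mem_ball_zero_iff.mp hz₂).le h1 h2 h12 hne
    exact (mem_ball_zero_iff.mp hz₁).ne this.1

lemma HH_conj {z : ℂ} (hz : ‖z‖ = 1) : conj (HH ε y₁ y₂ z) = -HH ε y₁ y₂ z := by
  have hz0 : z ≠ 0 := by rw [← norm_pos_iff, hz]; exact one_pos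
  have hc : conj z = z⁻¹ := (Complex.inv_eq_conj hz).symm
  unfold HH hh
  simp only [map_add, map_sub, map_mul, map_div₀, map_pow, Complex.conj_conj, map_one,
    Complex.conj_I, Complex.conj_ofReal, hc]
  field_simp
  ring

lemma HH_re {z : ℂ} (hz : ‖z‖ = 1) : (HH ε y₁ y₂ z).re = 0 := by
  have h := congrArg Complex.re (HH_conj (ε := ε) (y₁ := y₁) (y₂ := y₂) hz)
  rw [Complex.conj_re, Complex.neg_re] at h
  linarith

lemma HH_neg (z : ℂ) : HH ε y₁ y₂ (-z) = -HH ε y₁ y₂ z := by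
  unfold HH
  rw [neg_sq, Odd.neg_pow (by decide), div_neg]

lemma HH_near (hε : 0 ≤ ε) (b1 : ‖y₁‖ ≤ 393) (b2 : ‖y₂‖ ≤ 393) {z : ℂ} (hz : ‖z‖ = 1) :
    ‖HH ε y₁ y₂ z - (z⁻¹ - z)‖ ≤ 1574 * ε := by
  have hz0 : z ≠ 0 := by rw [← norm_pos_iff, hz]; exact one_pos
  have e : HH ε y₁ y₂ z - (z⁻¹ - z) = I * ε * (z⁻¹ ^ 5 + y₁ * z⁻¹ ^ 3 + y₂ * z⁻¹ +
      conj y₂ * z + conj y₁ * z ^ 3 + z ^ 5) := by
    unfold HH hh
    field_simp
    ring
  have c1 : ‖conj y₁‖ ≤ 393 := by rw [RCLike.norm_conj]; exact b1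
  have c2 : ‖conj y₂‖ ≤ 393 := by rw [RCLike.norm_conj]; exact b2
  have p : ∀ n : ℕ, ‖z ^ n‖ ≤ 1 := fun n => by rw [norm_pow, hz, one_pow]
  have q : ∀ n : ℕ, ‖z⁻¹ ^ n‖ ≤ 1 := fun n => by rw [norm_pow, norm_inv, hz, inv_one, one_pow]
  have q1 : ‖z⁻¹‖ ≤ 1 := by rw [norm_inv, hz, inv_one]
  have hI : ‖I * (ε : ℂ)‖ ≤ ε := by
    rw [norm_mul, Complex.norm_I, one_mul, Complex.norm_real, Real.norm_of_nonneg hε]
  rw [e]
  refine (norm_mul_le_of_le hI (norm_add_le_of_le (norm_add_le_of_le (norm_add_le_of_le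
    (norm_add_le_of_le (norm_add_le_of_le (q 5) (norm_mul_le_of_le b1 (q 3)))
      (norm_mul_le_of_le b2 q1)) (norm_mul_le_of_le c2 hz.le)) (norm_mul_le_of_le c1 (p 3)))
        (p 5))).trans (le_of_eq (by ring))

lemma PP_antilip (hε : 0 ≤ ε) (hε1 : 100000 * ε ≤ 1) {v w : ℂ} (hv : ‖v‖ ≤ 3) (hw : ‖w‖ ≤ 3) :
    ‖v - w‖ / 2 ≤ ‖PP ε v - PP ε w‖ := by
  set X := (v ^ 4 + v ^ 3 * w + v ^ 2 * w ^ 2 + v * w ^ 3 + w ^ 4) +
    5 * (v ^ 2 + v * w + w ^ 2) + 5 with hX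
  have e : PP ε v - PP ε w = (v - w) + (v - w) * (I * ε * X) := by
    unfold PP; rw [hX]; ring
  have pv : ∀ n : ℕ, ‖v ^ n‖ ≤ 3 ^ n := fun n => by
    rw [norm_pow]; exact pow_le_pow_left₀ (norm_nonneg _) hv n
  have pw : ∀ n : ℕ, ‖w ^ n‖ ≤ 3 ^ n := fun n => by
    rw [norm_pow]; exact pow_le_pow_left₀ (norm_nonneg _) hw n
  have h5 : ‖(5 : ℂ)‖ ≤ 5 := by norm_num
  have hXn : ‖X‖ ≤ 545 := by
    refine (norm_add_le_of_le (norm_add_le_of_le (norm_add_le_of_le (norm_add_le_of_le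
      (norm_add_le_of_le (norm_add_le_of_le (pv 4) (norm_mul_le_of_le (pv 3) hw))
        (norm_mul_le_of_le (pv 2) (pw 2))) (norm_mul_le_of_le hv (pw 3))) (pw 4))
      (norm_mul_le_of_le h5 (norm_add_le_of_le (norm_add_le_of_le (pv 2)
        (norm_mul_le_of_le hv hw)) (pw 2)))) h5).trans (by norm_num)
  have hI : ‖I * (ε : ℂ)‖ ≤ ε := by
    rw [norm_mul, Complex.norm_I, one_mul, Complex.norm_real, Real.norm_of_nonneg hε]
  have h1 : ‖(v - w) * (I * ε * X)‖ ≤ ‖v - w‖ * (1 / 2) := by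
    rw [norm_mul]
    refine mul_le_mul_of_nonneg_left ?_ (norm_nonneg _)
    refine (norm_mul_le_of_le hI hXn).trans ?_
    linarith
  have h2 := norm_sub_norm_le (v - w) (-((v - w) * (I * ε * X)))
  rw [sub_neg_eq_add, norm_neg, ← e] at h2
  linarith

lemma PP_analytic (ε : ℝ) : AnalyticOnNhd ℂ (PP ε) univ := by
  have : Differentiable ℂ (PP ε) := by unfold PP; fun_prop
  exact this.differentiableOn.analyticOnNhd isOpen_univ

/-- **Surjectivity.** -/
lemma KData.surj (h : KData ε K y₁ y₂) (hε : 0 ≤ ε) (hε1 : 100000 * ε ≤ 1) (v : ℂ) :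
    ∃ z : ℂ, z ≠ 0 ∧ ‖z‖ ≤ 1 ∧ uu K z = v := by
  have hB := h.poleMap hε hε1
  set T : Set ℂ := {v | ∃ z : ℂ, z ≠ 0 ∧ ‖z‖ ≤ 1 ∧ uu K z = v} with hT
  by_contra hv
  have hvO : v ∈ Tᶜ := hv
  have hcont : ContinuousOn (uu K) (Metric.closedBall 0 1 \ {0}) := by
    unfold uu
    refine ContinuousOn.div ?_ continuousOn_id fun z hz => hz.2
    refine h.cont.comp (by fun_prop) fun z hz => ?_
    have hz1 := hz.1
    rw [mem_closedBall_zero_iff] at hz1 ⊢
    exact sq_norm_le hz1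
  have hopen : IsOpen Tᶜ := by
    rw [Metric.isOpen_iff]
    intro v hv
    obtain ⟨δ, hδ, hδ1, hlarge⟩ := hB.large_near_zero (‖v‖ + 1)
    have hC : IsCompact (uu K '' (Metric.closedBall 0 1 \ Metric.ball 0 δ)) := by
      refine IsCompact.image_of_continuousOn ?_ (hcont.mono ?_)
      · exact (isCompact_closedBall (0 : ℂ) 1).diff Metric.isOpen_ball
      · rintro z ⟨hz1, hz2⟩
        refine ⟨hz1, fun hz0 => hz2 ?_⟩
        rw [mem_singleton_iff] at hz0
        rw [hz0]; exact Metric.mem_ball_self hδ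
    have hvC : v ∈ (uu K '' (Metric.closedBall 0 1 \ Metric.ball 0 δ))ᶜ := by
      rintro ⟨z, ⟨hz1, hz2⟩, hzv⟩
      refine hv ⟨z, fun hz0 => hz2 ?_, by simpa using hz1, hzv⟩
      rw [hz0]; exact Metric.mem_ball_self hδ
    obtain ⟨r, hr, hball⟩ := Metric.isOpen_iff.mp hC.isClosed.isOpen_compl v hvC
    refine ⟨min r 1, by positivity, fun w hw => ?_⟩
    rintro ⟨z, hz0, hz1, hzw⟩
    rw [Metric.mem_ball, lt_min_iff] at hw
    by_cases hzδ : ‖z‖ < δ
    · have h1 := hlarge z hz0 hzδ.le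
      have h2 : K (z ^ 2) / z = w := hzw
      rw [h2] at h1
      have h3 : ‖w‖ ≤ ‖w - v‖ + ‖v‖ := by
        simpa using norm_add_le (w - v) v
      have h4 := hw.2
      rw [dist_eq_norm] at h4
      linarith
    · refine hball (Metric.mem_ball.mpr hw.1) ⟨z, ⟨by simpa using hz1, ?_⟩, hzw⟩
      simpa using hzδ
  have hbdd : Bornology.IsBounded Tᶜ := by
    have hM : ∀ z : ℂ, ‖z‖ = 1 / 2 → ‖K (z ^ 2) / z‖ ≤ 10 := by
      intro z hz
      have hs : ‖z ^ 2‖ ≤ 1 := sq_norm_le (by rw [hz]; norm_num)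
      have h1 := h.near (z ^ 2) hs
      have h2 : ‖K (z ^ 2)‖ ≤ 3 := by
        have e : K (z ^ 2) = (K (z ^ 2) - (1 - z ^ 2)) + (1 - z ^ 2) := by ring
        rw [e]
        refine (norm_add_le_of_le h1 (norm_sub_le_of_le norm_one.le hs)).trans ?_
        linarith
      rw [norm_div, hz]
      linarith
    refine (Metric.isBounded_closedBall (x := (0 : ℂ)) (r := 20)).subset fun w hw => ?_
    rw [mem_closedBall_zero_iff]
    by_contra hc
    rw [not_le] at hc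
    obtain ⟨z, hz, hz0, hzw⟩ := hB.exists_preimage (r := 1 / 2) (M := 10) (by norm_num)
      (by norm_num) (by norm_num) hM (v := w) (by linarith)
    exact hw ⟨z, hz0, by linarith, hzw⟩
  have hfr : ∀ w ∈ frontier Tᶜ, (PP ε w).re = 0 := by
    intro w hw
    have hwT : w ∈ T := by
      by_contra hc
      have hc' : w ∈ Tᶜ := hc
      rw [hopen.frontier_eq] at hw
      exact hw.2 hc'
    obtain ⟨z, hz0, hz1, hzw⟩ := hwT
    rcases hz1.lt_or_eq with hlt | heq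
    · exfalso
      -- open mapping
      have hU : IsOpen (Metric.ball (0 : ℂ) 1 \ {0}) := Metric.isOpen_ball.sdiff isClosed_singleton
      have hd : DifferentiableOn ℂ (uu K) (Metric.ball (0 : ℂ) 1 \ {0}) := by
        unfold uu
        exact (hB.diff.mono diff_subset).div differentiableOn_id fun z hz => hz.2
      have hinj : InjOn (uu K) (Metric.ball (0 : ℂ) 1 \ {0}) := hB.inj
      have hzU : z ∈ Metric.ball (0 : ℂ) 1 \ {0} := ⟨by simpa using hlt, hz0⟩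
      have han : AnalyticAt ℂ (uu K) z := (hd.analyticOnNhd hU) z hzU
      have hnhds : 𝓝 (uu K z) ≤ map (uu K) (𝓝 z) := by
        refine han.eventually_constant_or_nhds_le_map_nhds.resolve_left fun hconst => ?_
        have h1 : ∀ᶠ z' in 𝓝[≠] z, uu K z' = uu K z := nhdsWithin_le_nhds hconst
        have h2 : ∀ᶠ z' in 𝓝[≠] z, z' ∈ Metric.ball (0 : ℂ) 1 \ {0} :=
          nhdsWithin_le_nhds (hU.mem_nhds hzU)
        obtain ⟨z', ⟨h3, h4⟩, h5⟩ := ((h1.and h2).and self_mem_nhdsWithin).exists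
        exact h5 (hinj h4 hzU h3)
      have himg : uu K '' (Metric.ball (0 : ℂ) 1 \ {0}) ∈ 𝓝 (uu K z) :=
        hnhds (image_mem_map (hU.mem_nhds hzU))
      have hsub : uu K '' (Metric.ball (0 : ℂ) 1 \ {0}) ⊆ T := by
        rintro _ ⟨z', hz', rfl⟩
        exact ⟨z', hz'.2, (by simpa using hz'.1 : ‖z'‖ < 1).le, rfl⟩
      rw [hzw] at himg
      have hcl : w ∈ closure Tᶜ := frontier_subset_closure hw
      rw [mem_closure_iff_nhds] at hcl
      obtain ⟨x, hx1, hx2⟩ := hcl _ himg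
      exact hx2 (hsub hx1)
    · rw [← hzw, h.PP_uu hz1 hz0]
      exact HH_re heq
  -- maximum modulus principle
  have hD : Differentiable ℂ (PP ε) := by unfold PP; fun_prop
  have hmax1 : ∀ w ∈ Tᶜ, (PP ε w).re ≤ 0 := by
    intro w hw
    have h1 := Complex.norm_le_of_forall_mem_frontier_norm_le (f := fun v => exp (PP ε v)) hbdd
      (hD.cexp.diffContOnCl) (C := 1) (fun z hz => by
        rw [Complex.norm_exp, hfr z hz, Real.exp_zero]) (subset_closure hw)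
    rw [Complex.norm_exp, Real.exp_le_one_iff] at h1
    exact h1
  have hmax2 : ∀ w ∈ Tᶜ, 0 ≤ (PP ε w).re := by
    intro w hw
    have h1 := Complex.norm_le_of_forall_mem_frontier_norm_le (f := fun v => exp (-PP ε v)) hbdd
      (hD.neg.cexp.diffContOnCl) (C := 1) (fun z hz => by
        rw [Complex.norm_exp, Complex.neg_re, hfr z hz, neg_zero, Real.exp_zero])
      (subset_closure hw)
    rw [Complex.norm_exp, Real.exp_le_one_iff, Complex.neg_re] at h1
    linarith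
  rcases (PP_analytic ε).is_constant_or_isOpen isPreconnected_univ with ⟨w, hw⟩ | hop
  · have h0 := hw 0 (mem_univ _)
    have h1 := hw 1 (mem_univ _)
    have h2 := congrArg Complex.re (h1.trans h0.symm)
    unfold PP at h2
    simp at h2
  · have himg := hop Tᶜ (subset_univ _) hopen
    obtain ⟨r, hr, hball⟩ := Metric.isOpen_iff.mp himg _ (mem_image_of_mem _ hvO)
    have hmem : PP ε v + (r / 2 : ℝ) ∈ Metric.ball (PP ε v) r := by
      rw [Metric.mem_ball, dist_eq_norm, add_sub_cancel_left, Complex.norm_real,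
        Real.norm_of_nonneg (by positivity)]
      linarith
    obtain ⟨w, hw, hwv⟩ := hball hmem
    have h1 := congrArg Complex.re hwv
    rw [Complex.add_re, Complex.ofReal_re] at h1
    have h2 := hmax1 w hw
    have h3 := hmax2 v hvO
    linarith

/-- the extremal function -/
noncomputable def ff (K : ℂ → ℂ) (s : ℂ) : ℂ := s / K s ^ 2

lemma ff_sq (K : ℂ → ℂ) (z : ℂ) : ff K (z ^ 2) = 1 / uu K z ^ 2 := by
  unfold ff uu
  rw [div_pow, one_div, inv_div]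

lemma ff_zero (K : ℂ → ℂ) : ff K 0 = 0 := by unfold ff; simp

lemma KData.ff_diff (h : KData ε K y₁ y₂) (hε : 0 ≤ ε) (hε1 : 100000 * ε ≤ 1) :
    DifferentiableOn ℂ (ff K) (Metric.ball 0 1) := by
  unfold ff
  exact differentiableOn_id.div (h.diff.pow 2) fun s hs =>
    pow_ne_zero 2 (h.K_ne hε hε1 (by simpa using hs))

lemma KData.ff_deriv (h : KData ε K y₁ y₂) : deriv (ff K) 0 = 1 := by
  have h1 : HasDerivAt K (deriv K 0) 0 :=
    (h.diff.differentiableAt (Metric.ball_mem_nhds 0 one_pos)).hasDerivAt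
  have h2 := (hasDerivAt_id (0 : ℂ)).div (h1.pow 2) (by simp [h.K0])
  have h3 : HasDerivAt (ff K) 1 0 := by
    refine h2.congr_deriv ?_
    simp [h.K0]
  exact h3.deriv

lemma KData.ff_inj (h : KData ε K y₁ y₂) (hε : 0 ≤ ε) (hε1 : 100000 * ε ≤ 1) :
    InjOn (ff K) (Metric.ball 0 1) := by
  intro s₁ hs₁ s₂ hs₂ heq
  rw [mem_ball_zero_iff] at hs₁ hs₂
  have key : ∀ {s : ℂ}, ‖s‖ < 1 → ff K s = 0 → s = 0 := by
    intro s hs h0
    unfold ff at h0
    rw [div_eq_zero_iff] at h0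
    exact h0.resolve_right (pow_ne_zero 2 (h.K_ne hε hε1 hs))
  by_cases h1 : s₁ = 0
  · subst h1
    rw [ff_zero] at heq
    exact (key hs₂ heq.symm).symm
  by_cases h2 : s₂ = 0
  · subst h2
    rw [ff_zero] at heq
    exact key hs₁ heq
  obtain ⟨z₁, rfl⟩ : ∃ z : ℂ, z ^ 2 = s₁ := IsAlgClosed.exists_pow_nat_eq s₁ two_pos
  obtain ⟨z₂, rfl⟩ : ∃ z : ℂ, z ^ 2 = s₂ := IsAlgClosed.exists_pow_nat_eq s₂ two_pos
  have hz₁ := norm_lt_one_of_sq hs₁
  have hz₂ := norm_lt_one_of_sq hs₂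
  have h10 : z₁ ≠ 0 := by rintro rfl; exact h1 (by simp)
  have h20 : z₂ ≠ 0 := by rintro rfl; exact h2 (by simp)
  rw [ff_sq, ff_sq, one_div, one_div, inv_inj, sq_eq_sq_iff_eq_or_eq_neg] at heq
  rcases heq with heq | heq
  · by_contra hne
    have := h.inj hε hε1 hz₁.le hz₂.le h10 h20 heq (fun hc => hne (by rw [hc]))
    exact hz₁.ne this.1
  · rw [← uu_neg] at heq
    by_contra hne
    have := h.inj hε hε1 hz₁.le (by rw [norm_neg]; exact hz₂.le) h10 (neg_ne_zero.mpr h20) heq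
      (fun hc => hne (by rw [hc, neg_sq]))
    exact hz₁.ne this.1

/-- **The omitted set.** -/
theorem KData.compl_image (h : KData ε K y₁ y₂) (hε : 0 ≤ ε) (hε1 : 100000 * ε ≤ 1) :
    ∃ y₀ : ℝ, 19 / 10 ≤ y₀ ∧ y₀ ≤ 21 / 10 ∧
      (ff K '' Metric.ball 0 1)ᶜ = {w | ∃ v : ℂ, ‖v‖ ≤ 3 ∧ v ≠ 0 ∧
        (∃ y : ℝ, |y| ≤ y₀ ∧ PP ε v = y * I) ∧ w = 1 / v ^ 2} := by
  set H := HH ε y₁ y₂ with hHdef
  have hHcont : ContinuousOn H (Metric.sphere 0 1) := by
    rw [hHdef]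
    unfold HH hh
    refine ContinuousOn.div (by fun_prop) (by fun_prop) fun z hz => pow_ne_zero 5 ?_
    rw [mem_sphere_zero_iff_norm] at hz
    rw [← norm_pos_iff, hz]; exact one_pos
  have hHim : ContinuousOn (fun z => (H z).im) (Metric.sphere 0 1) :=
    Complex.continuous_im.comp_continuousOn hHcont
  have hne : (Metric.sphere (0 : ℂ) 1).Nonempty := ⟨1, by simp⟩
  obtain ⟨zm, hzm, hmax⟩ := (isCompact_sphere (0 : ℂ) 1).exists_isMaxOn hne hHim
  have hneg : ∀ z, (H (-z)).im = -(H z).im := by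
    intro z; rw [hHdef, HH_neg, Complex.neg_im]
  set y₀ := (H zm).im with hy₀
  have hnear : ∀ z : ℂ, ‖z‖ = 1 → ‖H z - (z⁻¹ - z)‖ ≤ 1574 * ε := fun z hz =>
    HH_near hε h.b1 h.b2 hz
  have hbound : ∀ z : ℂ, ‖z‖ = 1 → |(H z).im| ≤ y₀ := by
    intro z hz
    rw [abs_le]
    constructor
    · have := hmax (show -z ∈ Metric.sphere (0 : ℂ) 1 by simpa using hz)
      simp only [mem_setOf_eq, hneg] at this
      linarith
    · exact hmax (by simpa using hz)
  have hpre : IsPreconnected (Metric.sphere (0 : ℂ) 1) :=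
    isPreconnected_sphere (by rw [Complex.rank_real_complex]; norm_num) 0 1
  have hall : ∀ y : ℝ, |y| ≤ y₀ → ∃ z : ℂ, ‖z‖ = 1 ∧ H z = y * I := by
    intro y hy
    have hzm' : -zm ∈ Metric.sphere (0 : ℂ) 1 := by simpa using hzm
    have := hpre.intermediate_value hzm' hzm hHim
    obtain ⟨z, hz, hzy⟩ := this (show y ∈ Icc (H (-zm)).im (H zm).im by
      rw [hneg]; exact abs_le.mp hy)
    rw [mem_sphere_zero_iff_norm] at hz
    refine ⟨z, hz, ?_⟩
    apply Complex.ext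
    · rw [hHdef, HH_re hz]; simp
    · simp only at hzy
      rw [hzy]; simp
  have hu3 : ∀ z : ℂ, ‖z‖ = 1 → ‖uu K z‖ ≤ 3 := by
    intro z hz
    have hs : ‖z ^ 2‖ ≤ 1 := sq_norm_le hz.le
    have h1 := h.near (z ^ 2) hs
    unfold uu
    rw [norm_div, hz, div_one]
    have e : K (z ^ 2) = (K (z ^ 2) - (1 - z ^ 2)) + (1 - z ^ 2) := by ring
    rw [e]
    refine (norm_add_le_of_le h1 (norm_sub_le_of_le norm_one.le hs)).trans ?_
    linarith
  refine ⟨y₀, ?_, ?_, ?_⟩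
  · have h1 := hnear (-I) (by simp)
    have h2 := (Complex.abs_im_le_norm _).trans h1
    have h3 : (H (-I) - ((-I)⁻¹ - -I)).im = (H (-I)).im - 2 := by
      simp; norm_num
    rw [h3, abs_le] at h2
    have h4 := hbound (-I) (by simp)
    rw [abs_le] at h4
    linarith [h2.1, h4.2]
  · rw [mem_sphere_zero_iff_norm] at hzm
    have h1 := hnear zm hzm
    have h2 := (Complex.abs_im_le_norm _).trans h1
    rw [Complex.sub_im, abs_le] at h2
    have h3 : (zm⁻¹ - zm).im ≤ 2 := by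
      refine ((le_abs_self _).trans (Complex.abs_im_le_norm _)).trans ?_
      refine (norm_sub_le _ _).trans ?_
      rw [norm_inv, hzm]; norm_num
    linarith [h2.2]
  · ext w
    simp only [mem_compl_iff, mem_setOf_eq]
    constructor
    · intro hw
      have hw0 : w ≠ 0 := by
        rintro rfl
        exact hw ⟨0, by simp, ff_zero K⟩
      obtain ⟨v, hv⟩ : ∃ v : ℂ, v ^ 2 = w⁻¹ := IsAlgClosed.exists_pow_nat_eq _ two_pos
      have hv0 : v ≠ 0 := by
        rintro rfl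
        rw [zero_pow two_ne_zero] at hv
        exact inv_ne_zero hw0 hv.symm
      have hwv : w = 1 / v ^ 2 := by rw [hv, one_div, inv_inv]
      obtain ⟨z, hz0, hz1, hzv⟩ := h.surj hε hε1 v
      rcases hz1.lt_or_eq with hlt | heq
      · exfalso
        refine hw ⟨z ^ 2, by simpa using norm_sq_lt_one hlt, ?_⟩
        rw [ff_sq, hzv, hwv]
      · refine ⟨v, hzv ▸ hu3 z heq, hv0, ⟨(H z).im, hbound z heq, ?_⟩, hwv⟩
        rw [← hzv, h.PP_uu hz1 hz0]
        apply Complex.ext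
        · rw [HH_re heq]; simp
        · simp [hHdef]
    · rintro ⟨v, hv3, hv0, ⟨y, hy, hPy⟩, rfl⟩ ⟨s, hs, hsw⟩
      obtain ⟨z, hz, hHz⟩ := hall y hy
      have hz0 : z ≠ 0 := by rw [← norm_pos_iff, hz]; exact one_pos
      have hvz : v = uu K z := by
        have h1 := PP_antilip hε hε1 hv3 (hu3 z hz)
        rw [h.PP_uu hz.le hz0, hPy, ← hHdef, hHz, sub_self, norm_zero] at h1
        have h2 : ‖v - uu K z‖ = 0 := le_antisymm (by linarith) (norm_nonneg _)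
        exact sub_eq_zero.mp (norm_eq_zero.mp h2)
      have hs0 : s ≠ 0 := by
        rintro rfl
        rw [ff_zero] at hsw
        exact (one_div_ne_zero (pow_ne_zero 2 hv0)) hsw.symm
      obtain ⟨z', rfl⟩ : ∃ z : ℂ, z ^ 2 = s := IsAlgClosed.exists_pow_nat_eq s two_pos
      have hz'0 : z' ≠ 0 := by rintro rfl; exact hs0 (by simp)
      have hz' : ‖z'‖ < 1 := norm_lt_one_of_sq (by simpa using hs)
      rw [ff_sq, one_div, one_div, inv_inj, hvz, sq_eq_sq_iff_eq_or_eq_neg] at hsw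
      rcases hsw with heq | heq
      · have := h.inj hε hε1 hz'.le hz.le hz'0 hz0 heq (fun hc => by
          rw [hc, hz] at hz'; exact lt_irrefl _ hz')
        exact hz'.ne this.1
      · rw [← uu_neg] at heq
        have := h.inj hε hε1 hz'.le (by rw [norm_neg, hz]) hz'0 (neg_ne_zero.mpr hz0) heq
          (fun hc => by rw [hc, norm_neg, hz] at hz'; exact lt_irrefl _ hz')
        exact hz'.ne this.1

end Pool.Agent.Lib.MP_74c692_an
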