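import Pool.Agent.Lib.MP_74c692_an.Avg
import Pool.Agent.Lib.MP_74c692_an.Surj

open Filter Topology Complex MeasureTheory Set
open scoped ComplexConjugate

namespace Pool.Agent.Lib.MP_74c692_an

variable {ε : ℝ} {K G : ℂ → ℂ} {y₁ y₂ : ℂ}

/-- what we use of the square-root transform of a function of class `S` -/
structure GData (G : ℂ → ℂ) : Prop where
  diff : DifferentiableOn ℂ G (Metric.ball 0 1)
  G0 : G 0 = 1
  ne : ∀ s : ℂ, ‖s‖ < 1 → G s ≠ 0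
  pole : PoleMap (fun z => G (z ^ 2))
  near : ∀ s : ℂ, ‖s‖ ≤ 1 / 4 → ‖G s - 1‖ ≤ 1 / 3

/-- `P (u z) = WW (z ^ 2) / z ^ 5` -/
noncomputable def WW (ε : ℝ) (K : ℂ → ℂ) (s : ℂ) : ℂ :=
  s ^ 2 * K s + I * ε * (K s ^ 5 + 5 * s * K s ^ 3 + 5 * s ^ 2 * K s)

/-- the polynomial `P` -/
noncomputable def PQ (ε : ℝ) : Polynomial ℂ :=
  Polynomial.X + Polynomial.C (I * ε) *
    (Polynomial.X ^ 5 + Polynomial.C 5 * Polynomial.X ^ 3 + Polynomial.C 5 * Polynomial.X)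

lemma WW_diff (ε : ℝ) (hG : DifferentiableOn ℂ G (Metric.ball 0 1)) :
    DifferentiableOn ℂ (WW ε G) (Metric.ball 0 1) := by
  unfold WW
  fun_prop

lemma GData.area (hG : GData G) (ε : ℝ) {N : ℕ} (hN : 3 ≤ N) :
    ∑ j ∈ Finset.range N, (kk j : ℝ) * ‖tc (WW ε G) j‖ ^ 2 ≤ 0 := by
  refine hG.pole.area (PQ ε) (WW_diff ε hG.diff) (fun z _ hz0 => ?_) hN
  unfold PQ WW
  simp only [Polynomial.eval_add, Polynomial.eval_mul, Polynomial.eval_pow, Polynomial.eval_X,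
    Polynomial.eval_C]
  field_simp

/-! ### The coefficients of the polynomial `hh` -/

lemma hh_horner (ε : ℝ) (y₁ y₂ s : ℂ) : hh ε y₁ y₂ s =
    I * ε + s * (I * ε * y₁ + s * ((1 + I * ε * y₂) + s * (-(1 - I * ε * conj y₂) +
      s * (I * ε * conj y₁ + s * (I * ε))))) := by
  unfold hh; ring

lemma tc_hh (ε : ℝ) (y₁ y₂ : ℂ) :
    tc (hh ε y₁ y₂) 0 = I * ε ∧ tc (hh ε y₁ y₂) 1 = I * ε * y₁ ∧
    tc (hh ε y₁ y₂) 2 = 1 + I * ε * y₂ ∧ tc (hh ε y₁ y₂) 3 = -(1 - I * ε * conj y₂) ∧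
    tc (hh ε y₁ y₂) 4 = I * ε * conj y₁ ∧ tc (hh ε y₁ y₂) 5 = I * ε ∧
    ∀ n, tc (hh ε y₁ y₂) (6 + n) = 0 := by
  have e : hh ε y₁ y₂ = fun s => I * ε + s * (I * ε * y₁ + s * ((1 + I * ε * y₂) + s *
    (-(1 - I * ε * conj y₂) + s * (I * ε * conj y₁ + s * (I * ε))))) := funext (hh_horner ε y₁ y₂)
  rw [e]
  have d5 : DifferentiableOn ℂ (fun _ : ℂ => I * (ε : ℂ)) (Metric.ball 0 1) := by fun_prop
  have d4 : DifferentiableOn ℂ (fun s : ℂ => I * ε * conj y₁ + s * (I * ε))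
    (Metric.ball 0 1) := by fun_prop
  have d3 : DifferentiableOn ℂ (fun s : ℂ => -(1 - I * ε * conj y₂) + s * (I * ε * conj y₁ +
    s * (I * ε))) (Metric.ball 0 1) := by fun_prop
  have d2 : DifferentiableOn ℂ (fun s : ℂ => (1 + I * ε * y₂) + s * (-(1 - I * ε * conj y₂) +
    s * (I * ε * conj y₁ + s * (I * ε)))) (Metric.ball 0 1) := by fun_prop
  have d1 : DifferentiableOn ℂ (fun s : ℂ => I * ε * y₁ + s * ((1 + I * ε * y₂) +
    s * (-(1 - I * ε * conj y₂) + s * (I * ε * conj y₁ + s * (I * ε))))) (Metric.ball 0 1) := by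
    fun_prop
  refine ⟨?_, ?_, ?_, ?_, ?_, ?_, fun n => ?_⟩
  · exact tc_cons_zero _ _
  · rw [show (1 : ℕ) = 0 + 1 by rfl, tc_cons_succ _ d1]
    exact tc_cons_zero _ _
  · rw [show (2 : ℕ) = 0 + 1 + 1 by rfl, tc_cons_succ _ d1, tc_cons_succ _ d2]
    exact tc_cons_zero _ _
  · rw [show (3 : ℕ) = 0 + 1 + 1 + 1 by rfl, tc_cons_succ _ d1, tc_cons_succ _ d2,
      tc_cons_succ _ d3]
    exact tc_cons_zero _ _
  · rw [show (4 : ℕ) = 0 + 1 + 1 + 1 + 1 by rfl, tc_cons_succ _ d1, tc_cons_succ _ d2,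
      tc_cons_succ _ d3, tc_cons_succ _ d4]
    exact tc_cons_zero _ _
  · rw [show (5 : ℕ) = 0 + 1 + 1 + 1 + 1 + 1 by rfl, tc_cons_succ _ d1, tc_cons_succ _ d2,
      tc_cons_succ _ d3, tc_cons_succ _ d4, tc_cons_succ _ d5]
    exact tc_zero _
  · rw [show (6 + n : ℕ) = n + 1 + 1 + 1 + 1 + 1 + 1 by omega, tc_cons_succ _ d1,
      tc_cons_succ _ d2, tc_cons_succ _ d3, tc_cons_succ _ d4, tc_cons_succ _ d5]
    exact tc_const_succ _ _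

/-- the difference of the transforms -/
noncomputable def EE (ε : ℝ) (y₁ y₂ : ℂ) (G : ℂ → ℂ) (s : ℂ) : ℂ := WW ε G s - hh ε y₁ y₂ s

lemma EE_diff (ε : ℝ) (y₁ y₂ : ℂ) (hG : DifferentiableOn ℂ G (Metric.ball 0 1)) :
    DifferentiableOn ℂ (EE ε y₁ y₂ G) (Metric.ball 0 1) := by
  unfold EE
  refine (WW_diff ε hG).sub ?_
  unfold hh
  fun_prop

/-- the pairing -/
noncomputable def NN (ε : ℝ) (y₁ y₂ : ℂ) (δ : ℕ → ℂ) : ℂ :=
  -5 * (I * ε) * δ 5 - 3 * (I * ε * y₁) * δ 4 - (1 + I * ε * y₂) * δ 3 -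
    (1 - I * ε * conj y₂) * δ 2 + 3 * (I * ε * conj y₁) * δ 1 + 5 * (I * ε) * δ 0

lemma norm_add_sq_complex (a b : ℂ) :
    ‖a + b‖ ^ 2 = ‖a‖ ^ 2 + (2 * (a * conj b).re + ‖b‖ ^ 2) := by
  rw [← Complex.normSq_eq_norm_sq, ← Complex.normSq_eq_norm_sq, ← Complex.normSq_eq_norm_sq,
    Complex.normSq_add]
  ring

/-- **The area inequality** in terms of the differences of the coefficients. -/
lemma area_ineq (hG : GData G) (hδ0 : tc (EE ε y₁ y₂ G) 0 = 0) (m : ℕ) :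
    ‖tc (EE ε y₁ y₂ G) (3 + m)‖ ^ 2 ≤ 3 * ‖tc (EE ε y₁ y₂ G) 1‖ ^ 2 +
      ‖tc (EE ε y₁ y₂ G) 2‖ ^ 2 - 2 * (NN ε y₁ y₂ (tc (EE ε y₁ y₂ G))).re := by
  set δ := tc (EE ε y₁ y₂ G) with hδ
  obtain ⟨t0, t1, t2, t3, t4, t5, t6⟩ := tc_hh ε y₁ y₂
  have hhd : DifferentiableOn ℂ (hh ε y₁ y₂) (Metric.ball 0 1) := by unfold hh; fun_prop
  have hW : ∀ j, tc (WW ε G) j = δ j + tc (hh ε y₁ y₂) j := by
    intro j
    rw [hδ, ← tc_add (EE_diff ε y₁ y₂ hG.diff) hhd]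
    congr 1
    funext s
    unfold EE; ring
  have ha := hG.area ε (N := 6 + m) (by omega)
  simp only [hW, norm_add_sq_complex, mul_add] at ha
  rw [Finset.sum_add_distrib] at ha
  have h2 : ∑ j ∈ Finset.range (6 + m), ((kk j : ℝ) * (2 * (δ j * conj (tc (hh ε y₁ y₂) j)).re) +
      (kk j : ℝ) * ‖tc (hh ε y₁ y₂) j‖ ^ 2) = 2 * (NN ε y₁ y₂ δ).re := by
    rw [Finset.sum_range_add]
    have hz : ∑ j ∈ Finset.range m, ((kk (6 + j) : ℝ) *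
        (2 * (δ (6 + j) * conj (tc (hh ε y₁ y₂) (6 + j))).re) +
        (kk (6 + j) : ℝ) * ‖tc (hh ε y₁ y₂) (6 + j)‖ ^ 2) = 0 := by
      refine Finset.sum_eq_zero fun j _ => ?_
      rw [t6]; simp
    rw [hz, add_zero]
    simp only [Finset.sum_range_succ, Finset.sum_range_zero, t0, t1, t2, t3, t4, t5]
    have n5 : ‖-(1 - I * (ε : ℂ) * conj y₂)‖ = ‖1 + I * (ε : ℂ) * y₂‖ := by
      rw [norm_neg, ← RCLike.norm_conj (1 + I * (ε : ℂ) * y₂)]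
      congr 1
      simp only [map_add, map_mul, map_one, Complex.conj_I, Complex.conj_ofReal]
      ring
    have n4 : ‖I * (ε : ℂ) * conj y₁‖ = ‖I * (ε : ℂ) * y₁‖ := by
      rw [norm_mul (I * (ε : ℂ)), norm_mul (I * (ε : ℂ)), RCLike.norm_conj]
    have k0 : (kk 0 : ℝ) = -5 := by norm_num [kk]
    have k1 : (kk 1 : ℝ) = -3 := by norm_num [kk]
    have k2 : (kk 2 : ℝ) = -1 := by norm_num [kk]
    have k3 : (kk 3 : ℝ) = 1 := by norm_num [kk]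
    have k4 : (kk 4 : ℝ) = 3 := by norm_num [kk]
    have k5 : (kk 5 : ℝ) = 5 := by norm_num [kk]
    have c0 : conj (I * (ε : ℂ)) = -(I * ε) := by simp
    have c1 : conj (I * (ε : ℂ) * y₁) = -(I * ε * conj y₁) := by simp
    have c2 : conj (1 + I * (ε : ℂ) * y₂) = 1 - I * ε * conj y₂ := by
      simp only [map_add, map_mul, map_one, Complex.conj_I, Complex.conj_ofReal]; ring
    have c3 : conj (-(1 - I * (ε : ℂ) * conj y₂)) = -(1 + I * ε * y₂) := by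
      simp only [map_neg, map_sub, map_mul, map_one, Complex.conj_I, Complex.conj_ofReal,
        Complex.conj_conj]; ring
    have c4 : conj (I * (ε : ℂ) * conj y₁) = -(I * ε * y₁) := by simp
    rw [n5, n4, k0, k1, k2, k3, k4, k5, c0, c1, c2, c3, c4]
    have e : (NN ε y₁ y₂ δ) = (-5 : ℝ) * (δ 0 * -(I * ε)) + (-3 : ℝ) * (δ 1 * -(I * ε * conj y₁)) +
        (-1 : ℝ) * (δ 2 * (1 - I * ε * conj y₂)) + (1 : ℝ) * (δ 3 * -(1 + I * ε * y₂)) +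
        (3 : ℝ) * (δ 4 * -(I * ε * y₁)) + (5 : ℝ) * (δ 5 * -(I * ε)) := by
      unfold NN
      push_cast; ring
    rw [e]
    simp only [Complex.add_re, Complex.re_ofReal_mul]
    ring
  rw [h2] at ha
  have h3 : ∑ j ∈ Finset.range (6 + m), (kk j : ℝ) * ‖δ j‖ ^ 2 =
      -3 * ‖δ 1‖ ^ 2 - ‖δ 2‖ ^ 2 + ∑ j ∈ Finset.range (3 + m), (kk (3 + j) : ℝ) * ‖δ (3 + j)‖ ^ 2 := by
    rw [show 6 + m = 3 + (3 + m) by ring, Finset.sum_range_add]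
    congr 1
    have k0 : (kk 0 : ℝ) = -5 := by norm_num [kk]
    have k1 : (kk 1 : ℝ) = -3 := by norm_num [kk]
    have k2 : (kk 2 : ℝ) = -1 := by norm_num [kk]
    simp only [Finset.sum_range_succ, Finset.sum_range_zero, k0, k1, k2, hδ0, norm_zero]
    ring
  have hk : ∀ j : ℕ, (1 : ℝ) ≤ (kk (3 + j) : ℝ) := by
    intro j
    have : (1 : ℤ) ≤ kk (3 + j) := by unfold kk; push_cast; omega
    exact_mod_cast this
  have h4 : (kk (3 + m) : ℝ) * ‖δ (3 + m)‖ ^ 2 ≤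
      ∑ j ∈ Finset.range (3 + m), (kk (3 + j) : ℝ) * ‖δ (3 + j)‖ ^ 2 := by
    refine Finset.single_le_sum (f := fun j => (kk (3 + j) : ℝ) * ‖δ (3 + j)‖ ^ 2)
      (fun j _ => ?_) (Finset.mem_range.mpr (by omega))
    have := hk j
    positivity
  have h5 : ‖δ (3 + m)‖ ^ 2 ≤ (kk (3 + m) : ℝ) * ‖δ (3 + m)‖ ^ 2 := by
    nlinarith [hk m, sq_nonneg ‖δ (3 + m)‖]
  rw [h3] at ha
  linarith

/-! ### The functional -/

/-- `5 K ^ 4 + 15 s K ^ 2 + 5 s ^ 2` -/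
noncomputable def A4 (K : ℂ → ℂ) (s : ℂ) : ℂ := 5 * K s ^ 4 + 15 * s * K s ^ 2 + 5 * s ^ 2

/-- `s ^ 2` times `P' (u z)` -/
noncomputable def PP2 (ε : ℝ) (K : ℂ → ℂ) (s : ℂ) : ℂ := s ^ 2 + I * ε * A4 K s

/-- `z u' z` times `z` -/
noncomputable def TT2 (K : ℂ → ℂ) (s : ℂ) : ℂ := 2 * s * deriv K s - K s

/-- `2 s W' - 5 W` -/
noncomputable def CC (ε : ℝ) (y₁ y₂ s : ℂ) : ℂ :=
  -5 * (I * ε) - 3 * (I * ε * y₁) * s - (1 + I * ε * y₂) * s ^ 2 - (1 - I * ε * conj y₂) * s ^ 3 +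
    3 * (I * ε * conj y₁) * s ^ 4 + 5 * (I * ε) * s ^ 5

lemma KData.CC_eq (h : KData ε K y₁ y₂) {s : ℂ} (hs : ‖s‖ < 1) :
    CC ε y₁ y₂ s = PP2 ε K s * TT2 K s := by
  have hmem : s ∈ Metric.ball (0 : ℂ) 1 := by simpa using hs
  have hK : HasDerivAt K (deriv K s) s :=
    (h.diff.differentiableAt (Metric.isOpen_ball.mem_nhds hmem)).hasDerivAt
  have hid := hasDerivAt_id s
  have d1 : HasDerivAt (fun s => s ^ 2 * K s + I * ε * (K s ^ 5 + 5 * s * K s ^ 3 +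
      5 * s ^ 2 * K s)) (2 * s * K s + s ^ 2 * deriv K s + I * ε * (5 * K s ^ 4 * deriv K s +
      (5 * K s ^ 3 + 5 * s * (3 * K s ^ 2 * deriv K s)) +
      (10 * s * K s + 5 * s ^ 2 * deriv K s))) s := by
    have e := ((hid.pow 2).mul hK).add (((((hK.pow 5).add
      ((hid.const_mul 5).mul (hK.pow 3))).add (((hid.pow 2).const_mul 5).mul hK))).const_mul
        (I * (ε : ℂ)))
    refine e.congr_deriv ?_
    simp only [id, Pi.pow_apply, Nat.cast_ofNat, show 2 - 1 = 1 from rfl,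
      show 5 - 1 = 4 from rfl, show 3 - 1 = 2 from rfl, pow_one, mul_one]
    ring
  have d2 : HasDerivAt (hh ε y₁ y₂) (I * ε * y₁ + (1 + I * ε * y₂) * (2 * s) -
      (1 - I * ε * conj y₂) * (3 * s ^ 2) + I * ε * conj y₁ * (4 * s ^ 3) +
      I * ε * (5 * s ^ 4)) s := by
    unfold hh
    have e := ((((((hasDerivAt_const s (I * (ε : ℂ))).add (hid.const_mul (I * ε * y₁))).add
      ((hid.pow 2).const_mul (1 + I * ε * y₂))).sub
      ((hid.pow 3).const_mul (1 - I * ε * conj y₂))).add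
      ((hid.pow 4).const_mul (I * ε * conj y₁))).add ((hid.pow 5).const_mul (I * (ε : ℂ))))
    refine e.congr_deriv ?_
    simp only [id, Pi.pow_apply, Nat.cast_ofNat, show 2 - 1 = 1 from rfl,
      show 5 - 1 = 4 from rfl, show 3 - 1 = 2 from rfl, show 4 - 1 = 3 from rfl, pow_one, mul_one]
    ring
  have heq : (fun s => s ^ 2 * K s + I * ε * (K s ^ 5 + 5 * s * K s ^ 3 +
      5 * s ^ 2 * K s)) =ᶠ[𝓝 s] hh ε y₁ y₂ := by
    filter_upwards [Metric.isOpen_ball.mem_nhds hmem] with x hx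
    exact h.eqn x (by simpa using hx : ‖x‖ < 1).le
  have h1 := (d2.congr_of_eventuallyEq heq).unique d1
  have h2 := h.eqn s hs.le
  unfold CC PP2 TT2 A4
  unfold hh at h2
  linear_combination (2 * s) * h1 + 5 * h2

/-- the weight of the functional -/
noncomputable def ww (ε : ℝ) (K : ℂ → ℂ) (y₁ y₂ s : ℂ) : ℂ :=
  -(1 / 2) * CC ε y₁ y₂ s * PP2 ε K s * K s ^ 3 / s ^ 6

/-- the second order part of `Y_G - Y_K` -/
noncomputable def ZZ (K D s : ℂ) : ℂ :=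
  10 * K ^ 3 + 10 * K ^ 2 * D + 5 * K * D ^ 2 + D ^ 3 + 5 * s * (3 * K + D)

lemma KData.EE_eq (h : KData ε K y₁ y₂) {s : ℂ} (hs : ‖s‖ ≤ 1) :
    EE ε y₁ y₂ G s = s ^ 2 * (G s - K s) + I * ε * ((G s - K s) * A4 K s +
      (G s - K s) ^ 2 * ZZ (K s) (G s - K s) s) := by
  unfold EE WW A4 ZZ
  rw [← h.eqn s hs]
  ring

/-- the remainder with the small factor -/
noncomputable def R1 (ε : ℝ) (K G : ℂ → ℂ) (y₁ y₂ s : ℂ) : ℂ :=
  CC ε y₁ y₂ s / s ^ 5 * (I * ε * (G s - K s) ^ 2 * ZZ (K s) (G s - K s) s) +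
    TT2 K s / s * ((PP2 ε K s / s ^ 2) ^ 2 - 1) *
      (1 / 2 * (G s - K s) ^ 2 * (3 * K s + 2 * (G s - K s)) / G s ^ 2)

/-- the remainder which vanishes by the mean value property -/
noncomputable def R3 (K G : ℂ → ℂ) (s : ℂ) : ℂ :=
  (G s - K s) ^ 2 * (TT2 K s * (1 / 2 * (3 * K s + 2 * (G s - K s)) / G s ^ 2))

lemma KData.pointwise (h : KData ε K y₁ y₂) {s : ℂ} (hs : ‖s‖ < 1) (hs0 : s ≠ 0)
    (hK : K s ≠ 0) (hG : G s ≠ 0) :
    EE ε y₁ y₂ G s * CC ε y₁ y₂ s / s ^ 5 =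
      ww ε K y₁ y₂ s * (s / G s ^ 2) - ww ε K y₁ y₂ s * ff K s +
        (R1 ε K G y₁ y₂ s + R3 K G s / s ^ 1) := by
  rw [h.EE_eq (G := G) hs.le]
  unfold ww ff R1 R3
  rw [h.CC_eq hs]
  unfold PP2
  field_simp
  ring

end Pool.Agent.Lib.MP_74c692_an
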